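import Pool.Agent.Helper48.LD.P_Ntru

/-!
# LD project, part B1: near hubs of a ghost hub
-/

set_option autoImplicit false

namespace Pool.Agent.Helper48.LD

open Pool.Agent.Helper2.LD

section gho

variable {V Q Λ B FB : Type} {N e : ℕ} {c : Core V Q Λ B FB} {s : Ch V Q}

theorem Mt_ghP {K : Type} (hc : CoreAx N e c) {q q' : Q} (hfl : c.fl q' = c.fl q)
    {h h' : GH V Q K} (hm : Mt N c (c.ow q) (c.ow q') h h') : ghP q h ↔ ghP q' h' := by
  cases h with
  | core z =>
    cases h' with
    | core z' => constructor <;> (rintro ⟨_, h⟩; simp at h)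
    | gho q j => exact hm.elim
    | tru z j => exact hm.elim
    | fan z l => exact hm.elim
  | gho r j =>
    cases h' with
    | core z' => exact hm.elim
    | gho r' j' =>
      obtain ⟨m1, m2, m3, m4, m5⟩ := hm
      constructor
      · rintro ⟨j1, h⟩
        simp only [GH.gho.injEq] at h
        rw [h.1, SimpleGraph.dist_self] at m4
        have h1 := (hc.conn.dist_eq_zero_iff).1 m4.symm
        have h2 : q' = r' := hc.k8 q' r' h1 (by rw [hfl, ← m2, h.1])
        exact ⟨j', by rw [h2]⟩
      · rintro ⟨j1, h⟩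
        simp only [GH.gho.injEq] at h
        rw [h.1, SimpleGraph.dist_self] at m4
        have h1 := (hc.conn.dist_eq_zero_iff).1 m4
        have h2 : q = r := hc.k8 q r h1 (by rw [← hfl, m2, h.1])
        exact ⟨j, by rw [h2]⟩
    | tru z j => exact hm.elim
    | fan z l => exact hm.elim
  | tru z j =>
    cases h' with
    | core z' => exact hm.elim
    | gho q' j' => exact hm.elim
    | tru z' j' => constructor <;> (rintro ⟨_, h⟩; simp at h)
    | fan z l => exact hm.elim
  | fan z l =>
    cases h' <;> exact hm.elim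

end gho

theorem pNgho (hPb : StPb) (hTok : StTok) (hTd : StTdist) (hTp : StTpos) (hGd : StGdist)
    (hGp : StGpos) (hMt : StMt) : StNgho := by
  intro V Q Λ B FB _ _ _ N e c s hP hc hs q q' j y g hg hq hfl hy
  have hu : s.rp (c.ow q') = c.ow q' := by
    rw [hq]
    exact rp_idem hs _
  have hT : TS N c (c.ow q) = TS N c (c.ow q') := by
    rw [hq]
    exact (hs.rp1 _).symm
  rw [← hq] at hy
  have hlb : c.lb (c.ow q) = c.lb (c.ow q') := lb_eq hP hc hT
  have he : 20 ≤ e := hP.2
  have hN : e + 4 = N := hP.1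
  have hj : 1 ≤ j ∧ j ≤ 2 * N := by
    have := g.2
    rw [hg] at this
    exact this
  have e2 : ∀ (r : Q) (k : ℕ), 1 ≤ k → (ghS c r k : GH V Q (Kd N Λ B FB)) = .gho r k := by
    intro r k hk
    unfold ghS
    rw [if_neg (by omega)]
  have A := gh_astk hTok hTd hP hc hs hu
  have A' := gh_astkG hGd hP hc q
  have hyS : tS N e c s false (c.ow q') (ghS c q') (2 * N) (gh_okT hP hu) j = y := by
    apply Subtype.ext
    rw [tS_val (by omega), e2 _ _ hj.1, hy]
  have hgS : gS N e c (ghS c q) (2 * N) (fun _ hj => ghS_ok hj) j = g := by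
    apply Subtype.ext
    rw [gS_val (by omega), e2 _ _ hj.1, hg]
  have hlab : ∀ k ≤ 2 * N,
      tL N e c s (tS N e c s false (c.ow q') (ghS c q') (2 * N) (gh_okT hP hu) k) =
        gL N e c (gS N e c (ghS c q) (2 * N) (fun _ hj => ghS_ok hj) k) := by
    intro k hk
    unfold tL gL
    rw [tS_val hk, gS_val hk]
    show gl N e c (ghS c q' k) = gl N e c (ghS c q k)
    rcases Nat.eq_zero_or_pos k with rfl | h0
    · show gl N e c (.core (c.ow q')) = gl N e c (.core (c.ow q))
      simp only [gl, hlb]
    · rw [e2 _ _ h0, e2 _ _ h0]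
      rcases Nat.lt_or_eq_of_le hk with h1 | rfl
      · have hm : Mt N c (c.ow q) (c.ow q') (.gho q k : GH V Q (Kd N Λ B FB)) (.gho q' k) := by
          refine ⟨rfl, hfl.symm, hlb, ?_, ?_⟩
          · rw [SimpleGraph.dist_self, SimpleGraph.dist_self]
          · rw [SimpleGraph.dist_self]
            omega
        exact (hMt.lab N e c hP hc _ _ hT _ _ hm (by
          simp only [lev, GH.own, GH.ht, SimpleGraph.dist_self]
          omega)).symm
      · unfold gl
        dsimp only
        rw [if_neg (by omega), if_neg (by omega), hlb, hfl]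
  have hss : ∀ k ≤ 2 * N,
      PairEq N e (TG N e c s) (tL N e c s) (GG N e c) (gL N e c) y
        (tS N e c s false (c.ow q') (ghS c q') (2 * N) (gh_okT hP hu) k) g
        (gS N e c (ghS c q) (2 * N) (fun _ hj => ghS_ok hj) k) := by
    intro k hk
    have := cmp_ss A A' (e := e) (by omega) hlab (i := j) (j := k) (by omega) hk
    rw [hyS, hgS] at this
    exact this
  constructor
  · intro y' hd
    obtain ⟨p, hp, hdp⟩ := enat_le hd
    rcases A.cov j (by omega) y' p hp (by rw [hyS]; exact hdp) with hO | ⟨k, hk, hk'⟩ | hF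
    · have hso := T_so hTok hTd hP hc hs (gh_stk (N := N) (e := e) (c := c) (s := s) q')
        (i := j) (by omega) (y := y) (y' := y') (by rw [e2 _ _ hj.1, hy]) hO.1 hO.2
      have h1 := enat_cast_inj (hso.symm.trans hdp)
      obtain ⟨h', g', a1, a2, a3⟩ := T_to_G hMt hP hc hT hO.1 (by omega)
      refine ⟨g', ?_⟩
      have := oPair hPb hTok hTd hTp hGd hGp hMt hP hc hs hT A A' hlab
        (by rw [tS_val (by omega)]; rfl) (by rw [gS_val (by omega)]; rfl)
        hj.1 (by omega) a1 a2 hO (by
          rw [Mt_ghP hc hfl a2]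
          have := hO.2
          rw [a1] at this
          exact this) (by omega)
      rw [hyS, hgS] at this
      exact this
    · rw [hk']
      exact ⟨_, hss k hk⟩
    · exact hF.elim
  · intro g' hd
    obtain ⟨p, hp, hdp⟩ := enat_le hd
    rcases A'.cov j (by omega) g' p hp (by rw [hgS]; exact hdp) with hO | ⟨k, hk, hk'⟩ | hF
    · have hso := (hGd.gho N e c hP hc g g' q j hg).2 (fun i h => hO ⟨i, h⟩)
      have h1 := enat_cast_inj (hso.symm.trans hdp)
      obtain ⟨h', y', a1, a2⟩ := G_to_T (s := s) hMt hP hc hu hT false (g' := g') (by omega)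
      refine ⟨y', ?_⟩
      have := oPair hPb hTok hTd hTp hGd hGp hMt hP hc hs hT A A' hlab
        (by rw [tS_val (by omega)]; rfl) (by rw [gS_val (by omega)]; rfl)
        hj.1 (by omega) a1 a2 ⟨by rw [a1]; rfl, by
          rw [a1]
          show ¬ ghP q' h'
          rw [← Mt_ghP hc hfl a2]
          exact hO⟩ hO (by omega)
      rw [hyS, hgS] at this
      exact this
    · rw [hk']
      exact ⟨_, hss k hk⟩
    · exact hF.elim

end Pool.Agent.Helper48.LD
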