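import Pool.Agent.Helper48.LD.NInst

/-!
# LD project, part B1: near hubs of a trunk hub
-/

set_option autoImplicit false

namespace Pool.Agent.Helper48.LD

open Pool.Agent.Helper2.LD

theorem enat_le {a : ℕ∞} {n : ℕ} (h : a ≤ (n : ℕ∞)) : ∃ p : ℕ, p ≤ n ∧ a = (p : ℕ∞) := by
  obtain ⟨p, hp⟩ := ENat.ne_top_iff_exists.1 (ne_top_of_le_ne_top (ENat.natCast_ne_top n) h)
  rw [← hp] at h
  exact ⟨p, by exact_mod_cast h, hp.symm⟩

section tru

variable {V Q Λ B FB : Type} {N e : ℕ} {c : Core V Q Λ B FB} {s : Ch V Q}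

theorem fan_core (x z : V) : okG N e c (.fan x (gl N e c (.core z))) := by
  refine ⟨Or.inl ⟨z, rfl⟩, ?_⟩
  intro j _ _ hh
  have h3 : Kd.del (c.lb x) ∈ gl N e c (.core z : GH V Q (Kd N Λ B FB)) := by
    rw [hh]; simp [gl]
  simp [gl] at h3

theorem fan_tr {x u : V} (hl : c.lb x = c.lb u) {l : Finset (Kd N Λ B FB)}
    (h : okG N e c (.fan u l)) : okG N e c (.fan x l) := by
  refine ⟨h.1, ?_⟩
  intro j hj1 hj2
  have h11 := h.2 j hj1 hj2
  simp only [gl] at h11 ⊢
  rw [hl]
  exact h11

theorem trS_lab {x u : V} (hl : c.lb x = c.lb u) (l : Finset (Kd N Λ B FB)) (j : ℕ) :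
    gl N e c (trS N u l j) = gl N e c (trS N x l j) := by
  unfold trS
  split_ifs
  · simp only [gl, hl]
  · rfl
  · simp only [gl, hl]

theorem Mt_trP {K : Type} (hc : CoreAx N e c) {x u : V} {h h' : GH V Q K}
    (hm : Mt N c x u h h') : trP x h ↔ trP u h' := by
  cases h with
  | core z =>
    cases h' with
    | core z' => constructor <;> (rintro (⟨_, h⟩ | ⟨_, h⟩) <;> simp at h)
    | gho q j => exact hm.elim
    | tru z j => exact hm.elim
    | fan z l => exact hm.elim
  | gho q j =>
    cases h' with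
    | core z' => exact hm.elim
    | gho q' j' => constructor <;> (rintro (⟨_, h⟩ | ⟨_, h⟩) <;> simp at h)
    | tru z j => exact hm.elim
    | fan z l => exact hm.elim
  | tru z j =>
    cases h' with
    | core z' => exact hm.elim
    | gho q' j' => exact hm.elim
    | tru z' j' =>
      obtain ⟨m1, m2, m3, m4⟩ := hm
      constructor
      · rintro (⟨j1, h⟩ | ⟨_, h⟩)
        · simp only [GH.tru.injEq] at h
          rw [h.1, SimpleGraph.dist_self] at m3
          have := (hc.conn.dist_eq_zero_iff).1 m3.symm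
          left
          exact ⟨j', by rw [this]⟩
        · simp at h
      · rintro (⟨j1, h⟩ | ⟨_, h⟩)
        · simp only [GH.tru.injEq] at h
          rw [h.1, SimpleGraph.dist_self] at m3
          have := (hc.conn.dist_eq_zero_iff).1 m3
          left
          exact ⟨j, by rw [this]⟩
        · simp at h
    | fan z l => exact hm.elim
  | fan z l => 
    cases h' <;> exact hm.elim

/-- Pairs consisting of a hub of a stick and a matched hub outside. -/
theorem oPair (hPb : StPb) (hTok : StTok) (hTd : StTdist) (hTp : StTpos) (hGd : StGdist)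
    (hGp : StGpos) (hMt : StMt) (hP : Par N e) (hc : CoreAx N e c)
    (hs : ChAx N c s) {x u : V} (hT : TS N c x = TS N c u) {b : Bool} {m : ℕ}
    {stT : ℕ → TV N e c s} {stG : ℕ → GV N e c} {OT FT : TV N e c s → Prop}
    {OG FG : GV N e c → Prop} (A : AStk (TG N e c s) N stT m OT FT)
    (A' : AStk (GG N e c) N stG m OG FG) [Fintype Λ] [Fintype B] [Fintype FB]
    (hlab : ∀ j ≤ m, tL N e c s (stT j) = gL N e c (stG j))
    (h0 : (stT 0).1 = .nat b u (.core u)) (h0' : (stG 0).1 = .core x)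
    {i : ℕ} (hi1 : 1 ≤ i) (hi : i ≤ m) {y' : TV N e c s} {g' : GV N e c}
    {h' : GH V Q (Kd N Λ B FB)} (hy' : y'.1 = .nat b u h') (hm : Mt N c x u g'.1 h')
    (hO : OT y') (hO' : OG g') (hl : lev N c x g'.1 < 2 * N) :
    PairEq N e (TG N e c s) (tL N e c s) (GG N e c) (gL N e c) (stT i) y' (stG i) g' := by
  have he : 20 ≤ e := hP.2
  have hN : e + 4 = N := hP.1
  have hlev := hMt.lev N c x u _ _ hm
  refine cmp_so A A' (by omega) hlab hi hO hO' ?_ (L := lev N c x g'.1) ?_ ?_ ?_
  · unfold tL gL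
    rw [hy']
    exact (hMt.lab N e c hP hc x u hT _ _ hm hl).symm
  · rw [hTd.root N e c s hP hc hs _ y' b u h0 (by rw [hy']; rfl), hy', hlev]
    rfl
  · exact hGd.core N e c hP hc _ g' x h0'
  · intro h2 p κ
    exact coreWin hPb hTok hTd hTp hGd hGp hMt hP hc hs hT h0 h0' hy' hm (by omega)
      (NA_of_lt hPb hP hc hs (by omega)) p κ

/-- From a hub outside the stick in `T` to `G'`. -/
theorem T_to_G (hMt : StMt) (hP : Par N e) (hc : CoreAx N e c)
    {x u : V} (hT : TS N c x = TS N c u) {b : Bool} {y' : TV N e c s}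
    (hpc : pc y'.1 = some (b, u)) (hl : tlev N c y'.1 < 2 * N) :
    ∃ (h' : GH V Q (Kd N Λ B FB)) (g' : GV N e c), y'.1 = .nat b u h' ∧ Mt N c x u g'.1 h' ∧
      lev N c x g'.1 = tlev N c y'.1 := by
  have hok := y'.2
  obtain ⟨v, hv⟩ := y'
  cases v with
  | nat b' u' h' =>
    have hb : b' = b ∧ u' = u := by simpa [pc] using hpc
    obtain ⟨rfl, rfl⟩ := hb
    have hl' : lev N c u' h' < 2 * N := hl
    have hnf : ∀ z l, h' ≠ .fan z l := by
      rintro z l rfl
      have : c.G.dist u' z + 2 * N < 2 * N := hl'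
      omega
    obtain ⟨h, h1, h2⟩ := hMt.ex N e c hP hc u' x hT.symm h' hv.2.1 (by
      have : c.G.dist u' (h'.own c) + h'.ht N < 2 * N := hl'
      omega) hnf
    have h3 := hMt.symm N c u' x h' h h2
    exact ⟨h', ⟨h, h1⟩, rfl, h3, hMt.lev N c x u' _ _ h3⟩
  | cap b' u' h' =>
    exfalso
    have h1 := hok.2.2.1
    have h2 : lev N c u' h' + 1 < 2 * N := hl
    unfold dep at h1
    split_ifs at h1 <;> omega
  | pth b' u' j => simp [pc] at hpc
  | rt => simp [pc] at hpc

/-- From a hub outside the stick in `G'` to `T`. -/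
theorem G_to_T (hMt : StMt) (hP : Par N e) (hc : CoreAx N e c)
    {x u : V} (hu : s.rp u = u) (hT : TS N c x = TS N c u) (b : Bool) {g' : GV N e c}
    (hl : lev N c x g'.1 < 2 * N) :
    ∃ (h' : GH V Q (Kd N Λ B FB)) (y' : TV N e c s), y'.1 = .nat b u h' ∧
      Mt N c x u g'.1 h' := by
  have hnf : ∀ z l, g'.1 ≠ .fan z l := by
    intro z l hh
    rw [hh] at hl
    have : c.G.dist x z + 2 * N < 2 * N := hl
    omega
  obtain ⟨h', h1, h2⟩ := hMt.ex N e c hP hc x u hT g'.1 g'.2 (by
    have : c.G.dist x (g'.1.own c) + g'.1.ht N < 2 * N := hl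
    omega) hnf
  have h3 := hMt.lev N c x u _ _ h2
  have hok : okT N e c s (.nat b u h') := ⟨hu, h1, Or.inl (by
    unfold dep
    split_ifs <;> omega)⟩
  exact ⟨h', ⟨_, hok⟩, rfl, h2⟩

end tru

theorem pNtru (hPb : StPb) (hTok : StTok) (hTd : StTdist) (hTp : StTpos) (hGd : StGdist)
    (hGp : StGpos) (hMt : StMt) : StNtru := by
  intro V Q Λ B FB _ _ _ N e c s hP hc hs x j y g hg hy
  have hu : s.rp (s.rp x) = s.rp x := rp_idem hs x
  have hT : TS N c x = TS N c (s.rp x) := (hs.rp1 x).symm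
  generalize s.rp x = u at hy hu hT
  have hlb : c.lb x = c.lb u := lb_eq hP hc hT
  have he : 20 ≤ e := hP.2
  have hN : e + 4 = N := hP.1
  have hj : 1 ≤ j ∧ j < 2 * N := by
    have := g.2
    rw [hg] at this
    exact this
  have e2 : ∀ (a : Finset (Kd N Λ B FB)) (w : V),
      (trS N w a j : GH V Q (Kd N Λ B FB)) = .tru w j := by
    intro a w
    unfold trS
    rw [if_neg (by omega), if_neg (by omega)]
  have e1 : ∀ (a : Finset (Kd N Λ B FB)) (w : V),
      (trS N w a (2 * N) : GH V Q (Kd N Λ B FB)) = .fan w a := by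
    intro a w
    unfold trS
    rw [if_neg (by omega), if_pos rfl]
  -- the sticks
  have hyS : ∀ l (hl : okG N e c (.fan u l)),
      tS N e c s true u (trS N u l) (2 * N) (tr_okT hP hu hl) j = y := by
    intro l hl
    apply Subtype.ext
    rw [tS_val (by omega), e2, hy]
  have hgS : ∀ l (hl : okG N e c (.fan x l)),
      gS N e c (trS N x l) (2 * N) (fun _ hj => trS_ok hl hj) j = g := by
    intro l hl
    apply Subtype.ext
    rw [gS_val (by omega), e2, hg]
  have hlab : ∀ l (hl : okG N e c (.fan u l)) (hl' : okG N e c (.fan x l)), ∀ k ≤ 2 * N,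
      tL N e c s (tS N e c s true u (trS N u l) (2 * N) (tr_okT hP hu hl) k) =
        gL N e c (gS N e c (trS N x l) (2 * N) (fun _ hj => trS_ok hl' hj) k) := by
    intro l hl hl' k hk
    unfold tL gL
    rw [tS_val hk, gS_val hk]
    exact trS_lab hlb l k
  have hss : ∀ l (hl : okG N e c (.fan u l)) (hl' : okG N e c (.fan x l)), ∀ k ≤ 2 * N,
      PairEq N e (TG N e c s) (tL N e c s) (GG N e c) (gL N e c) y
        (tS N e c s true u (trS N u l) (2 * N) (tr_okT hP hu hl) k) g
        (gS N e c (trS N x l) (2 * N) (fun _ hj => trS_ok hl' hj) k) := by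
    intro l hl hl' k hk
    have := cmp_ss (tr_astk hTok hTd hP hc hs hu hl) (tr_astkG hGd hP hc hl') (e := e) (by omega)
      (hlab l hl hl') (i := j) (j := k) (by omega) hk
    rw [hyS l hl, hgS l hl'] at this
    exact this
  have hl0 : okG N e c (.fan u (gl N e c (.core u))) := fan_core u u
  have hl0' : okG N e c (.fan x (gl N e c (.core u))) := fan_core x u
  constructor
  · intro y' hd
    obtain ⟨p, hp, hdp⟩ := enat_le hd
    have A := tr_astk hTok hTd hP hc hs hu hl0
    rcases A.cov j (by omega) y' p hp (by rw [hyS _ hl0]; exact hdp) with hO | ⟨k, hk, hk'⟩ |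
      ⟨l', hne, hl'⟩
    · have hso := T_so hTok hTd hP hc hs (tr_stk (c := c) (s := s) hP u (gl N e c (.core u)))
        (i := j) (by omega) (y := y) (y' := y') (by rw [e2, hy]) hO.1 hO.2
      have h1 := enat_cast_inj (hso.symm.trans hdp)
      obtain ⟨h', g', a1, a2, a3⟩ := T_to_G hMt hP hc hT hO.1 (by omega)
      refine ⟨g', ?_⟩
      have := oPair hPb hTok hTd hTp hGd hGp hMt hP hc hs hT A (tr_astkG hGd hP hc hl0')
        (hlab _ hl0 hl0') (by rw [tS_val (by omega)]; rfl) (by rw [gS_val (by omega)]; rfl)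
        hj.1 (by omega) a1 a2 hO (by
          rw [Mt_trP hc a2]
          have := hO.2
          rw [a1] at this
          exact this) (by omega)
      rw [hyS _ hl0, hgS _ hl0'] at this
      exact this
    · rw [hk']
      exact ⟨_, hss _ hl0 hl0' k hk⟩
    · have hok : okG N e c (.fan u l') := by
        have := y'.2
        rw [hl'] at this
        exact this.2.1
      have h1 : y' = tS N e c s true u (trS N u l') (2 * N) (tr_okT hP hu hok) (2 * N) := by
        apply Subtype.ext
        rw [tS_val le_rfl, e1, hl']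
      rw [h1]
      exact ⟨_, hss _ hok (fan_tr hlb hok) (2 * N) le_rfl⟩
  · intro g' hd
    obtain ⟨p, hp, hdp⟩ := enat_le hd
    have A' := tr_astkG hGd hP hc hl0'
    rcases A'.cov j (by omega) g' p hp (by rw [hgS _ hl0']; exact hdp) with hO | ⟨k, hk, hk'⟩ |
      ⟨l', hne, hl'⟩
    · have hso := (hGd.tru N e c hP hc g g' x j hg).2.2 (fun i h => hO (Or.inl ⟨i, h⟩))
        (fun a h => hO (Or.inr ⟨a, h⟩))
      have h1 := enat_cast_inj (hso.symm.trans hdp)
      obtain ⟨h', y', a1, a2⟩ := G_to_T (s := s) hMt hP hc hu hT true (g' := g') (by omega)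
      refine ⟨y', ?_⟩
      have := oPair hPb hTok hTd hTp hGd hGp hMt hP hc hs hT (tr_astk hTok hTd hP hc hs hu hl0) A'
        (hlab _ hl0 hl0') (by rw [tS_val (by omega)]; rfl) (by rw [gS_val (by omega)]; rfl)
        hj.1 (by omega) a1 a2 ⟨by rw [a1]; rfl, by
          rw [a1]
          show ¬ trP u h'
          rw [← Mt_trP hc a2]
          exact hO⟩ hO (by omega)
      rw [hyS _ hl0, hgS _ hl0'] at this
      exact this
    · rw [hk']
      exact ⟨_, hss _ hl0 hl0' k hk⟩
    · have hok : okG N e c (.fan x l') := by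
        have := g'.2
        rw [hl'] at this
        exact this
      have h1 : g' = gS N e c (trS N x l') (2 * N) (fun _ hj => trS_ok hok hj) (2 * N) := by
        apply Subtype.ext
        rw [gS_val le_rfl, e1, hl']
      rw [h1]
      exact ⟨_, hss _ (fan_tr hlb.symm hok) hok (2 * N) le_rfl⟩

end Pool.Agent.Helper48.LD
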