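import Pool.Agent.Helper48.LD.NBase

/-!
# LD project, part B1: near hubs of a core vertex
-/

set_option autoImplicit false

namespace Pool.Agent.Helper48.LD

open Pool.Agent.Helper2.LD

section core

variable {V Q Λ B FB : Type} {N e : ℕ} {c : Core V Q Λ B FB} {s : Ch V Q}

theorem gho_iter {K : Type} (b : Bool) (u : V) (q : Q) : ∀ (m i : ℕ), 1 ≤ i →
    (pb (K := K) N e c s b u)^[m] (.gho q (m + i)) = .gho q i := by
  intro m
  induction m with
  | zero => intro i _; simp
  | succ m ih =>
    intro i hi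
    rw [Function.iterate_succ_apply]
    have h1 : pb (K := K) N e c s b u (.gho q (m + 1 + i)) = .gho q (m + i) := by
      show (if m + 1 + i ≤ 1 then GH.core (c.ow q) else GH.gho q (m + 1 + i - 1)) = _
      rw [if_neg (by omega)]
      congr 1
      omega
    rw [h1]
    exact ih i hi

theorem antiWin (hPb : StPb) (hTok : StTok) (hTd : StTdist) (hTp : StTpos) (hGd : StGdist)
    (hGp : StGpos) (hMt : StMt) (hP : Par N e) (hc : CoreAx N e c)
    (hs : ChAx N c s) {x u : V} (hT : TS N c x = TS N c u)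
    {y y' : TV N e c s} {g g' : GV N e c} (hy : y.1 = .nat true u (.core u)) (hg : g.1 = .core x)
    {h' : GH V Q (Kd N Λ B FB)} (hy' : y'.1 = .nat true u h') (hm : Mt N c x u g'.1 h')
    {r : Q} (hr : c.ow r = x) (hgr : g'.1 = .core (c.ow ((c.nx^[2 * e]) r)))
    [Fintype Λ] [Fintype B] [Fintype FB]
    (p : ℕ) (κ : Kd N Λ B FB) :
    Win e (TG N e c s) (tL N e c s) y y' p κ ↔ Win e (GG N e c) (gL N e c) g g' p κ := by
  have hlev := hMt.lev N c x u _ _ hm
  have hd1 : (TG N e c s).edist y y' = ((lev N c x g'.1 : ℕ) : ℕ∞) := by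
    rw [hTd.root N e c s hP hc hs y y' true u hy (by rw [hy']; rfl), hy', hlev]
    rfl
  have hd2 : (GG N e c).edist g g' = ((lev N c x g'.1 : ℕ) : ℕ∞) :=
    hGd.core N e c hP hc g g' x hg
  have hD : lev N c x g'.1 = 2 * e := by
    rw [hgr]
    have h1 := ((hPb (K := Kd N Λ B FB) N e c s hP hc hs false x).2.2 r hr).2.2.1
    simp only [lev, GH.own, GH.ht]
    omega
  rw [hgr] at hm
  cases h' with
  | core z' =>
    obtain ⟨m1, m2, m3⟩ := hm
    obtain ⟨r', a1, a2, a3, a4, a5⟩ := hMt.anti N e c hP hc x u hT r z' hr m1 (by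
      rw [← m2]
      exact ((hPb (K := Kd N Λ B FB) N e c s hP hc hs false x).2.2 r hr).2.2.1)
    have he : 20 ≤ e := hP.2
    have hN : e + 4 = N := hP.1
    have key : (tpar N e c s)^[e] y'.1 = .nat true u (.gho r' e) := by
      rw [hy', tpar_iter]
      have h1 : ∀ m, m = e - 1 → (pb (K := Kd N Λ B FB) N e c s true u)^[m + 1] (.core z') =
          .gho r' e := by
        intro m hm
        rw [Function.iterate_succ_apply, ← a3,
          (hPb (K := Kd N Λ B FB) N e c s hP hc hs true u).2.1 r' a1]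
        have h2 : 2 * e - 1 = m + e := by omega
        rw [h2]
        exact gho_iter true u r' m e (by omega)
      have h3 := h1 (e - 1) rfl
      rw [show e - 1 + 1 = e by omega] at h3
      rw [h3]
    have hok := (okT_iter hTok hP hc hs e y'.1 y'.2 (by
      rw [hy']
      show e ≤ lev N c u (.core z')
      omega)).1
    rw [key] at hok
    rw [win_iff hd1, win_iff hd2, hD]
    have hlabT : ∀ z : TV N e c s, z.1 = .nat true u (.gho r' e) →
        (κ ∈ tL N e c s z ↔ κ = Kd.kap (c.lb (c.ow ((c.nx^[e]) r'))) ∨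
          κ = Kd.kap (c.lb (c.ow ((c.nx^[3 * e]) r')))) := by
      intro z hz
      unfold tL
      rw [hz]
      show κ ∈ gl N e c (.gho r' e) ↔ _
      simp [gl]
    have hTp' := fun z : TV N e c s => hTp N e c s hP hc hs y y' z true u e e hy (by rw [hy']; rfl)
        (by rw [hy']; show lev N c u (.core z') = e + e; omega)
    have hGa := fun z : GV N e c => hGp.anti N e c hP hc g g' z x r hg hr hgr
    constructor
    · rintro ⟨q, h1, h2, h3, z, h4, h5, h6⟩
      have hpe : p = e := by omega
      have hqe : q = e := by omega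
      subst hpe hqe
      have hz := (hTp' z).1 ⟨h4, h5⟩
      rw [key] at hz
      rw [hlabT z hz] at h6
      refine ⟨q, h1, h2, h3, ?_⟩
      rcases h6 with h6 | h6
      · refine ⟨⟨.core (c.ow ((c.nx^[q]) r)), trivial⟩, ?_, ?_, ?_⟩
        · exact ((hGa ⟨.core (c.ow ((c.nx^[q]) r)), trivial⟩).2 (Or.inl rfl)).1
        · exact ((hGa ⟨.core (c.ow ((c.nx^[q]) r)), trivial⟩).2 (Or.inl rfl)).2
        · show κ ∈ gl N q c (.core (c.ow ((c.nx^[q]) r)))
          simp only [gl, Finset.mem_singleton]
          rw [h6, a4]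
      · refine ⟨⟨.core (c.ow ((c.nx^[3 * q]) r)), trivial⟩, ?_, ?_, ?_⟩
        · exact ((hGa ⟨.core (c.ow ((c.nx^[3 * q]) r)), trivial⟩).2 (Or.inr rfl)).1
        · exact ((hGa ⟨.core (c.ow ((c.nx^[3 * q]) r)), trivial⟩).2 (Or.inr rfl)).2
        · show κ ∈ gl N q c (.core (c.ow ((c.nx^[3 * q]) r)))
          simp only [gl, Finset.mem_singleton]
          rw [h6, a5]
    · rintro ⟨q, h1, h2, h3, z, h4, h5, h6⟩
      have hpe : p = e := by omega
      have hqe : q = e := by omega
      subst hpe hqe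
      have hz := (hGa z).1 ⟨h4, h5⟩
      refine ⟨q, h1, h2, h3, ⟨_, hok⟩, ?_, ?_, ?_⟩
      · exact ((hTp' ⟨_, hok⟩).2 key.symm).1
      · exact ((hTp' ⟨_, hok⟩).2 key.symm).2
      · rw [hlabT ⟨_, hok⟩ rfl]
        have h6' : κ ∈ gl N q c z.1 := h6
        rcases hz with hz | hz
        · rw [hz] at h6'
          simp only [gl, Finset.mem_singleton] at h6'
          rw [h6', a4]
          simp
        · rw [hz] at h6'
          simp only [gl, Finset.mem_singleton] at h6'
          rw [h6', a5]
          simp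
  | gho q j => exact hm.elim
  | tru x j => exact hm.elim
  | fan x l => exact hm.elim

theorem corePair (hPb : StPb) (hTok : StTok) (hTd : StTdist) (hTp : StTpos) (hGd : StGdist)
    (hGp : StGpos) (hMt : StMt) (hP : Par N e) (hc : CoreAx N e c)
    (hs : ChAx N c s) {x u : V} (hT : TS N c x = TS N c u)
    {y y' : TV N e c s} {g g' : GV N e c} (hy : y.1 = .nat true u (.core u)) (hg : g.1 = .core x)
    {h' : GH V Q (Kd N Λ B FB)} (hy' : y'.1 = .nat true u h') (hm : Mt N c x u g'.1 h')
    (hl : lev N c x g'.1 < 2 * N) [Fintype Λ] [Fintype B] [Fintype FB] :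
    PairEq N e (TG N e c s) (tL N e c s) (GG N e c) (gL N e c) y y' g g' := by
  have hlev := hMt.lev N c x u _ _ hm
  have hd1 : (TG N e c s).edist y y' = ((lev N c x g'.1 : ℕ) : ℕ∞) := by
    rw [hTd.root N e c s hP hc hs y y' true u hy (by rw [hy']; rfl), hy', hlev]
    rfl
  have hd2 : (GG N e c).edist g g' = ((lev N c x g'.1 : ℕ) : ℕ∞) :=
    hGd.core N e c hP hc g g' x hg
  refine pairEq_mk ?_ hd1 hd2 ?_
  · unfold tL gL
    rw [hy']
    exact (hMt.lab N e c hP hc x u hT _ _ hm hl).symm
  · intro hD p κ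
    by_cases hna : NA e c x g'.1
    · exact coreWin hPb hTok hTd hTp hGd hGp hMt hP hc hs hT hy hg hy' hm hD hna p κ
    · unfold NA at hna
      push Not at hna
      obtain ⟨r, hr1, hr2⟩ := hna
      exact antiWin hPb hTok hTd hTp hGd hGp hMt hP hc hs hT hy hg hy' hm hr1 hr2 p κ

/-- Labels of hubs at level `2 * N` are labels of a fan. -/
theorem fan_label (hP : Par N e) (hc : CoreAx N e c) {x u : V} (hl : c.lb x = c.lb u)
    {h : GH V Q (Kd N Λ B FB)} (hg : okG N e c h) (h2 : lev N c u h = 2 * N) :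
    okG N e c (.fan x (gl N e c h)) := by
  have he : 20 ≤ e := hP.2
  have hN : e + 4 = N := hP.1
  cases h with
  | core z =>
    refine ⟨Or.inl ⟨z, rfl⟩, ?_⟩
    intro j _ _ hh
    have h3 : Kd.del (c.lb x) ∈ gl N e c (.core z : GH V Q (Kd N Λ B FB)) := by
      rw [hh]; simp [gl]
    simp [gl] at h3
  | gho q j =>
    refine ⟨Or.inr (Or.inl ⟨q, j, hg.1, hg.2, rfl⟩), ?_⟩
    intro j' _ _ hh
    have h3 : Kd.del (c.lb x) ∈ gl N e c (.gho q j : GH V Q (Kd N Λ B FB)) := by
      rw [hh]; simp [gl]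
    by_cases hj : j = e
    · simp [gl, hj] at h3
    · simp [gl, hj, piK] at h3
  | tru z j =>
    refine ⟨Or.inr (Or.inr ⟨z, j, hg.1, hg.2, rfl⟩), ?_⟩
    intro j' _ hj' hh
    have h3 : Kd.del (c.lb z) ∈ gl N e c (.tru x j' : GH V Q (Kd N Λ B FB)) := by
      rw [← hh]; simp [gl]
    have h4 : c.lb z = c.lb x := by simpa [gl, piK] using h3
    have h5 : (piK N j : Kd N Λ B FB) ∈ gl N e c (.tru x j' : GH V Q (Kd N Λ B FB)) := by
      rw [← hh]; simp [gl]
    have h6 : j = j' := by
      have h7 : (piK N j : Kd N Λ B FB) = piK N j' := by simpa [gl, piK] using h5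
      have h8 : j % (2 * N + 1) = j' % (2 * N + 1) := by
        simpa [piK] using h7
      rw [Nat.mod_eq_of_lt (by have := hg.2; omega), Nat.mod_eq_of_lt (by omega)] at h8
      exact h8
    have h9 : c.G.dist u z + j = 2 * N := h2
    have h10 : u = z := k5' hc (by omega) (by rw [h4, hl])
    subst h10
    simp only [SimpleGraph.dist_self] at h9
    omega
  | fan z l =>
    have h9 : c.G.dist u z + 2 * N = 2 * N := h2
    have h10 : u = z := (hc.conn.dist_eq_zero_iff).1 (by omega)
    subst h10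
    refine ⟨hg.1, ?_⟩
    intro j hj1 hj2
    show l ≠ _
    have h11 := hg.2 j hj1 hj2
    simp only [gl] at h11 ⊢
    rw [hl]
    exact h11

end core

theorem pNcore (hPb : StPb) (hTok : StTok) (hTd : StTdist) (hTp : StTpos) (hGd : StGdist)
    (hGp : StGpos) (hMt : StMt) : StNcore := by
  intro V Q Λ B FB _ _ _ N e c s hP hc hs x y g hg hy
  have hu : s.rp (s.rp x) = s.rp x := rp_idem hs x
  have hT : TS N c x = TS N c (s.rp x) := (hs.rp1 x).symm
  generalize s.rp x = u at hy hu hT
  have hlb : c.lb x = c.lb u := lb_eq hP hc hT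
  have he : 20 ≤ e := hP.2
  have hN : e + 4 = N := hP.1
  constructor
  · intro y' hd
    -- the piece
    have hpc : pc y'.1 = some (true, u) := by
      rcases hTd.near N e c s hP hc hs y y' true u (by rw [hy]; rfl) hd with h | ⟨j, h⟩
      · exact h
      · exfalso
        have hcc := hTok.okc N e c s hP hc hs true u hu
        have hp1 : okT N e c s (.pth true u 1) := ⟨hu, le_refl _, by omega⟩
        have h1 := hTd.out N e c s hP hc hs y y' ⟨_, hcc⟩ ⟨_, hp1⟩ true u (by rw [hy]; rfl)
          (by rw [h]; simp [pc]) rfl rfl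
        have h2 := hTd.root N e c s hP hc hs y ⟨_, hcc⟩ true u hy rfl
        rw [h1, h2] at hd
        have h3 : tlev N c (.cap true u (cc N s true u) : TH V Q (Kd N Λ B FB)) = 2 * N + 1 := by
          show lev N c u (.gho (s.q0 u) (2 * N)) + 1 = _
          simp only [lev, GH.own, GH.ht, hs.q0, SimpleGraph.dist_self]
          omega
        simp only [h3] at hd
        have h4 : ((2 * N + 1 : ℕ) : ℕ∞) ≤ ((2 * N : ℕ) : ℕ∞) :=
          le_trans (le_trans (le_self_add) (le_self_add)) hd
        have h5 : 2 * N + 1 ≤ 2 * N := by exact_mod_cast h4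
        omega
    have hd1 := hTd.root N e c s hP hc hs y y' true u hy hpc
    have hd' : tlev N c y'.1 ≤ 2 * N := by
      rw [hd1] at hd
      exact_mod_cast hd
    have hok := y'.2
    -- cases
    obtain ⟨v, hv⟩ := y'
    cases v with
    | nat b u' h' =>
      have hb : b = true ∧ u' = u := by simpa [pc] using hpc
      obtain ⟨rfl, rfl⟩ := hb
      have hl : lev N c u' h' ≤ 2 * N := hd'
      rcases Nat.lt_or_eq_of_le hl with hl | hl
      · have hnf : ∀ z l, h' ≠ .fan z l := by
          rintro z l rfl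
          have : c.G.dist u' z + 2 * N < 2 * N := hl
          omega
        obtain ⟨h, h1, h2⟩ := hMt.ex N e c hP hc u' x hT.symm h' hv.2.1 (by
          have : c.G.dist u' (h'.own c) + h'.ht N < 2 * N := hl
          omega) hnf
        have h3 := hMt.symm N c u' x h' h h2
        exact ⟨⟨h, h1⟩, corePair hPb hTok hTd hTp hGd hGp hMt hP hc hs hT hy hg
          (g' := ⟨h, h1⟩) rfl h3 (by rw [hMt.lev N c x u' _ _ h3]; exact hl)⟩
      · have h1 := fan_label hP hc hlb hv.2.1 hl
        refine ⟨⟨.fan x (gl N e c h'), h1⟩, pairEq_mk (D := 2 * N) ?_ ?_ ?_ ?_⟩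
        · rfl
        · rw [hd1]
          show ((lev N c u' h' : ℕ) : ℕ∞) = _
          rw [hl]
        · rw [hGd.core N e c hP hc g _ x hg]
          simp only [lev, GH.own, GH.ht, SimpleGraph.dist_self, zero_add]
        · intro h; omega
    | cap b u' h' =>
      exfalso
      have hb : b = true ∧ u' = u := by simpa [pc] using hpc
      obtain ⟨rfl, rfl⟩ := hb
      have h1 : lev N c u' h' = 2 * N := by
        have := hok.2.2.1
        simpa [dep] using this
      have h2 : lev N c u' h' + 1 ≤ 2 * N := hd'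
      omega
    | pth b u' j => simp [pc] at hpc
    | rt => simp [pc] at hpc
  · intro g' hd
    have hd1 := hGd.core N e c hP hc g g' x hg
    have hl : lev N c x g'.1 ≤ 2 * N := by
      rw [hd1] at hd
      exact_mod_cast hd
    rcases Nat.lt_or_eq_of_le hl with hl | hl
    · have hnf : ∀ z l, g'.1 ≠ .fan z l := by
        intro z l hh
        rw [hh] at hl
        have : c.G.dist x z + 2 * N < 2 * N := hl
        omega
      obtain ⟨h', h1, h2⟩ := hMt.ex N e c hP hc x u hT g'.1 g'.2 (by
        have : c.G.dist x (g'.1.own c) + g'.1.ht N < 2 * N := hl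
        omega) hnf
      have h3 := hMt.lev N c x u _ _ h2
      have hok : okT N e c s (.nat true u h') := ⟨hu, h1, Or.inl (by
        show lev N c u h' ≤ dep N true
        simp only [dep, if_true]
        omega)⟩
      exact ⟨⟨_, hok⟩, corePair hPb hTok hTd hTp hGd hGp hMt hP hc hs hT hy hg (y' := ⟨_, hok⟩)
        rfl h2 hl⟩
    · have h1 := fan_label hP hc hlb.symm g'.2 hl
      have hok : okT N e c s (.nat true u (.fan u (gl N e c g'.1))) := ⟨hu, h1, Or.inl (by
        show lev N c u _ ≤ dep N true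
        simp only [lev, dep, GH.own, GH.ht, SimpleGraph.dist_self, if_true]
        omega)⟩
      refine ⟨⟨_, hok⟩, pairEq_mk (D := 2 * N) ?_ ?_ ?_ ?_⟩
      · rfl
      · rw [hTd.root N e c s hP hc hs y ⟨_, hok⟩ true u hy rfl]
        show ((lev N c u (.fan u (gl N e c g'.1)) : ℕ) : ℕ∞) = _
        simp only [lev, GH.own, GH.ht, SimpleGraph.dist_self, zero_add]
      · rw [hd1, hl]
      · intro h; omega

end Pool.Agent.Helper48.LD
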