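import Pool.Agent.Helper48.LD.Defs

namespace Pool.Agent.Helper48.LD

variable {α β : Type} [PartialOrder α] [PartialOrder β]

namespace PLE

theorem Before.asymm {L : PLE α} {x y : α} (h : L.Before x y) : ¬ L.Before y x := fun h' =>
  L.irrefl x h.1 (L.trans x h.1 y h.2.1 x h.1 h.2.2 h'.2.2)

theorem Before.trans {L : PLE α} {x y z : α} (h : L.Before x y) (h' : L.Before y z) :
    L.Before x z :=
  ⟨h.1, h'.2.1, L.trans x h.1 y h.2.1 z h'.2.1 h.2.2 h'.2.2⟩

theorem before_of_lt {L : PLE α} {x y : α} (hx : x ∈ L.carrier) (hy : y ∈ L.carrier)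
    (h : x < y) : L.Before x y := ⟨hx, hy, L.mono x hx y hy h⟩

/-- The partial linear extension obtained from a weakly monotone key, ties being broken by a fixed
linear extension of `α`. -/
noncomputable def ofKey {κ : Type} [LinearOrder κ] (Y : Set α) (f : α → κ)
    (hf : ∀ x ∈ Y, ∀ y ∈ Y, x < y → f x ≤ f y) : PLE α where
  carrier := Y
  lt x y := f x < f y ∨ (f x = f y ∧ toLinearExtension x < toLinearExtension y)
  irrefl := by
    rintro x hx (h | h)
    · exact lt_irrefl _ h
    · exact lt_irrefl _ h.2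
  trans := by
    rintro x hx y hy z hz (h | h) (h' | h')
    · exact Or.inl (h.trans h')
    · exact Or.inl (h'.1 ▸ h)
    · exact Or.inl (h.1 ▸ h')
    · exact Or.inr ⟨h.1.trans h'.1, h.2.trans h'.2⟩
  total := by
    intro x hx y hy hne
    rcases lt_trichotomy (f x) (f y) with h | h | h
    · exact Or.inl (Or.inl h)
    · have hne' : (toLinearExtension x) ≠ toLinearExtension y := fun he => hne he
      rcases lt_or_gt_of_ne hne' with h' | h'
      · exact Or.inl (Or.inr ⟨h, h'⟩)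
      · exact Or.inr (Or.inr ⟨h.symm, h'⟩)
    · exact Or.inr (Or.inl h)
  mono := by
    intro x hx y hy hlt
    rcases (hf x hx y hy hlt).lt_or_eq with h | h
    · exact Or.inl h
    · refine Or.inr ⟨h, ?_⟩
      have h1 : toLinearExtension x ≤ toLinearExtension y := toLinearExtension.monotone hlt.le
      have h2 : toLinearExtension x ≠ toLinearExtension y := fun he => hlt.ne he
      exact lt_of_le_of_ne h1 h2

@[simp] theorem ofKey_carrier {κ : Type} [LinearOrder κ] (Y : Set α) (f : α → κ)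
    (hf : ∀ x ∈ Y, ∀ y ∈ Y, x < y → f x ≤ f y) : (ofKey Y f hf).carrier = Y := rfl

theorem ofKey_before {κ : Type} [LinearOrder κ] {Y : Set α} {f : α → κ}
    {hf : ∀ x ∈ Y, ∀ y ∈ Y, x < y → f x ≤ f y} {x y : α} (hx : x ∈ Y) (hy : y ∈ Y)
    (h : f x < f y) : (ofKey Y f hf).Before x y := ⟨hx, hy, Or.inl h⟩

/-- Transport of a partial linear extension along an order embedding. -/
def map (e : β ↪o α) (L : PLE β) : PLE α where
  carrier := e '' L.carrier
  lt x y := ∃ a b, a ∈ L.carrier ∧ b ∈ L.carrier ∧ e a = x ∧ e b = y ∧ L.lt a b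
  irrefl := by
    rintro x hx ⟨a, b, ha, hb, rfl, hba, hlt⟩
    have : b = a := e.injective hba
    subst this
    exact L.irrefl b ha hlt
  trans := by
    rintro x hx y hy z hz ⟨a, b, ha, hb, rfl, rfl, hlt⟩ ⟨b', c, hb', hc, hbb, rfl, hlt'⟩
    have : b' = b := e.injective hbb
    subst this
    exact ⟨a, c, ha, hc, rfl, rfl, L.trans a ha b' hb c hc hlt hlt'⟩
  total := by
    rintro _ ⟨a, ha, rfl⟩ _ ⟨b, hb, rfl⟩ hne
    rcases L.total a ha b hb (fun h => hne (h ▸ rfl)) with h | h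
    · exact Or.inl ⟨a, b, ha, hb, rfl, rfl, h⟩
    · exact Or.inr ⟨b, a, hb, ha, rfl, rfl, h⟩
  mono := by
    rintro _ ⟨a, ha, rfl⟩ _ ⟨b, hb, rfl⟩ hlt
    exact ⟨a, b, ha, hb, rfl, rfl, L.mono a ha b hb (e.lt_iff_lt.1 hlt)⟩

theorem map_before {e : β ↪o α} {L : PLE β} {a b : β} (h : L.Before a b) :
    (map e L).Before (e a) (e b) :=
  ⟨⟨a, h.1, rfl⟩, ⟨b, h.2.1, rfl⟩, ⟨a, b, h.1, h.2.1, rfl, rfl, h.2.2⟩⟩

/-- Restriction of a partial linear extension along an order embedding. -/
def comap (e : β ↪o α) (L : PLE α) : PLE β where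
  carrier := e ⁻¹' L.carrier
  lt x y := L.lt (e x) (e y)
  irrefl := fun x hx => L.irrefl (e x) hx
  trans := fun x hx y hy z hz => L.trans (e x) hx (e y) hy (e z) hz
  total := fun x hx y hy hne => L.total (e x) hx (e y) hy (fun h => hne (e.injective h))
  mono := fun x hx y hy h => L.mono (e x) hx (e y) hy (e.lt_iff_lt.2 h)

theorem comap_before {e : β ↪o α} {L : PLE α} {a b : β} :
    (comap e L).Before a b ↔ L.Before (e a) (e b) := Iff.rfl

end PLE

theorem HasLocalRealizer.mono {k l : ℕ} (h : HasLocalRealizer α k) (hkl : k ≤ l) :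
    HasLocalRealizer α l := by
  obtain ⟨ι, hι, L, hL, hf⟩ := h
  exact ⟨ι, hι, L, hL, fun x => (hf x).trans hkl⟩

theorem HasLocalRealizer.of_embedding {k : ℕ} (e : β ↪o α) (h : HasLocalRealizer α k) :
    HasLocalRealizer β k := by
  obtain ⟨ι, hι, L, hL, hf⟩ := h
  refine ⟨ι, hι, fun i => (L i).comap e, ⟨?_, ?_⟩, fun x => hf (e x)⟩
  · intro x y hxy
    exact hL.comp (e x) (e y) (e.lt_iff_lt.2 hxy)
  · intro x y hxy hyx
    exact hL.incomp (e x) (e y) (fun h => hxy (e.le_iff_le.1 h)) (fun h => hyx (e.le_iff_le.1 h))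

theorem exists_hasLocalRealizer (α : Type) [PartialOrder α] [Finite α] :
    ∃ k, HasLocalRealizer α k := by
  classical
  let ι : Type := {p : α × α // ¬ p.2 ≤ p.1}
  have key : ∀ p : ι, ∀ x ∈ ({p.1.1, p.1.2} : Set α), ∀ y ∈ ({p.1.1, p.1.2} : Set α), x < y →
      (if x = p.1.1 then (0 : ℕ) else 1) ≤ (if y = p.1.1 then (0 : ℕ) else 1) := by
    intro p x hx y hy hxy
    rcases hx with rfl | hx
    · simp
    · rw [Set.mem_singleton_iff] at hx
      rcases hy with rfl | hy
      · exact absurd (hx ▸ hxy.le) p.2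
      · rw [Set.mem_singleton_iff] at hy
        exact absurd (hx.trans hy.symm) hxy.ne
  let L : ι → PLE α := fun p => PLE.ofKey {p.1.1, p.1.2} (fun x => if x = p.1.1 then 0 else 1)
    (key p)
  have hb : ∀ x y : α, ¬ y ≤ x → ∃ i, (L i).Before x y := by
    intro x y hyx
    refine ⟨⟨(x, y), hyx⟩, ?_⟩
    apply PLE.ofKey_before
    · simp
    · simp
    · have : y ≠ x := fun h => hyx h.le
      simp [this]
  refine ⟨Nat.card ι, ι, inferInstance, L, ⟨?_, ?_⟩, ?_⟩
  · intro x y hxy
    exact hb x y (not_le_of_gt hxy)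
  · intro x y hxy hyx
    exact ⟨hb x y hyx, hb y x hxy⟩
  · intro x
    rw [freq, ← Set.ncard_univ]
    exact Set.ncard_le_ncard (Set.subset_univ _)

theorem ldim_le_iff {α : Type} [PartialOrder α] [Finite α] {k : ℕ} :
    ldim α ≤ k ↔ HasLocalRealizer α k := by
  constructor
  · intro h
    have hne : {k | HasLocalRealizer α k}.Nonempty := exists_hasLocalRealizer α
    exact (Nat.sInf_mem hne : HasLocalRealizer α (sInf _)).mono h
  · intro h
    exact Nat.sInf_le h

end Pool.Agent.Helper48.LD
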