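import Mathlib

/-!
# Local dimension of finite posets: definitions

Partial linear extensions, local realizers, local dimension, the comparability graph, and the
set of local dimensions of disconnected finite posets all of whose components have local
dimension at most `d`.
-/

namespace Pool.Agent.Helper48.LD

/-- A partial linear extension of the poset `α`: a subset `carrier` together with a strict linear
order `lt` on that subset which extends the strict order of `α` restricted to it. (The values of
`lt` outside `carrier` play no role.) -/
structure PLE (α : Type) [PartialOrder α] where
  carrier : Set α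
  lt : α → α → Prop
  irrefl : ∀ x ∈ carrier, ¬ lt x x
  trans : ∀ x ∈ carrier, ∀ y ∈ carrier, ∀ z ∈ carrier, lt x y → lt y z → lt x z
  total : ∀ x ∈ carrier, ∀ y ∈ carrier, x ≠ y → lt x y ∨ lt y x
  mono : ∀ x ∈ carrier, ∀ y ∈ carrier, x < y → lt x y

/-- `x` and `y` both belong to the partial linear extension `L`, and `x` comes before `y` in it. -/
def PLE.Before {α : Type} [PartialOrder α] (L : PLE α) (x y : α) : Prop :=
  x ∈ L.carrier ∧ y ∈ L.carrier ∧ L.lt x y

/-- A family `L` of partial linear extensions of `α` is a local realizer: every pair `x < y` occurs
in this order in some member, and every incomparable pair `x, y` occurs in both orders. -/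
structure IsLocalRealizer {α : Type} [PartialOrder α] {ι : Type} (L : ι → PLE α) : Prop where
  comp : ∀ x y : α, x < y → ∃ i, (L i).Before x y
  incomp : ∀ x y : α, ¬ x ≤ y → ¬ y ≤ x → (∃ i, (L i).Before x y) ∧ ∃ i, (L i).Before y x

/-- The frequency of `x` in the family `L`: the number of members whose ground set contains `x`. -/
noncomputable def freq {α : Type} [PartialOrder α] {ι : Type} (L : ι → PLE α) (x : α) : ℕ :=
  Set.ncard {i | x ∈ (L i).carrier}

/-- `α` has a (finite) local realizer in which every point has frequency at most `k`. -/
def HasLocalRealizer (α : Type) [PartialOrder α] (k : ℕ) : Prop :=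
  ∃ (ι : Type) (_ : Finite ι) (L : ι → PLE α), IsLocalRealizer L ∧ ∀ x, freq L x ≤ k

/-- The local dimension of `α`: the least `k` such that `α` has a local realizer in which every
point has frequency at most `k`. -/
noncomputable def ldim (α : Type) [PartialOrder α] : ℕ := sInf {k | HasLocalRealizer α k}

/-- The comparability graph of `α`: distinct comparable elements are adjacent. -/
def comparabilityGraph (α : Type) [PartialOrder α] : SimpleGraph α where
  Adj x y := x < y ∨ y < x
  symm := ⟨fun _ _ h => h.symm⟩
  loopless := ⟨fun x h => h.elim (lt_irrefl x) (lt_irrefl x)⟩

/-- `α` is disconnected: its comparability graph has at least two connected components. -/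
def Disconnected (α : Type) [PartialOrder α] : Prop :=
  ∃ C C' : (comparabilityGraph α).ConnectedComponent, C ≠ C'

/-- The set of all local dimensions of disconnected finite posets each of whose components (the
subposets induced on the vertex sets of the connected components of the comparability graph) has
local dimension at most `d`. The number `f(d)` of the problem is the maximum of this set. -/
def attained (d : ℕ) : Set ℕ :=
  {k | ∃ (α : Type) (_ : Fintype α) (_ : PartialOrder α), Disconnected α ∧
    (∀ C : (comparabilityGraph α).ConnectedComponent, ldim C.supp ≤ d) ∧ ldim α = k}

end Pool.Agent.Helper48.LD
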