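import Pool.Agent.Helper48.LD.Basic

/-!
The grid lemma: in a family of partial linear extensions in which every point `t c θ` has small
frequency, some grid point `z f` has its partners `t c (f c)` below it in distinct members.
-/

namespace Pool.Agent.Helper48.LD

variable {α : Type} [PartialOrder α] {ι : Type}

/-- The member `i` serves the cell `(x, y)` for the coordinates `c, b`. -/
def Served {k N : ℕ} (L : ι → PLE α) (z : (Fin k → Fin N) → α) (t : Fin k → Fin N → α)
    (c b : Fin k) (i : ι) (x y : Fin N) : Prop :=
  ∃ f : Fin k → Fin N, f c = x ∧ f b = y ∧ (L i).Before (t c x) (z f) ∧ (L i).Before (t b y) (z f)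

theorem served_mono {k N : ℕ} {L : ι → PLE α} {z : (Fin k → Fin N) → α} {t : Fin k → Fin N → α}
    (hlt : ∀ f c θ, f c < θ → z f < t c θ) {c b : Fin k} {i : ι} {x y x' y' : Fin N}
    (h : Served L z t c b i x y) (h' : Served L z t c b i x' y') (hx : x < x') (hy : y' < y) :
    False := by
  obtain ⟨f, hfc, hfb, h1, h2⟩ := h
  obtain ⟨f', hfc', hfb', h1', h2'⟩ := h'
  have a1 : (L i).Before (z f) (t c x') :=
    PLE.before_of_lt h1.2.1 h1'.1 (hlt f c x' (hfc ▸ hx))
  have a2 : (L i).Before (z f') (t b y) :=
    PLE.before_of_lt h1'.2.1 h2.1 (hlt f' b y (hfb' ▸ hy))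
  exact (a1.trans h1').asymm (a2.trans h2)

theorem card_fiber_le {k N : ℕ} {c b : Fin k} (hcb : c ≠ b) (x y : Fin N) :
    N * N * (Finset.univ.filter (fun f : Fin k → Fin N => f c = x ∧ f b = y)).card ≤ N ^ k := by
  classical
  have h1 : ((Finset.univ : Finset (Fin N × Fin N)) ×ˢ
      (Finset.univ.filter (fun f : Fin k → Fin N => f c = x ∧ f b = y))).card ≤
      (Finset.univ : Finset (Fin k → Fin N)).card := by
    apply Finset.card_le_card_of_injOn
      (fun p => Function.update (Function.update p.2 c p.1.1) b p.1.2)
    · intro p _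
      exact Finset.mem_coe.2 (Finset.mem_univ _)
    · rintro ⟨⟨u, v⟩, f⟩ hf ⟨⟨u', v'⟩, f'⟩ hf' he
      simp only [Finset.coe_product, Set.mem_prod, Finset.mem_coe, Finset.mem_univ, true_and,
        Finset.mem_filter] at hf hf'
      have hv : v = v' := by
        have := congrFun he b
        simpa using this
      have hu : u = u' := by
        have := congrFun he c
        simpa [hcb] using this
      have hff : f = f' := by
        funext j
        by_cases hjb : j = b
        · subst hjb; rw [hf.2, hf'.2]
        · by_cases hjc : j = c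
          · subst hjc; rw [hf.1, hf'.1]
          · have := congrFun he j
            simpa [hjb, hjc] using this
      rw [hv, hu, hff]
  rw [Finset.card_product, Finset.card_univ, Finset.card_univ, Fintype.card_prod,
    Fintype.card_fin, Fintype.card_fun, Fintype.card_fin, Fintype.card_fin] at h1
  exact h1

theorem grid [Finite ι] (L : ι → PLE α) {k N D : ℕ}
    (z : (Fin k → Fin N) → α) (t : Fin k → Fin N → α)
    (hlt : ∀ f c θ, f c < θ → z f < t c θ)
    (hrev : ∀ f c, ∃ i, (L i).Before (t c (f c)) (z f))
    (hfreq : ∀ c θ, freq L (t c θ) ≤ D)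
    (hN : k * k * (2 * D) < N) :
    ∃ f : Fin k → Fin N, ∃ M : Fin k → ι, Function.Injective M ∧
      ∀ c, (L (M c)).Before (t c (f c)) (z f) := by
  classical
  by_contra hcon
  have : Fintype ι := Fintype.ofFinite ι
  choose M hM using hrev
  have hnotinj : ∀ f, ∃ c b, c ≠ b ∧ M f c = M f b := by
    intro f
    by_contra h
    push Not at h
    exact hcon ⟨f, M f, fun c b hcb => by
      by_contra hne
      exact h c b hne hcb, hM f⟩
  have hNpos : 0 < N := by omega
  -- the incidences of a chain
  let S : Fin k → Finset (Fin N × ι) := fun c =>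
    Finset.univ.filter (fun p => t c p.1 ∈ (L p.2).carrier)
  have hS : ∀ c, (S c).card ≤ N * D := by
    intro c
    have hsub : S c ⊆ (Finset.univ : Finset (Fin N)).biUnion
        (fun x => (Finset.univ.filter (fun i => t c x ∈ (L i).carrier)).image (fun i => (x, i))) := by
      rintro ⟨x, i⟩ hp
      simp only [S, Finset.mem_filter, Finset.mem_univ, true_and] at hp
      simp only [Finset.mem_biUnion, Finset.mem_univ, true_and, Finset.mem_image,
        Finset.mem_filter]
      exact ⟨x, i, hp, rfl⟩
    refine (Finset.card_le_card hsub).trans (Finset.card_biUnion_le.trans ?_)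
    have h1 : ∀ x ∈ (Finset.univ : Finset (Fin N)),
        ((Finset.univ.filter (fun i => t c x ∈ (L i).carrier)).image (fun i => (x, i))).card ≤ D := by
      intro x _
      refine Finset.card_image_le.trans ?_
      have := hfreq c x
      rw [freq, Set.ncard_eq_toFinset_card'] at this
      refine le_trans (le_of_eq ?_) this
      congr 1
      ext i
      simp
    refine (Finset.sum_le_card_nsmul _ _ _ h1).trans ?_
    rw [Finset.card_univ, Fintype.card_fin, smul_eq_mul]
  -- bad cells
  let Bad : Fin k → Fin k → Finset (Fin N × Fin N) := fun c b =>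
    Finset.univ.filter (fun p => ∃ i, Served L z t c b i p.1 p.2)
  have hBad : ∀ c b, (Bad c b).card ≤ 2 * (N * D) := by
    intro c b
    have hch : ∀ p : Fin N × Fin N, ∃ i, p ∈ Bad c b → Served L z t c b i p.1 p.2 := by
      intro p
      by_cases hp : p ∈ Bad c b
      · simp only [Bad, Finset.mem_filter, Finset.mem_univ, true_and] at hp
        obtain ⟨i, hi⟩ := hp
        exact ⟨i, fun _ => hi⟩
      · obtain ⟨i, _⟩ : ∃ i : ι, True := by
          have f0 : Fin k → Fin N := fun _ => ⟨0, hNpos⟩
          obtain ⟨c, b, _, _⟩ := hnotinj f0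
          exact ⟨M f0 c, trivial⟩
        exact ⟨i, fun h => absurd h hp⟩
    choose I hI using hch
    let g : Fin N × Fin N → (Fin N × ι) ⊕ (Fin N × ι) := fun p =>
      if ∃ y', y' < p.2 ∧ Served L z t c b (I p) p.1 y' then Sum.inr (p.2, I p)
      else Sum.inl (p.1, I p)
    have h1 : (Bad c b).card ≤ ((S c).disjSum (S b)).card := by
      apply Finset.card_le_card_of_injOn g
      · intro p hp
        have hs := hI p hp
        obtain ⟨f, hfc, hfb, h1, h2⟩ := hs
        rw [Finset.mem_coe]
        simp only [g]
        split_ifs with hif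
        · rw [Finset.inr_mem_disjSum]
          simp only [S, Finset.mem_filter, Finset.mem_univ, true_and]
          exact h2.1
        · rw [Finset.inl_mem_disjSum]
          simp only [S, Finset.mem_filter, Finset.mem_univ, true_and]
          exact h1.1
      · rintro ⟨x, y⟩ hp ⟨x', y'⟩ hp' he
        have hs : Served L z t c b (I (x, y)) x y := hI _ hp
        have hs' : Served L z t c b (I (x', y')) x' y' := hI _ hp'
        simp only [g] at he
        split_ifs at he with h1 h2 h2
        · have he' := Sum.inr.inj he
          have hy : y = y' := (Prod.mk.inj he').1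
          have hi : I (x, y) = I (x', y') := (Prod.mk.inj he').2
          subst hy
          obtain ⟨y1, hy1, hs1⟩ := h1
          obtain ⟨y2, hy2, hs2⟩ := h2
          rcases lt_trichotomy x x' with h | h | h
          · rw [← hi] at hs2
            exact (served_mono hlt hs hs2 h hy2).elim
          · rw [h]
          · rw [← hi] at hs'
            exact (served_mono hlt hs' hs1 h hy1).elim
        · have he' := Sum.inl.inj he
          have hx : x = x' := (Prod.mk.inj he').1
          have hi : I (x, y) = I (x', y') := (Prod.mk.inj he').2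
          subst hx
          rcases lt_trichotomy y y' with h | h | h
          · exact (h2 ⟨y, h, hi ▸ hs⟩).elim
          · rw [h]
          · exact (h1 ⟨y', h, hi ▸ hs'⟩).elim
    rw [Finset.card_disjSum] at h1
    have := hS c
    have := hS b
    omega
  -- covering
  let Q : Finset (Fin k × Fin k) := Finset.univ.filter (fun q => q.1 ≠ q.2)
  have hcover : (Finset.univ : Finset (Fin k → Fin N)) ⊆ Q.biUnion (fun q =>
      (Bad q.1 q.2).biUnion (fun p => Finset.univ.filter
        (fun f : Fin k → Fin N => f q.1 = p.1 ∧ f q.2 = p.2))) := by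
    intro f _
    obtain ⟨c, b, hcb, he⟩ := hnotinj f
    simp only [Finset.mem_biUnion]
    refine ⟨(c, b), by simp [Q, hcb], (f c, f b), ?_, by simp⟩
    simp only [Bad, Finset.mem_filter, Finset.mem_univ, true_and]
    exact ⟨M f c, f, rfl, rfl, hM f c, he ▸ hM f b⟩
  have hcard : N * N * N ^ k ≤ k * k * (2 * (N * D) * N ^ k) := by
    have e1 : (Finset.univ : Finset (Fin k → Fin N)).card = N ^ k := by
      rw [Finset.card_univ, Fintype.card_fun, Fintype.card_fin, Fintype.card_fin]
    calc N * N * N ^ k = N * N * (Finset.univ : Finset (Fin k → Fin N)).card := by rw [e1]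
      _ ≤ N * N * ∑ q ∈ Q, ∑ p ∈ Bad q.1 q.2, (Finset.univ.filter
          (fun f : Fin k → Fin N => f q.1 = p.1 ∧ f q.2 = p.2)).card := by
        apply Nat.mul_le_mul_left
        refine (Finset.card_le_card hcover).trans (Finset.card_biUnion_le.trans ?_)
        exact Finset.sum_le_sum (fun q _ => Finset.card_biUnion_le)
      _ = ∑ q ∈ Q, ∑ p ∈ Bad q.1 q.2, N * N * (Finset.univ.filter
          (fun f : Fin k → Fin N => f q.1 = p.1 ∧ f q.2 = p.2)).card := by
        rw [Finset.mul_sum]
        exact Finset.sum_congr rfl (fun q _ => Finset.mul_sum _ _ _)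
      _ ≤ ∑ q ∈ Q, 2 * (N * D) * N ^ k := by
        apply Finset.sum_le_sum
        intro q hq
        have hq' : q.1 ≠ q.2 := by simpa [Q] using hq
        refine (Finset.sum_le_card_nsmul _ _ (N ^ k) (fun p _ => card_fiber_le hq' _ _)).trans ?_
        rw [smul_eq_mul]
        exact Nat.mul_le_mul_right _ (hBad _ _)
      _ ≤ k * k * (2 * (N * D) * N ^ k) := by
        rw [Finset.sum_const, smul_eq_mul]
        apply Nat.mul_le_mul_right
        have : Q.card ≤ (Finset.univ : Finset (Fin k × Fin k)).card :=
          Finset.card_le_card (Finset.filter_subset _ _)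
        rw [Finset.card_univ, Fintype.card_prod, Fintype.card_fin] at this
        exact this
  have hpos : 0 < N ^ k := Nat.pow_pos hNpos
  have h2 : N * N ≤ k * k * (2 * (N * D)) := by
    have : N * N * N ^ k ≤ (k * k * (2 * (N * D))) * N ^ k := by
      calc _ ≤ _ := hcard
        _ = _ := by ring
    exact Nat.le_of_mul_le_mul_right this hpos
  have h3 : N ≤ k * k * (2 * D) := by
    have : N * N ≤ (k * k * (2 * D)) * N := by
      calc _ ≤ _ := h2
        _ = _ := by ring
    exact Nat.le_of_mul_le_mul_right this hNpos
  omega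

end Pool.Agent.Helper48.LD
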