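import Pool.Agent.Helper48.LD.Zone

/-!
The zone poset in which distinct zones have disjoint label sets: local dimension at most `e + 2`
when every zone has `e ≥ 1` labels (two full linear extensions, and a private partial linear
extension for each label).
-/

namespace Pool.Agent.Helper48.LD

/-- The labelling with pairwise disjoint label sets. -/
def plab (J : Type) (e : ℕ) : J → Fin e → J × Fin e := fun j k => (j, k)

variable {J : Type} {e : ℕ} {N : ℕ}

theorem plab_le {j j' : J} {z : Fin e → Fin N} {k' : Fin e} {θ : Fin N} :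
    Zone.lo (plab J e) j z ≤ Zone.up (plab J e) j' k' θ ↔ (j = j' → z k' < θ) := by
  rw [Zone.lo_le_up]
  constructor
  · intro h hj
    subst hj
    rcases h k' rfl with h1 | ⟨_, _, h1⟩
    · exact absurd h1 (lt_irrefl _)
    · exact h1
  · intro h k hk
    have hj : j = j' := (Prod.mk.inj hk).1
    have hk' : k = k' := (Prod.mk.inj hk).2
    subst hk'
    exact Or.inr ⟨rfl, hj, h hj⟩

theorem plab_up_le {j j' : J} {k k' : Fin e} {θ θ' : Fin N} :
    Zone.up (plab J e) j k θ ≤ Zone.up (plab J e) j' k' θ' ↔ j = j' ∧ k = k' ∧ θ ≤ θ' := by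
  rw [Zone.up_le_up]
  constructor
  · rintro ⟨hl, h⟩
    have hj : j = j' := (Prod.mk.inj hl).1
    have hk' : k = k' := (Prod.mk.inj hl).2
    subst hk'
    rcases h with h | ⟨_, _, h⟩
    · exact absurd h (lt_irrefl _)
    · exact ⟨hj, rfl, h⟩
  · rintro ⟨rfl, rfl, h⟩
    exact ⟨rfl, Or.inr ⟨rfl, rfl, h⟩⟩

/-- Key of the two full linear extensions. -/
def fkey (gJ : J → ℤ) (m : ℤ) (g : J × Fin e → ℤ) (N : ℕ) (x : Zone (plab J e) N) : ℤ :=
  match (show ZPt J e N from x) with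
  | ZPt.lo j _ => gJ j
  | ZPt.up j k _ => m + g (j, k)

theorem fkey_mono (gJ : J → ℤ) (m : ℤ) (g : J × Fin e → ℤ) (h : ∀ j p, gJ j ≤ m + g p) :
    ∀ x ∈ (Set.univ : Set (Zone (plab J e) N)), ∀ y ∈ (Set.univ : Set (Zone (plab J e) N)),
      x < y → fkey gJ m g N x ≤ fkey gJ m g N y := by
  intro x _ y _ hlt
  rcases Zone.form x with ⟨i, z, rfl⟩ | ⟨i, k, θ, rfl⟩
  · rcases Zone.form y with ⟨i', z', rfl⟩ | ⟨i', k', θ', rfl⟩
    · obtain ⟨rfl, _⟩ := Zone.lo_le_lo.1 hlt.le
      exact le_refl _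
    · exact h _ _
  · rcases Zone.form y with ⟨i', z', rfl⟩ | ⟨i', k', θ', rfl⟩
    · exact absurd hlt.le Zone.not_up_le_lo
    · obtain ⟨rfl, rfl, _⟩ := plab_up_le.1 hlt.le
      exact le_refl _

/-- Ground set of the private partial linear extension `(j, k)`. -/
def pcar (N : ℕ) (p : J × Fin e) : Set (Zone (plab J e) N) := fun x =>
  match (show ZPt J e N from x) with
  | ZPt.lo j _ => j = p.1
  | ZPt.up j k _ => j = p.1 ∧ k = p.2

/-- Key of the private partial linear extension `(j, k)`. -/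
def pkey (N : ℕ) (p : J × Fin e) (x : Zone (plab J e) N) : ℕ :=
  match (show ZPt J e N from x) with
  | ZPt.lo _ z => 2 * (z p.2 : ℕ) + 1
  | ZPt.up _ _ θ => 2 * (θ : ℕ)

theorem pkey_mono (p : J × Fin e) :
    ∀ x ∈ pcar N p, ∀ y ∈ pcar N p, x < y → pkey N p x ≤ pkey N p y := by
  intro x hx y hy hlt
  rcases Zone.form x with ⟨i, z, rfl⟩ | ⟨i, k, θ, rfl⟩
  · rcases Zone.form y with ⟨i', z', rfl⟩ | ⟨i', k', θ', rfl⟩
    · obtain ⟨rfl, hz⟩ := Zone.lo_le_lo.1 hlt.le
      have : (z p.2 : ℕ) ≤ z' p.2 := hz p.2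
      show 2 * (z p.2 : ℕ) + 1 ≤ 2 * (z' p.2 : ℕ) + 1
      omega
    · have hx1 : i = p.1 := hx
      have hy1 : i' = p.1 ∧ k' = p.2 := hy
      have := plab_le.1 hlt.le (hx1.trans hy1.1.symm)
      rw [hy1.2] at this
      have : (z p.2 : ℕ) < θ' := this
      show 2 * (z p.2 : ℕ) + 1 ≤ 2 * (θ' : ℕ)
      omega
  · rcases Zone.form y with ⟨i', z', rfl⟩ | ⟨i', k', θ', rfl⟩
    · exact absurd hlt.le Zone.not_up_le_lo
    · obtain ⟨rfl, rfl, h⟩ := plab_up_le.1 hlt.le
      have : (θ : ℕ) ≤ θ' := h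
      show 2 * (θ : ℕ) ≤ 2 * (θ' : ℕ)
      omega

theorem plab_hasLocalRealizer [Finite J] (he : 1 ≤ e) (N : ℕ) :
    HasLocalRealizer (Zone (plab J e) N) (e + 2) := by
  classical
  obtain ⟨m, ⟨gJ⟩⟩ := Finite.exists_equiv_fin J
  obtain ⟨m', ⟨g⟩⟩ := Finite.exists_equiv_fin (J × Fin e)
  let F : Bool → PLE (Zone (plab J e) N) := fun b =>
    if b then PLE.ofKey Set.univ (fkey (fun j => ((gJ j : ℕ) : ℤ)) (m : ℤ)
        (fun p => ((g p : ℕ) : ℤ)) N)
        (fkey_mono _ _ _ (fun j p => by have := (gJ j).2; omega))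
      else PLE.ofKey Set.univ (fkey (fun j => -((gJ j : ℕ) : ℤ)) (m' : ℤ)
        (fun p => -((g p : ℕ) : ℤ)) N)
        (fkey_mono _ _ _ (fun j p => by have := (g p).2; omega))
  let M : Bool ⊕ (J × Fin e) → PLE (Zone (plab J e) N) := Sum.elim F
    (fun p => PLE.ofKey (pcar N p) (pkey N p) (pkey_mono p))
  have hMt : ∀ x y, fkey (fun j => ((gJ j : ℕ) : ℤ)) (m : ℤ) (fun p => ((g p : ℕ) : ℤ)) N x <
      fkey (fun j => ((gJ j : ℕ) : ℤ)) (m : ℤ) (fun p => ((g p : ℕ) : ℤ)) N y →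
      (M (Sum.inl true)).Before x y := fun x y h =>
    PLE.ofKey_before (hf := fkey_mono _ _ _ (fun j p => by have := (gJ j).2; omega))
      (Set.mem_univ _) (Set.mem_univ _) h
  have hMf : ∀ x y, fkey (fun j => -((gJ j : ℕ) : ℤ)) (m' : ℤ) (fun p => -((g p : ℕ) : ℤ)) N x <
      fkey (fun j => -((gJ j : ℕ) : ℤ)) (m' : ℤ) (fun p => -((g p : ℕ) : ℤ)) N y →
      (M (Sum.inl false)).Before x y := fun x y h =>
    PLE.ofKey_before (hf := fkey_mono _ _ _ (fun j p => by have := (g p).2; omega))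
      (Set.mem_univ _) (Set.mem_univ _) h
  have hMp : ∀ p x y, x ∈ pcar N p → y ∈ pcar N p → pkey N p x < pkey N p y →
      (M (Sum.inr p)).Before x y := fun p x y hx hy h =>
    PLE.ofKey_before (hf := pkey_mono p) hx hy h
  have hlu : ∀ j z j' k' θ, (M (Sum.inl true)).Before (Zone.lo (plab J e) j z)
      (Zone.up (plab J e) j' k' θ) := by
    intro j z j' k' θ
    apply hMt
    show ((gJ j : ℕ) : ℤ) < (m : ℤ) + ((g (j', k') : ℕ) : ℤ)
    have := (gJ j).2
    omega
  have hul : ∀ j z k θ, ¬ Zone.lo (plab J e) j z ≤ Zone.up (plab J e) j k θ →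
      (M (Sum.inr (j, k))).Before (Zone.up (plab J e) j k θ) (Zone.lo (plab J e) j z) := by
    intro j z k θ h
    rw [plab_le] at h
    push Not at h
    apply hMp
    · exact ⟨rfl, rfl⟩
    · exact rfl
    · show 2 * (θ : ℕ) < 2 * (z k : ℕ) + 1
      have : (θ : ℕ) ≤ z k := h.2
      omega
  refine ⟨Bool ⊕ (J × Fin e), inferInstance, M, ⟨?_, ?_⟩, ?_⟩
  · intro x y hlt
    exact ⟨Sum.inl true, PLE.before_of_lt (Set.mem_univ _) (Set.mem_univ _) hlt⟩
  · intro x y hxy hyx
    rcases Zone.form x with ⟨i, z, rfl⟩ | ⟨i, k, θ, rfl⟩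
    · rcases Zone.form y with ⟨i', z', rfl⟩ | ⟨i', k', θ', rfl⟩
      · by_cases hii : i = i'
        · subst hii
          have key : ∀ u v : Fin e → Fin N, ¬ Zone.lo (plab J e) i u ≤ Zone.lo (plab J e) i v →
              ∃ c, (M c).Before (Zone.lo (plab J e) i v) (Zone.lo (plab J e) i u) := by
            intro u v huv
            have h1 : ¬ u ≤ v := fun h => huv (Zone.lo_le_lo.2 ⟨rfl, h⟩)
            obtain ⟨k, hk⟩ : ∃ k, ¬ u k ≤ v k := by
              by_contra hcon
              push Not at hcon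
              exact h1 (fun k => hcon k)
            refine ⟨Sum.inr (i, k), hMp _ _ _ rfl rfl ?_⟩
            show 2 * (v k : ℕ) + 1 < 2 * (u k : ℕ) + 1
            have : (v k : ℕ) < u k := lt_of_not_ge hk
            omega
          exact ⟨key z' z hyx, key z z' hxy⟩
        · have hne : (gJ i : ℕ) ≠ gJ i' := fun h => hii (gJ.injective (Fin.ext h))
          rcases lt_or_gt_of_ne hne with h | h
          · refine ⟨⟨Sum.inl true, hMt _ _ ?_⟩, ⟨Sum.inl false, hMf _ _ ?_⟩⟩
            · show ((gJ i : ℕ) : ℤ) < ((gJ i' : ℕ) : ℤ)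
              omega
            · show -((gJ i' : ℕ) : ℤ) < -((gJ i : ℕ) : ℤ)
              omega
          · refine ⟨⟨Sum.inl false, hMf _ _ ?_⟩, ⟨Sum.inl true, hMt _ _ ?_⟩⟩
            · show -((gJ i : ℕ) : ℤ) < -((gJ i' : ℕ) : ℤ)
              omega
            · show ((gJ i' : ℕ) : ℤ) < ((gJ i : ℕ) : ℤ)
              omega
      · refine ⟨⟨_, hlu i z i' k' θ'⟩, ?_⟩
        have hii : i = i' := by
          by_contra hne
          exact hxy (plab_le.2 (fun h => absurd h hne))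
        subst hii
        exact ⟨_, hul i z k' θ' hxy⟩
    · rcases Zone.form y with ⟨i', z', rfl⟩ | ⟨i', k', θ', rfl⟩
      · refine ⟨?_, ⟨_, hlu i' z' i k θ⟩⟩
        have hii : i' = i := by
          by_contra hne
          exact hyx (plab_le.2 (fun h => absurd h hne))
        subst hii
        exact ⟨_, hul i' z' k θ hyx⟩
      · have hne : (i, k) ≠ (i', k') := by
          intro h
          obtain ⟨rfl, rfl⟩ := Prod.mk.inj h
          rcases le_total θ θ' with h | h
          · exact hxy (plab_up_le.2 ⟨rfl, rfl, h⟩)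
          · exact hyx (plab_up_le.2 ⟨rfl, rfl, h⟩)
        have hne' : (g (i, k) : ℕ) ≠ g (i', k') := fun h => hne (g.injective (Fin.ext h))
        rcases lt_or_gt_of_ne hne' with h | h
        · refine ⟨⟨Sum.inl true, hMt _ _ ?_⟩, ⟨Sum.inl false, hMf _ _ ?_⟩⟩
          · show (m : ℤ) + ((g (i, k) : ℕ) : ℤ) < (m : ℤ) + ((g (i', k') : ℕ) : ℤ)
            omega
          · show (m' : ℤ) + -((g (i', k') : ℕ) : ℤ) < (m' : ℤ) + -((g (i, k) : ℕ) : ℤ)
            omega
        · refine ⟨⟨Sum.inl false, hMf _ _ ?_⟩, ⟨Sum.inl true, hMt _ _ ?_⟩⟩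
          · show (m' : ℤ) + -((g (i, k) : ℕ) : ℤ) < (m' : ℤ) + -((g (i', k') : ℕ) : ℤ)
            omega
          · show (m : ℤ) + ((g (i', k') : ℕ) : ℤ) < (m : ℤ) + ((g (i, k) : ℕ) : ℤ)
            omega
  · have hbool : (Set.univ : Set Bool).ncard ≤ 2 := by
      rw [Set.ncard_univ, Nat.card_eq_fintype_card, Fintype.card_bool]
    intro x
    rcases Zone.form x with ⟨i, z, rfl⟩ | ⟨i, k, θ, rfl⟩
    · have hsub : {c | Zone.lo (plab J e) i z ∈ (M c).carrier} ⊆
          (Sum.inl '' (Set.univ : Set Bool)) ∪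
            ((fun k => Sum.inr (i, k)) '' (Set.univ : Set (Fin e))) := by
        rintro (b | ⟨j, k⟩) hc
        · exact Or.inl ⟨b, Set.mem_univ _, rfl⟩
        · have : i = j := hc
          subst this
          exact Or.inr ⟨k, Set.mem_univ _, rfl⟩
      calc freq M _ ≤ _ := Set.ncard_le_ncard hsub
        _ ≤ _ + _ := Set.ncard_union_le _ _
        _ ≤ 2 + e := by
          refine Nat.add_le_add ((Set.ncard_image_le (Set.toFinite _)).trans hbool) ?_
          refine (Set.ncard_image_le (Set.toFinite _)).trans ?_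
          rw [Set.ncard_univ, Nat.card_eq_fintype_card, Fintype.card_fin]
        _ = e + 2 := by ring
    · have hsub : {c | Zone.up (plab J e) i k θ ∈ (M c).carrier} ⊆
          (Sum.inl '' (Set.univ : Set Bool)) ∪ {Sum.inr (i, k)} := by
        rintro (b | ⟨j, l⟩) hc
        · exact Or.inl ⟨b, Set.mem_univ _, rfl⟩
        · have : i = j ∧ k = l := hc
          obtain ⟨rfl, rfl⟩ := this
          exact Or.inr rfl
      calc freq M _ ≤ _ := Set.ncard_le_ncard hsub
        _ ≤ _ + _ := Set.ncard_union_le _ _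
        _ ≤ 2 + 1 := by
          refine Nat.add_le_add ((Set.ncard_image_le (Set.toFinite _)).trans hbool) ?_
          rw [Set.ncard_singleton]
        _ ≤ e + 2 := by omega

end Pool.Agent.Helper48.LD
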