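import Pool.Agent.Helper48.LD.Grid
import Pool.Agent.Helper48.LD.Real2

/-!
The lower bound: in a disjoint union of a zone poset and a zone poset with private labels.
-/

namespace Pool.Agent.Helper48.LD

open Set

variable {I Λ J : Type} {d e N N' : ℕ} {lab : I → Fin d → Λ}

theorem lo_lt_up_self (hinj : ∀ i, Function.Injective (lab i)) (i : I) (f : Fin d → Fin N)
    (c : Fin d) (θ : Fin N) (h : f c < θ) : Zone.lo lab i f < Zone.up lab i c θ := by
  apply Zone.lo_lt_up
  intro k hk
  have := hinj i hk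
  subst this
  exact Or.inr ⟨rfl, rfl, h⟩

theorem not_lo_le_up_self (i : I) (f : Fin d → Fin N) (c : Fin d) :
    ¬ Zone.lo lab i f ≤ Zone.up lab i c (f c) := by
  intro h
  rcases Zone.lo_le_up.1 h c rfl with h1 | ⟨_, _, h1⟩
  · exact lt_irrefl _ h1
  · exact lt_irrefl _ h1

theorem lower_core [Finite I] [Finite J] {D : ℕ} (hinj : ∀ i, Function.Injective (lab i))
    (hN : d * d * (2 * D) < N) (hN' : e * e * (2 * D) < N')
    (hJ : Nat.card I * D < Nat.card J)
    {ι : Type} [Finite ι] (L : ι → PLE (Zone lab N ⊕ Zone (plab J e) N'))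
    (hL : IsLocalRealizer L) (hf : ∀ x, freq L x ≤ D) :
    ∃ (F : Set ι) (M : I → Fin d → ι) (V : I → Set ι),
      F.ncard + e ≤ D ∧ (∀ i, Function.Injective (M i)) ∧ (∀ i, (V i).ncard ≤ D) ∧
      (∀ i k, M i k ∈ V i) ∧
      (∀ i, ∃ m₁ m₂, m₁ ≠ m₂ ∧ m₁ ∈ F ∧ m₂ ∈ F ∧ m₁ ∈ V i ∧ m₂ ∈ V i) ∧
      (∀ m, (∃ i, m ∈ range (M i)) → ∃ c : Λ, ∀ i, m ∈ range (M i) → ∃ k, lab i k = c) := by
  classical
  -- servers of the first component
  have hA : ∀ i : I, ∃ f : Fin d → Fin N, ∃ M : Fin d → ι, Function.Injective M ∧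
      ∀ c, (L (M c)).Before (Sum.inl (Zone.up lab i c (f c))) (Sum.inl (Zone.lo lab i f)) := by
    intro i
    refine grid L (fun f => Sum.inl (Zone.lo lab i f)) (fun c θ => Sum.inl (Zone.up lab i c θ))
      ?_ ?_ (fun c θ => hf _) hN
    · intro f c θ h
      exact Sum.inl_lt_inl_iff.2 (lo_lt_up_self hinj i f c θ h)
    · intro f c
      refine (hL.incomp _ _ ?_ ?_).1
      · rw [Sum.inl_le_inl_iff]; exact Zone.not_up_le_lo
      · rw [Sum.inl_le_inl_iff]; exact not_lo_le_up_self i f c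
  choose f M hMinj hM using hA
  have hB : ∀ j : J, ∃ f : Fin e → Fin N', ∃ M : Fin e → ι, Function.Injective M ∧
      ∀ c, (L (M c)).Before (Sum.inr (Zone.up (plab J e) j c (f c)))
        (Sum.inr (Zone.lo (plab J e) j f)) := by
    intro j
    refine grid L (fun f => Sum.inr (Zone.lo (plab J e) j f))
      (fun c θ => Sum.inr (Zone.up (plab J e) j c θ)) ?_ ?_ (fun c θ => hf _) hN'
    · intro f c θ h
      exact Sum.inr_lt_inr_iff.2
        (lo_lt_up_self (fun j k k' h => (Prod.mk.inj h).2) j f c θ h)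
    · intro f c
      refine (hL.incomp _ _ ?_ ?_).1
      · rw [Sum.inr_le_inr_iff]; exact Zone.not_up_le_lo
      · rw [Sum.inr_le_inr_iff]; exact not_lo_le_up_self j f c
  choose f' M' hMinj' hM' using hB
  let z : I → Zone lab N ⊕ Zone (plab J e) N' := fun i => Sum.inl (Zone.lo lab i (f i))
  let v : J → Zone lab N ⊕ Zone (plab J e) N' := fun j => Sum.inr (Zone.lo (plab J e) j (f' j))
  have hMz : ∀ i c, (L (M i c)).Before (Sum.inl (Zone.up lab i c (f i c))) (z i) := hM
  have hMv : ∀ j c, (L (M' j c)).Before (Sum.inr (Zone.up (plab J e) j c (f' j c))) (v j) := hM'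
  let V : I → Set ι := fun i => {m | z i ∈ (L m).carrier}
  have hV : ∀ i, (V i).ncard ≤ D := fun i => hf (z i)
  -- choice of the copy
  obtain ⟨j, hj⟩ : ∃ j : J, ∀ i k, M' j k ∉ V i := by
    by_contra hcon
    push Not at hcon
    choose a k hak using hcon
    have hinj' : Function.Injective (fun j => M' j (k j)) := by
      intro j j' (he : M' j (k j) = M' j' (k j'))
      by_contra hne
      have h1 := hMv j (k j)
      have h2 := hMv j' (k j')
      rw [← he] at h2
      have h3 : (L (M' j (k j))).Before (v j)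
          (Sum.inr (Zone.up (plab J e) j' (k j') (f' j' (k j')))) := by
        refine PLE.before_of_lt h1.2.1 h2.1 (Sum.inr_lt_inr_iff.2 ?_)
        exact lt_of_le_of_ne (plab_le.2 (fun h => absurd h hne)) Zone.lo_ne_up
      have h4 : (L (M' j (k j))).Before (v j')
          (Sum.inr (Zone.up (plab J e) j (k j) (f' j (k j)))) := by
        refine PLE.before_of_lt h2.2.1 h1.1 (Sum.inr_lt_inr_iff.2 ?_)
        exact lt_of_le_of_ne (plab_le.2 (fun h => absurd h.symm hne)) Zone.lo_ne_up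
      exact ((h3.trans h2).asymm (h4.trans h1))
    have hsub : range (fun j => M' j (k j)) ⊆ ⋃ i, V i := by
      rintro _ ⟨j, rfl⟩
      exact mem_iUnion.2 ⟨a j, hak j⟩
    have h1 : Nat.card J = (range (fun j => M' j (k j))).ncard := by
      rw [← image_univ, ncard_image_of_injective _ hinj', ncard_univ]
    have h2 : (⋃ i, V i).ncard ≤ Nat.card I * D := by
      have : Fintype I := Fintype.ofFinite I
      have h3 : (⋃ i, V i) = ⋃ i ∈ (Finset.univ : Finset I), V i := by simp
      rw [h3]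
      refine (Finset.set_ncard_biUnion_le _ _).trans ?_
      refine (Finset.sum_le_card_nsmul _ _ D (fun i _ => hV i)).trans ?_
      rw [Finset.card_univ, Nat.card_eq_fintype_card, smul_eq_mul]
    have h3 := ncard_le_ncard hsub
    omega
  let F : Set ι := {m | v j ∈ (L m).carrier} \ range (M' j)
  refine ⟨F, M, V, ?_, hMinj, hV, fun i k => (hMz i k).2.1, ?_, ?_⟩
  · have h1 : range (M' j) ⊆ {m | v j ∈ (L m).carrier} := by
      rintro _ ⟨k, rfl⟩
      exact (hMv j k).2.1
    have h2 : (range (M' j)).ncard = e := by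
      rw [← image_univ, ncard_image_of_injective _ (hMinj' j), ncard_univ,
        Nat.card_eq_fintype_card, Fintype.card_fin]
    have h3 := ncard_sdiff_add_ncard_of_subset h1 (toFinite _)
    have h4 : ({m | v j ∈ (L m).carrier} : Set ι).ncard ≤ D := hf (v j)
    show ({m | v j ∈ (L m).carrier} \ range (M' j)).ncard + e ≤ D
    omega
  · intro i
    obtain ⟨⟨m₁, h1⟩, ⟨m₂, h2⟩⟩ := hL.incomp (z i) (v j) Sum.not_inl_le_inr Sum.not_inr_le_inl
    refine ⟨m₁, m₂, ?_, ⟨h1.2.1, ?_⟩, ⟨h2.1, ?_⟩, h1.1, h2.2.1⟩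
    · rintro rfl
      exact h1.asymm h2
    · rintro ⟨k, rfl⟩
      exact hj i k h1.1
    · rintro ⟨k, rfl⟩
      exact hj i k h2.2.1
  · rintro m ⟨i0, hi0⟩
    have hwf : WellFounded (fun i i' => (L m).Before (z i) (z i')) := by
      have : IsTrans I (fun i i' => (L m).Before (z i) (z i')) := ⟨fun _ _ _ h h' => h.trans h'⟩
      have : Std.Irrefl (fun i i' => (L m).Before (z i) (z i')) := ⟨fun _ h => h.asymm h⟩
      exact Finite.wellFounded_of_trans_of_irrefl _
    obtain ⟨s, ⟨k, hk⟩, hmin⟩ := hwf.has_min {i | m ∈ range (M i)} ⟨i0, hi0⟩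
    have h1 := hMz s k
    rw [hk] at h1
    refine ⟨lab s k, ?_⟩
    rintro i hi
    by_contra hcon
    push Not at hcon
    obtain ⟨l, hl⟩ := hi
    have h2 := hMz i l
    rw [hl] at h2
    have h3 : (L m).Before (z i) (Sum.inl (Zone.up lab s k (f s k))) := by
      refine PLE.before_of_lt h2.2.1 h1.1 (Sum.inl_lt_inl_iff.2 (Zone.lo_lt_up ?_))
      intro k' hk'
      exact absurd hk' (hcon k')
    exact hmin i ⟨l, hl⟩ (h3.trans h1)

/-- No local realizer of frequency `d + 1` if no three labels meet all zones. -/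
theorem lower_one [Finite I] [Finite J] [Nonempty Λ] (hd : 2 ≤ d)
    (hinj : ∀ i, Function.Injective (lab i))
    (hτ : ∀ S : Finset Λ, S.card ≤ 3 → ∃ i, ∀ k, lab i k ∉ S)
    (hN : d * d * (2 * (d + 1)) < N) (hN' : (d - 2) * (d - 2) * (2 * (d + 1)) < N')
    (hJ : Nat.card I * (d + 1) < Nat.card J) :
    ¬ HasLocalRealizer (Zone lab N ⊕ Zone (plab J (d - 2)) N') (d + 1) := by
  classical
  rintro ⟨ι, hι, L, hL, hf⟩
  obtain ⟨F, M, V, hF, hMinj, hV, hMV, hm, hc⟩ := lower_core hinj hN hN' hJ L hL hf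
  have hF3 : F.ncard ≤ 3 := by omega
  have hserve : ∀ i, ∃ m ∈ F, m ∈ range (M i) := by
    intro i
    obtain ⟨m₁, m₂, hne, h1, h2, h1', h2'⟩ := hm i
    by_contra hcon
    push Not at hcon
    have hsub : insert m₁ (insert m₂ (range (M i))) ⊆ V i := by
      intro m hmem
      rcases hmem with rfl | rfl | ⟨k, rfl⟩
      · exact h1'
      · exact h2'
      · exact hMV i k
    have h3 := ncard_le_ncard hsub
    rw [ncard_insert_of_notMem (by
        intro hmem
        rcases hmem with h | h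
        · exact hne h
        · exact hcon m₁ h1 h), ncard_insert_of_notMem (hcon m₂ h2), ← image_univ,
      ncard_image_of_injective _ (hMinj i), ncard_univ, Nat.card_eq_fintype_card,
      Fintype.card_fin] at h3
    have := hV i
    omega
  have hc' : ∀ m, ∃ c : Λ, (∃ i, m ∈ range (M i)) →
      ∀ i, m ∈ range (M i) → ∃ k, lab i k = c := by
    intro m
    by_cases h : ∃ i, m ∈ range (M i)
    · obtain ⟨c, hc1⟩ := hc m h
      exact ⟨c, fun _ => hc1⟩
    · exact ⟨Classical.arbitrary Λ, fun h' => absurd h' h⟩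
  choose g hg using hc'
  have hFfin : F.Finite := toFinite F
  obtain ⟨i, hi⟩ := hτ (hFfin.toFinset.image g) (Finset.card_image_le.trans (by
    rw [← ncard_eq_toFinset_card F hFfin]; exact hF3))
  obtain ⟨m, hmF, hmr⟩ := hserve i
  obtain ⟨k, hk⟩ := hg m ⟨i, hmr⟩ i hmr
  exact hi k (hk ▸ Finset.mem_image_of_mem g (hFfin.mem_toFinset.2 hmF))

/-- No local realizer of frequency `d` if no label belongs to all zones. -/
theorem lower_zero [Finite I] [Finite J] [Nonempty I] (hd : 2 ≤ d)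
    (hinj : ∀ i, Function.Injective (lab i))
    (hτ : ∀ c : Λ, ∃ i, ∀ k, lab i k ≠ c)
    (hN : d * d * (2 * d) < N) (hN' : (d - 2) * (d - 2) * (2 * d) < N')
    (hJ : Nat.card I * d < Nat.card J) :
    ¬ HasLocalRealizer (Zone lab N ⊕ Zone (plab J (d - 2)) N') d := by
  classical
  rintro ⟨ι, hι, L, hL, hf⟩
  obtain ⟨F, M, V, hF, hMinj, hV, hMV, hm, hc⟩ := lower_core hinj hN hN' hJ L hL hf
  have hF2 : F.ncard ≤ 2 := by omega
  have hVM : ∀ i, V i = range (M i) := by
    intro i
    symm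
    refine eq_of_subset_of_ncard_le ?_ ?_ (toFinite _)
    · rintro _ ⟨k, rfl⟩
      exact hMV i k
    · rw [← image_univ (f := M i), ncard_image_of_injective _ (hMinj i), ncard_univ,
        Nat.card_eq_fintype_card, Fintype.card_fin]
      exact hV i
  obtain ⟨i0⟩ := (inferInstance : Nonempty I)
  obtain ⟨m, _, _, hmF, _⟩ := hm i0
  have hall : ∀ i, m ∈ range (M i) := by
    intro i
    obtain ⟨m₁, m₂, hne, h1, h2, h1', h2'⟩ := hm i
    have hsub : ({m₁, m₂} : Set ι) ⊆ F := by
      rintro x (rfl | rfl)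
      · exact h1
      · exact h2
    have heq : ({m₁, m₂} : Set ι) = F := by
      refine eq_of_subset_of_ncard_le hsub ?_ (toFinite _)
      rw [ncard_pair hne]
      exact hF2
    rw [← heq] at hmF
    rw [← hVM]
    rcases hmF with rfl | rfl
    · exact h1'
    · exact h2'
  obtain ⟨c, hc1⟩ := hc m ⟨i0, hall i0⟩
  obtain ⟨i, hi⟩ := hτ c
  obtain ⟨k, hk⟩ := hc1 i (hall i)
  exact hi k hk

end Pool.Agent.Helper48.LD
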