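import Pool.Agent.Helper48.LD.Zone

/-!
A zone poset with `d` labels per zone in which any two zones have two common labels on which the
two zones are ordered oppositely has local dimension at most `d`.
-/

namespace Pool.Agent.Helper48.LD

variable {I Λ : Type} {d : ℕ} {lab : I → Fin d → Λ} {N : ℕ}

/-- Every used label has a first zone. -/
theorem exists_first [Nonempty I] (lab : I → Fin d → Λ) (b : Λ) :
    ∃ i0 : I, (∃ i k, lab i k = b) →
      ∃ k0, lab i0 k0 = b ∧ ∀ i' k', lab i' k' = b → k0 ≤ k' := by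
  classical
  by_cases hb : ∃ i k, lab i k = b
  · let S : Finset (Fin d) := Finset.univ.filter (fun k => ∃ i, lab i k = b)
    have hS : S.Nonempty := by
      obtain ⟨i, k, hk⟩ := hb
      exact ⟨k, by simp only [S, Finset.mem_filter, Finset.mem_univ, true_and]; exact ⟨i, hk⟩⟩
    obtain ⟨k0, hk0, hmin⟩ := S.exists_min_image id hS
    have h1 : ∃ i, lab i k0 = b := by
      simpa only [S, Finset.mem_filter, Finset.mem_univ, true_and] using hk0
    obtain ⟨i0, hi0⟩ := h1
    refine ⟨i0, fun _ => ⟨k0, hi0, fun i' k' h' => hmin k' ?_⟩⟩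
    simp only [S, Finset.mem_filter, Finset.mem_univ, true_and]
    exact ⟨i', h'⟩
  · exact ⟨Classical.arbitrary I, fun h => absurd h hb⟩

section

variable (lab) (σ : Λ → I)

/-- The ground set of the partial linear extension of the label `c`. -/
def zcar (N : ℕ) (c : Λ) : Set (Zone lab N) := fun x =>
  match (show ZPt I d N from x) with
  | ZPt.lo i _ => ∃ k, lab i k = c
  | ZPt.up i k _ => ∃ k', lab (σ (lab i k)) k' = c

open Classical in
/-- The key of the partial linear extension of the label `c`. -/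
noncomputable def zkey (N : ℕ) (c : Λ) (x : Zone lab N) : ℕ :=
  match (show ZPt I d N from x) with
  | ZPt.lo i z =>
      if h : ∃ k, lab i k = c then 2 * N * (h.choose : ℕ) + 2 * (z h.choose : ℕ) + 1 else 0
  | ZPt.up i k θ => if lab i k = c then 2 * N * (k : ℕ) + 2 * (θ : ℕ) else
      2 * N * d + (if h : ∃ k', lab (σ (lab i k)) k' = c then (h.choose : ℕ) else 0)

variable {lab} {σ}

open Classical in
theorem zkey_lo (hinj : ∀ i, Function.Injective (lab i)) {c : Λ} {i : I} {k : Fin d}
    (z : Fin d → Fin N) (h : lab i k = c) :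
    zkey lab σ N c (Zone.lo lab i z) = 2 * N * (k : ℕ) + 2 * (z k : ℕ) + 1 := by
  have hex : ∃ k, lab i k = c := ⟨k, h⟩
  have hc : hex.choose = k := hinj i (hex.choose_spec.trans h.symm)
  show (if h : ∃ k, lab i k = c then 2 * N * (h.choose : ℕ) + 2 * (z h.choose : ℕ) + 1 else 0) = _
  rw [dif_pos hex, hc]

open Classical in
theorem zkey_up_same {c : Λ} {i : I} {k : Fin d} (θ : Fin N) (h : lab i k = c) :
    zkey lab σ N c (Zone.up lab i k θ) = 2 * N * (k : ℕ) + 2 * (θ : ℕ) := by
  show (if lab i k = c then 2 * N * (k : ℕ) + 2 * (θ : ℕ) else _) = _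
  rw [if_pos h]

open Classical in
theorem zkey_up_other (hinj : ∀ i, Function.Injective (lab i)) {c : Λ} {i : I} {k k' : Fin d}
    (θ : Fin N) (h : lab i k ≠ c) (h' : lab (σ (lab i k)) k' = c) :
    zkey lab σ N c (Zone.up lab i k θ) = 2 * N * d + k' := by
  have hex : ∃ k', lab (σ (lab i k)) k' = c := ⟨k', h'⟩
  have hc : hex.choose = k' := hinj _ (hex.choose_spec.trans h'.symm)
  show (if lab i k = c then 2 * N * (k : ℕ) + 2 * (θ : ℕ) else
      2 * N * d + (if h : ∃ k', lab (σ (lab i k)) k' = c then (h.choose : ℕ) else 0)) = _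
  rw [if_neg h, dif_pos hex, hc]

theorem aux_lt {N d a x : ℕ} (hx : x < N) (ha : a < d) :
    2 * N * a + 2 * x + 1 < 2 * N * d := by
  have : 2 * N * (a + 1) ≤ 2 * N * d := Nat.mul_le_mul_left _ ha
  have h2 : 2 * N * (a + 1) = 2 * N * a + 2 * N := by ring
  omega

theorem zkey_mono (hinj : ∀ i, Function.Injective (lab i)) (c : Λ) :
    ∀ x ∈ zcar lab σ N c, ∀ y ∈ zcar lab σ N c, x < y → zkey lab σ N c x ≤ zkey lab σ N c y := by
  intro x
  rcases Zone.form x with ⟨i, z, rfl⟩ | ⟨i, k, θ, rfl⟩
  · intro hx y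
    obtain ⟨k, hk⟩ := (hx : ∃ k, lab i k = c)
    rcases Zone.form y with ⟨i', z', rfl⟩ | ⟨i', k', θ', rfl⟩
    · intro hy hlt
      obtain ⟨rfl, hz⟩ := Zone.lo_le_lo.1 hlt.le
      rw [zkey_lo hinj z hk, zkey_lo hinj z' hk]
      have := hz k
      have : (z k : ℕ) ≤ (z' k : ℕ) := this
      omega
    · intro hy hlt
      obtain ⟨k2, hk2⟩ := (hy : ∃ k2, lab (σ (lab i' k')) k2 = c)
      rw [zkey_lo hinj z hk]
      by_cases hc : lab i' k' = c
      · rw [zkey_up_same θ' hc]
        rcases Zone.lo_le_up.1 hlt.le k (hk.trans hc.symm) with h | ⟨h1, h2, h3⟩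
        · have := aux_lt (N := N) (d := k') (a := k) (z k).2 h
          omega
        · have h3' : (z k : ℕ) < θ' := h3
          rw [h1] at *
          omega
      · rw [zkey_up_other hinj θ' hc hk2]
        have := aux_lt (N := N) (d := d) (a := k) (z k).2 k.2
        omega
  · intro hx y
    obtain ⟨k2, hk2⟩ := (hx : ∃ k2, lab (σ (lab i k)) k2 = c)
    rcases Zone.form y with ⟨i', z', rfl⟩ | ⟨i', k', θ', rfl⟩
    · intro hy hlt
      exact absurd hlt.le Zone.not_up_le_lo
    · intro hy hlt
      obtain ⟨k3, hk3⟩ := (hy : ∃ k3, lab (σ (lab i' k')) k3 = c)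
      obtain ⟨hl, h⟩ := Zone.up_le_up.1 hlt.le
      by_cases hc : lab i k = c
      · have hc' : lab i' k' = c := hl ▸ hc
        rw [zkey_up_same θ hc, zkey_up_same θ' hc']
        rcases h with h | ⟨h1, h2, h3⟩
        · have := aux_lt (N := N) (d := k') (a := k) θ.2 h
          omega
        · have h3' : (θ : ℕ) ≤ θ' := h3
          rw [h1]
          omega
      · have hc' : lab i' k' ≠ c := fun h => hc (hl.trans h)
        rw [zkey_up_other hinj θ hc hk2, zkey_up_other hinj θ' hc' (hl ▸ hk2)]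

end

theorem zone_hasLocalRealizer [Nonempty I] [Finite Λ] (hd : 2 ≤ d)
    (hinj : ∀ i, Function.Injective (lab i))
    (hinj2 : ∀ i i' k, lab i k = lab i' k → i = i')
    (hopp : ∀ i i', i ≠ i' → ∃ k k', k < k' ∧ lab i k = lab i' k') (N : ℕ) :
    HasLocalRealizer (Zone lab N) d := by
  classical
  choose σ hσ using exists_first lab
  let M : Λ → PLE (Zone lab N) := fun c => PLE.ofKey (zcar lab σ N c) (zkey lab σ N c)
    (zkey_mono hinj c)
  have hM : ∀ c x y, x ∈ zcar lab σ N c → y ∈ zcar lab σ N c →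
      zkey lab σ N c x < zkey lab σ N c y → (M c).Before x y := fun c x y hx hy h =>
    PLE.ofKey_before (hf := zkey_mono hinj c) hx hy h
  -- a label of an upper point occurs in its own first zone
  have hself : ∀ i k, ∃ k0, lab (σ (lab i k)) k0 = lab i k := fun i k =>
    let ⟨k0, h, _⟩ := hσ (lab i k) ⟨i, k, rfl⟩
    ⟨k0, h⟩
  -- two zones have a common label avoiding a given one
  have hcommon : ∀ i i' (b : Λ), ∃ k k', lab i k = lab i' k' ∧ lab i k ≠ b := by
    intro i i' b
    by_cases hii : i = i'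
    · subst hii
      by_cases h0 : lab i ⟨0, by omega⟩ = b
      · refine ⟨⟨1, by omega⟩, ⟨1, by omega⟩, rfl, ?_⟩
        intro h1
        have := hinj i (h0.trans h1.symm)
        simp [Fin.ext_iff] at this
      · exact ⟨_, _, rfl, h0⟩
    · obtain ⟨k, k', hkk, hl⟩ := hopp i i' hii
      obtain ⟨l, l', hll, hl'⟩ := hopp i' i (Ne.symm hii)
      by_cases h0 : lab i k = b
      · refine ⟨l', l, hl'.symm, fun h1 => ?_⟩
        have e1 : k = l' := hinj i (h0.trans h1.symm)
        have e2 : k' = l := hinj i' (hl.symm.trans (h0.trans (h1.symm.trans hl'.symm)))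
        subst e1; subst e2
        exact absurd hkk hll.asymm
      · exact ⟨k, k', hl, h0⟩
  -- lower before upper
  have hlu : ∀ i z i' k' θ, ∃ c, (M c).Before (Zone.lo lab i z) (Zone.up lab i' k' θ) := by
    intro i z i' k' θ
    obtain ⟨k, k1, hk, hne⟩ := hcommon i (σ (lab i' k')) (lab i' k')
    refine ⟨lab i k, hM _ _ _ ⟨k, rfl⟩ ⟨k1, hk.symm⟩ ?_⟩
    rw [zkey_lo hinj z rfl, zkey_up_other hinj θ hne.symm hk.symm]
    have := aux_lt (N := N) (d := d) (a := k) (z k).2 k.2
    omega
  have hupne : ∀ i k θ i' k' θ', lab i k ≠ lab i' k' →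
      ∃ c, (M c).Before (Zone.up lab i k θ) (Zone.up lab i' k' θ') := by
    intro i k θ i' k' θ' hne
    by_cases hs : σ (lab i k) = σ (lab i' k')
    · obtain ⟨k0, hk0⟩ := hself i k
      refine ⟨lab i k, hM _ _ _ ⟨k0, hk0⟩ ⟨k0, hs ▸ hk0⟩ ?_⟩
      rw [zkey_up_same θ rfl, zkey_up_other hinj θ' (Ne.symm hne) (hs ▸ hk0)]
      have := aux_lt (N := N) (d := d) (a := k) θ.2 k.2
      omega
    · obtain ⟨l, l', hll, hl⟩ := hopp _ _ hs
      -- the common label `c` is not the label of the second chain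
      have hc' : lab i' k' ≠ lab (σ (lab i k)) l := by
        intro h
        obtain ⟨k0, hk0, hmin⟩ := hσ (lab i' k') ⟨i', k', rfl⟩
        have e1 : k0 = l' := hinj _ (hk0.trans (h.trans hl))
        have e2 := hmin _ l h.symm
        subst e1
        exact absurd hll (not_lt_of_ge e2)
      refine ⟨lab (σ (lab i k)) l, hM _ _ _ ⟨l, rfl⟩ ⟨l', hl.symm⟩ ?_⟩
      rw [zkey_up_other hinj θ' hc' hl.symm]
      by_cases hc : lab i k = lab (σ (lab i k)) l
      · rw [zkey_up_same θ hc]
        have := aux_lt (N := N) (d := d) (a := k) θ.2 k.2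
        omega
      · rw [zkey_up_other hinj θ hc rfl]
        have : (l : ℕ) < l' := hll
        omega
  refine ⟨Λ, inferInstance, M, ⟨?_, ?_⟩, ?_⟩
  · intro x
    rcases Zone.form x with ⟨i, z, rfl⟩ | ⟨i, k, θ, rfl⟩
    · intro y
      rcases Zone.form y with ⟨i', z', rfl⟩ | ⟨i', k', θ', rfl⟩
      · intro hlt
        obtain ⟨rfl, hz⟩ := Zone.lo_le_lo.1 hlt.le
        exact ⟨lab i ⟨0, by omega⟩, PLE.before_of_lt ⟨_, rfl⟩ ⟨_, rfl⟩ hlt⟩
      · intro _
        exact hlu i z i' k' θ'
    · intro y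
      rcases Zone.form y with ⟨i', z', rfl⟩ | ⟨i', k', θ', rfl⟩
      · intro hlt
        exact absurd hlt.le Zone.not_up_le_lo
      · intro hlt
        obtain ⟨hl, _⟩ := Zone.up_le_up.1 hlt.le
        obtain ⟨k0, hk0⟩ := hself i k
        exact ⟨lab i k, PLE.before_of_lt ⟨k0, hk0⟩ ⟨k0, by rw [← hl]; exact hk0⟩ hlt⟩
  · intro x
    rcases Zone.form x with ⟨i, z, rfl⟩ | ⟨i, k, θ, rfl⟩
    · intro y
      rcases Zone.form y with ⟨i', z', rfl⟩ | ⟨i', k', θ', rfl⟩
      · intro hxy hyx
        by_cases hii : i = i'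
        · subst hii
          have key : ∀ u v : Fin d → Fin N, ¬ Zone.lo lab i u ≤ Zone.lo lab i v →
              ∃ c, (M c).Before (Zone.lo lab i v) (Zone.lo lab i u) := by
            intro u v huv
            have h1 : ¬ u ≤ v := fun h => huv (Zone.lo_le_lo.2 ⟨rfl, h⟩)
            obtain ⟨k, hk⟩ : ∃ k, ¬ u k ≤ v k := by
              by_contra hcon
              push Not at hcon
              exact h1 (fun k => hcon k)
            refine ⟨lab i k, hM _ _ _ ⟨k, rfl⟩ ⟨k, rfl⟩ ?_⟩
            rw [zkey_lo hinj v rfl, zkey_lo hinj u rfl]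
            have : (v k : ℕ) < u k := lt_of_not_ge hk
            omega
          exact ⟨key z' z hyx, key z z' hxy⟩
        · have key : ∀ j j' (u v : Fin d → Fin N), j ≠ j' →
              ∃ c, (M c).Before (Zone.lo lab j u) (Zone.lo lab j' v) := by
            intro j j' u v hj
            obtain ⟨k, k', hkk, hl⟩ := hopp j j' hj
            refine ⟨lab j k, hM _ _ _ ⟨k, rfl⟩ ⟨k', hl.symm⟩ ?_⟩
            rw [zkey_lo hinj u rfl, zkey_lo hinj v hl.symm]
            have := aux_lt (N := N) (d := k') (a := k) (u k).2 hkk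
            omega
          exact ⟨key i i' z z' hii, key i' i z' z (Ne.symm hii)⟩
      · intro hxy _
        refine ⟨hlu i z i' k' θ', ?_⟩
        have h1 : ∃ k, lab i k = lab i' k' ∧ ¬ (k < k' ∨ (k = k' ∧ i = i' ∧ z k < θ')) := by
          by_contra hcon
          push Not at hcon
          apply hxy
          rw [Zone.lo_le_up]
          intro k hk
          by_contra h2
          exact h2 (by
            have := hcon k hk
            tauto)
        obtain ⟨k, hk, hn⟩ := h1
        obtain ⟨k0, hk0⟩ := hself i' k'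
        refine ⟨lab i' k', hM _ _ _ ⟨k0, hk0⟩ ⟨k, hk⟩ ?_⟩
        rw [zkey_up_same θ' rfl, zkey_lo hinj z hk]
        push Not at hn
        obtain ⟨hn1, hn2⟩ := hn
        rcases hn1.lt_or_eq with h | h
        · have := aux_lt (N := N) (d := k) (a := k') θ'.2 h
          omega
        · subst h
          have hii : i = i' := hinj2 i i' _ hk
          have := hn2 rfl hii
          have : (θ' : ℕ) ≤ z k' := this
          omega
    · intro y
      rcases Zone.form y with ⟨i', z', rfl⟩ | ⟨i', k', θ', rfl⟩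
      · intro _ hyx
        refine ⟨?_, hlu i' z' i k θ⟩
        have h1 : ∃ l, lab i' l = lab i k ∧ ¬ (l < k ∨ (l = k ∧ i' = i ∧ z' l < θ)) := by
          by_contra hcon
          push Not at hcon
          apply hyx
          rw [Zone.lo_le_up]
          intro l hl
          by_contra h2
          exact h2 (by
            have := hcon l hl
            tauto)
        obtain ⟨l, hl, hn⟩ := h1
        obtain ⟨k0, hk0⟩ := hself i k
        refine ⟨lab i k, hM _ _ _ ⟨k0, hk0⟩ ⟨l, hl⟩ ?_⟩
        rw [zkey_up_same θ rfl, zkey_lo hinj z' hl]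
        push Not at hn
        obtain ⟨hn1, hn2⟩ := hn
        rcases hn1.lt_or_eq with h | h
        · have := aux_lt (N := N) (d := l) (a := k) θ.2 h
          omega
        · subst h
          have hii : i' = i := hinj2 i' i _ hl
          have := hn2 rfl hii
          have : (θ : ℕ) ≤ z' k := this
          omega
      · intro hxy hyx
        by_cases hl : lab i k = lab i' k'
        · exfalso
          rcases lt_trichotomy k k' with h | h | h
          · exact hxy (Zone.up_le_up.2 ⟨hl, Or.inl h⟩)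
          · subst h
            have hii := hinj2 _ _ _ hl
            rcases le_total θ θ' with h | h
            · exact hxy (Zone.up_le_up.2 ⟨hl, Or.inr ⟨rfl, hii, h⟩⟩)
            · exact hyx (Zone.up_le_up.2 ⟨hl.symm, Or.inr ⟨rfl, hii.symm, h⟩⟩)
          · exact hyx (Zone.up_le_up.2 ⟨hl.symm, Or.inl h⟩)
        · exact ⟨hupne _ _ _ _ _ _ hl, hupne _ _ _ _ _ _ (Ne.symm hl)⟩
  · have hrange : ∀ i : I, ({c | ∃ k, lab i k = c} : Set Λ).ncard ≤ d := by
      intro i
      have h1 : ({c | ∃ k, lab i k = c} : Set Λ) = Set.range (lab i) := rfl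
      rw [h1, ← Set.image_univ]
      refine (Set.ncard_image_le (Set.toFinite _)).trans ?_
      rw [Set.ncard_univ, Nat.card_eq_fintype_card, Fintype.card_fin]
    intro x
    rcases Zone.form x with ⟨i, z, rfl⟩ | ⟨i, k, θ, rfl⟩
    · exact hrange i
    · exact hrange (σ (lab i k))

end Pool.Agent.Helper48.LD
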