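import Pool.Agent.Helper48.LD.SumComp
import Pool.Agent.Helper48.LD.Real1
import Pool.Agent.Helper48.LD.Lower

/-!
The cyclic labellings and the main theorems.
-/

namespace Pool.Agent.Helper48.LD

/-- The labelling of the zones `i : ZMod n` by the translates `D + i` (labels `0, ..., m-1`) and by
`t` private labels. -/
def clab {n m : ℕ} (D : Fin m → ZMod n) (t : ℕ) :
    ZMod n → Fin (m + t) → ZMod n ⊕ (ZMod n × Fin (m + t)) := fun i k =>
  if h : (k : ℕ) < m then Sum.inl (D ⟨k, h⟩ + i) else Sum.inr (i, k)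

variable {n m : ℕ} {D : Fin m → ZMod n} {t : ℕ}

theorem clab_inj (hD : Function.Injective D) (i : ZMod n) : Function.Injective (clab D t i) := by
  intro k k' h
  unfold clab at h
  split_ifs at h with h1 h2 h2
  · have := hD (add_right_cancel (Sum.inl.inj h))
    apply Fin.ext
    simpa using congrArg Fin.val this
  · exact (Prod.mk.inj (Sum.inr.inj h)).2

theorem clab_inj2 (i i' : ZMod n) (k : Fin (m + t)) (h : clab D t i k = clab D t i' k) :
    i = i' := by
  unfold clab at h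
  split_ifs at h with h1
  · exact add_left_cancel (Sum.inl.inj h)
  · exact (Prod.mk.inj (Sum.inr.inj h)).1

theorem clab_opp (hD : ∀ δ : ZMod n, δ ≠ 0 → ∃ k k' : Fin m, k < k' ∧ D k - D k' = δ)
    (i i' : ZMod n) (hne : i ≠ i') : ∃ k k', k < k' ∧ clab D t i k = clab D t i' k' := by
  obtain ⟨k, k', hlt, he⟩ := hD (i' - i) (sub_ne_zero.2 (Ne.symm hne))
  refine ⟨Fin.castAdd t k, Fin.castAdd t k', hlt, ?_⟩
  have h1 : ((Fin.castAdd t k : Fin (m + t)) : ℕ) < m := k.2
  have h2 : ((Fin.castAdd t k' : Fin (m + t)) : ℕ) < m := k'.2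
  have e1 : (⟨((Fin.castAdd t k : Fin (m + t)) : ℕ), h1⟩ : Fin m) = k := rfl
  have e2 : (⟨((Fin.castAdd t k' : Fin (m + t)) : ℕ), h2⟩ : Fin m) = k' := rfl
  unfold clab
  rw [dif_pos h1, dif_pos h2, e1, e2]
  congr 1
  linear_combination he

/-- The base block of the biplane on 11 points, in a suitable order. -/
def D11 : Fin 5 → ZMod 11 := ![1, 9, 5, 3, 4]

/-- The base block of the complete design on 4 points with blocks of size 3. -/
def D4 : Fin 3 → ZMod 4 := ![1, 0, 2]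

theorem D11_inj : Function.Injective D11 := by decide

theorem D4_inj : Function.Injective D4 := by decide

theorem D11_diff : ∀ δ : ZMod 11, δ ≠ 0 → ∃ k k' : Fin 5, k < k' ∧ D11 k - D11 k' = δ := by
  decide

theorem D4_diff : ∀ δ : ZMod 4, δ ≠ 0 → ∃ k k' : Fin 3, k < k' ∧ D4 k - D4 k' = δ := by
  decide

theorem D4_miss : ∀ c : ZMod 4, ∃ i : ZMod 4, ∀ k, D4 k + i ≠ c := by
  decide

theorem D11_miss0 : ∀ a b : ZMod 11, ∃ i : ZMod 11, ∀ k,
    D11 k + i ≠ 0 ∧ D11 k + i ≠ a ∧ D11 k + i ≠ b := by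
  decide

theorem D11_miss (S : Finset (ZMod 11)) (hS : S.card ≤ 3) : ∃ i, ∀ k, D11 k + i ∉ S := by
  obtain ⟨S', hsub, hcard⟩ := Finset.exists_superset_card_eq hS (by decide)
  obtain ⟨a, b, c, _, _, _, rfl⟩ := Finset.card_eq_three.1 hcard
  obtain ⟨i, hi⟩ := D11_miss0 (b - a) (c - a)
  refine ⟨i + a, fun k hk => ?_⟩
  have h1 := hsub hk
  simp only [Finset.mem_insert, Finset.mem_singleton] at h1
  obtain ⟨h2, h3, h4⟩ := hi k
  rcases h1 with h | h | h
  · exact h2 (by linear_combination h)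
  · exact h3 (by linear_combination h)
  · exact h4 (by linear_combination h)

theorem clab11_miss (S : Finset (ZMod 11 ⊕ (ZMod 11 × Fin (5 + t)))) (hS : S.card ≤ 3) :
    ∃ i, ∀ k, clab D11 t i k ∉ S := by
  classical
  obtain ⟨i, hi⟩ := D11_miss (S.image (Sum.elim id (fun p => D11 0 + p.1)))
    (Finset.card_image_le.trans hS)
  refine ⟨i, fun k hk => ?_⟩
  unfold clab at hk
  split_ifs at hk with h
  · apply hi ⟨k, h⟩
    rw [Finset.mem_image]
    exact ⟨_, hk, rfl⟩
  · apply hi 0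
    rw [Finset.mem_image]
    exact ⟨_, hk, rfl⟩

theorem clab4_miss (c : ZMod 4 ⊕ (ZMod 4 × Fin (3 + t))) : ∃ i, ∀ k, clab D4 t i k ≠ c := by
  obtain ⟨i, hi⟩ := D4_miss (Sum.elim id (fun p => D4 0 + p.1) c)
  refine ⟨i, fun k hk => ?_⟩
  subst hk
  unfold clab at hi
  split_ifs at hi with h
  · exact hi ⟨k, h⟩ rfl
  · exact hi 0 rfl

/-- For `d ≥ 5` the value `d + 2` is attained. -/
theorem add_two_mem_attained {d : ℕ} (hd : 5 ≤ d) : d + 2 ∈ attained d := by
  obtain ⟨t, rfl⟩ := Nat.exists_eq_add_of_le hd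
  obtain ⟨N, hN⟩ := exists_gt ((5 + t) * (5 + t) * (2 * (5 + t + 1)))
  obtain ⟨N', hN'⟩ := exists_gt ((5 + t - 2) * (5 + t - 2) * (2 * (5 + t + 1)))
  obtain ⟨j, hj⟩ := exists_gt (Nat.card (ZMod 11) * (5 + t + 1))
  have hα : HasLocalRealizer (Zone (clab D11 t) N) (5 + t) :=
    zone_hasLocalRealizer (by omega) (clab_inj D11_inj) clab_inj2 (clab_opp D11_diff) N
  have hβ : HasLocalRealizer (Zone (plab (Fin j) (5 + t - 2)) N') (5 + t) := by
    have := plab_hasLocalRealizer (J := Fin j) (e := 5 + t - 2) (by omega) N'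
    have e1 : 5 + t - 2 + 2 = 5 + t := by omega
    rwa [e1] at this
  have hNpos : 0 < N := by omega
  have hNpos' : 0 < N' := by omega
  have hjpos : 0 < j := by omega
  have : Nonempty (Zone (clab D11 t) N) := ⟨Zone.lo _ 0 (fun _ => ⟨0, hNpos⟩)⟩
  have : Nonempty (Zone (plab (Fin j) (5 + t - 2)) N') :=
    ⟨Zone.lo _ ⟨0, hjpos⟩ (fun _ => ⟨0, hNpos'⟩)⟩
  have hmem := attained_sum hα hβ
  have hle := attained_le hmem
  have hnot := lower_one (I := ZMod 11) (J := Fin j) (lab := clab D11 t) (N := N) (N' := N')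
    (by omega) (clab_inj D11_inj) clab11_miss hN hN' (by simpa using hj)
  rw [← ldim_le_iff] at hnot
  have heq : ldim (Zone (clab D11 t) N ⊕ Zone (plab (Fin j) (5 + t - 2)) N') = 5 + t + 2 := by
    omega
  rwa [heq] at hmem

/-- For `d ≥ 3` a value at least `d + 1` is attained. -/
theorem exists_add_one_le_attained {d : ℕ} (hd : 3 ≤ d) : ∃ k ∈ attained d, d + 1 ≤ k := by
  obtain ⟨t, rfl⟩ := Nat.exists_eq_add_of_le hd
  obtain ⟨N, hN⟩ := exists_gt ((3 + t) * (3 + t) * (2 * (3 + t)))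
  obtain ⟨N', hN'⟩ := exists_gt ((3 + t - 2) * (3 + t - 2) * (2 * (3 + t)))
  obtain ⟨j, hj⟩ := exists_gt (Nat.card (ZMod 4) * (3 + t))
  have hα : HasLocalRealizer (Zone (clab D4 t) N) (3 + t) :=
    zone_hasLocalRealizer (by omega) (clab_inj D4_inj) clab_inj2 (clab_opp D4_diff) N
  have hβ : HasLocalRealizer (Zone (plab (Fin j) (3 + t - 2)) N') (3 + t) := by
    have := plab_hasLocalRealizer (J := Fin j) (e := 3 + t - 2) (by omega) N'
    have e1 : 3 + t - 2 + 2 = 3 + t := by omega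
    rwa [e1] at this
  have hNpos : 0 < N := by omega
  have hNpos' : 0 < N' := by omega
  have hjpos : 0 < j := by omega
  have : Nonempty (Zone (clab D4 t) N) := ⟨Zone.lo _ 0 (fun _ => ⟨0, hNpos⟩)⟩
  have : Nonempty (Zone (plab (Fin j) (3 + t - 2)) N') :=
    ⟨Zone.lo _ ⟨0, hjpos⟩ (fun _ => ⟨0, hNpos'⟩)⟩
  have hmem := attained_sum hα hβ
  have hnot := lower_zero (I := ZMod 4) (J := Fin j) (lab := clab D4 t) (N := N) (N' := N')
    (by omega) (clab_inj D4_inj) clab4_miss hN hN' (by simpa using hj)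
  rw [← ldim_le_iff] at hnot
  exact ⟨_, hmem, by omega⟩

/-- `f(d) = d + 2` for all `d ≥ 5`. -/
theorem isGreatest_attained {d : ℕ} (hd : 5 ≤ d) : IsGreatest (attained d) (d + 2) :=
  ⟨add_two_mem_attained hd, fun _ h => attained_le h⟩

/-- `f(d) ∈ {d + 1, d + 2}` for all `d ≥ 3`. -/
theorem isGreatest_attained_or {d : ℕ} (hd : 3 ≤ d) :
    IsGreatest (attained d) (d + 1) ∨ IsGreatest (attained d) (d + 2) := by
  by_cases h : d + 2 ∈ attained d
  · exact Or.inr ⟨h, fun _ h => attained_le h⟩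
  · left
    obtain ⟨k, hk, hle⟩ := exists_add_one_le_attained hd
    have h1 := attained_le hk
    have h2 : k ≠ d + 2 := fun he => h (he ▸ hk)
    have h3 : k = d + 1 := by omega
    refine ⟨h3 ▸ hk, fun l hl => ?_⟩
    have h4 := attained_le hl
    have h5 : l ≠ d + 2 := fun he => h (he ▸ hl)
    omega

end Pool.Agent.Helper48.LD
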