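import Pool.Agent.Helper2.LD.St4

/-!
# LD project, part B1: common lemmas for `Ncore`, `Ntru`, `Nfan`, `Ngho`
-/

set_option autoImplicit false

namespace Pool.Agent.Helper48.LD

open Pool.Agent.Helper2.LD

section gen

variable {K V V' : Type} {N e : ℕ} {S : SimpleGraph V} {lab : V → Finset K}
  {S' : SimpleGraph V'} {lab' : V' → Finset K}

/-- Windows of a pair at distance `D`. -/
theorem win_iff {s t : V} {D : ℕ} (hD : S.edist s t = (D : ℕ∞)) (p : ℕ) (κ : K) :
    Win e S lab s t p κ ↔ ∃ q, p ≤ e ∧ q ≤ e ∧ D = p + q ∧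
      ∃ z, S.edist s z = (p : ℕ∞) ∧ S.edist z t = (q : ℕ∞) ∧ κ ∈ lab z := by
  unfold Win
  rw [hD]
  constructor
  · rintro ⟨q, h1, h2, h3, h4⟩
    exact ⟨q, h1, h2, by exact_mod_cast h3, h4⟩
  · rintro ⟨q, h1, h2, h3, h4⟩
    exact ⟨q, h1, h2, by exact_mod_cast h3, h4⟩

theorem pairEq_mk {s t : V} {s' t' : V'} {D : ℕ} (hl : lab t = lab' t')
    (h1 : S.edist s t = (D : ℕ∞)) (h2 : S'.edist s' t' = (D : ℕ∞))
    (hw : D ≤ 2 * e → ∀ p κ, Win e S lab s t p κ ↔ Win e S' lab' s' t' p κ) :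
    PairEq N e S lab S' lab' s t s' t' := by
  refine ⟨hl, ?_, ?_, ?_⟩
  · rw [← SimpleGraph.edist_eq_zero_iff (G := S), ← SimpleGraph.edist_eq_zero_iff (G := S'), h1, h2]
  · intro d _
    rw [h1, h2]
  · intro p κ
    by_cases hD : D ≤ 2 * e
    · exact hw hD p κ
    · rw [win_iff h1, win_iff h2]
      constructor
      · rintro ⟨q, a1, a2, a3, _⟩
        omega
      · rintro ⟨q, a1, a2, a3, _⟩
        omega

end gen

section core

variable {V Q Λ B FB : Type} {N e : ℕ} {c : Core V Q Λ B FB} {s : Ch V Q}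

theorem rp_idem (hs : ChAx N c s) (x : V) : s.rp (s.rp x) = s.rp x := hs.rp2 _ _ (hs.rp1 x)

theorem lb_eq (hP : Par N e) (hc : CoreAx N e c) {x u : V} (h : TS N c x = TS N c u) :
    c.lb x = c.lb u := by
  have h1 : (c.lb x, 0) ∈ TS N c x :=
    ⟨by have := hP.1; have := hP.2; show 0 < 2 * N; omega, x, rfl, by simp⟩
  rw [h] at h1
  obtain ⟨_, y, hy1, hy2⟩ := h1
  have h3 : u = y := (hc.conn.dist_eq_zero_iff).1 hy2
  rw [h3]
  exact hy1.symm

theorem k5' (hc : CoreAx N e c) {x y : V} (h : c.G.dist x y ≤ 4 * N + 2)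
    (hb : c.lb x = c.lb y) : x = y :=
  hc.k5 x y (by rw [← (hc.conn x y).coe_dist_eq_edist]; exact_mod_cast h) (by rw [hb])

/-- Not an antipode of `u`. -/
def NA {K : Type} (e : ℕ) (c : Core V Q Λ B FB) (u : V) (h : GH V Q K) : Prop :=
  ∀ r, c.ow r = u → h ≠ GH.core (c.ow ((c.nx^[2 * e]) r))

theorem NA_of_lt {K : Type} (hPb : StPb) (hP : Par N e) (hc : CoreAx N e c) (hs : ChAx N c s)
    {u : V} {h : GH V Q K} (hl : lev N c u h < 2 * e) : NA e c u h := by
  intro r hr hh
  subst hh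
  have h1 := ((hPb (K := K) N e c s hP hc hs false u).2.2 r hr).2.2.1
  simp only [lev, GH.own, GH.ht] at hl
  omega

theorem NA_of_ne {K : Type} (hPb : StPb) (hP : Par N e) (hc : CoreAx N e c) (hs : ChAx N c s)
    {u : V} {h : GH V Q K} (hl : lev N c u h ≠ 2 * e) : NA e c u h := by
  intro r hr hh
  subst hh
  have h1 := ((hPb (K := K) N e c s hP hc hs false u).2.2 r hr).2.2.1
  simp only [lev, GH.own, GH.ht] at hl
  omega

theorem pb_eq_false {K : Type} (b : Bool) {u : V} {h : GH V Q K} (hna : NA e c u h) :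
    pb N e c s b u h = pb N e c s false u h := by
  cases h with
  | core z =>
    unfold pb
    dsimp only
    rw [dif_neg (by rintro ⟨_, q, h1, h2⟩; exact hna q h1 (by rw [h2])), dif_neg (by simp)]
  | gho q j => rfl
  | tru x j => rfl
  | fan x l => rfl

theorem pbf_core {K : Type} (u z : V) :
    pb (K := K) N e c s false u (.core z) = .core (s.pr u z) := by
  unfold pb
  dsimp only
  rw [dif_neg (by simp)]

theorem pbf_ok (hP : Par N e) (hs : ChAx N c s) {u : V} {h : GH V Q (Kd N Λ B FB)}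
    (hg : okG N e c h) (h0 : lev N c u h ≠ 0) :
    okG N e c (pb N e c s false u h) ∧
      lev N c u (pb N e c s false u h) + 1 = lev N c u h := by
  obtain ⟨hP1, hP2⟩ := hP
  cases h with
  | core z =>
    rw [pbf_core]
    have hne : u ≠ z := by
      rintro rfl
      apply h0
      simp [lev, GH.own, GH.ht]
    have h1 := (hs.pr u z hne).2
    refine ⟨trivial, ?_⟩
    simp only [lev, GH.own, GH.ht]
    omega
  | gho q j =>
    have hj : 1 ≤ j ∧ j ≤ 2 * N := hg
    by_cases h1 : j ≤ 1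
    · have h2 : pb N e c s false u (.gho q j : GH V Q (Kd N Λ B FB)) = .core (c.ow q) := by
        simp [pb, GH.dp, h1]
      rw [h2]
      refine ⟨trivial, ?_⟩
      simp only [lev, GH.own, GH.ht]
      omega
    · have h2 : pb N e c s false u (.gho q j : GH V Q (Kd N Λ B FB)) = .gho q (j - 1) := by
        simp [pb, GH.dp, h1]
      rw [h2]
      refine ⟨⟨by omega, by omega⟩, ?_⟩
      simp only [lev, GH.own, GH.ht]
      omega
  | tru x j =>
    have hj : 1 ≤ j ∧ j < 2 * N := hg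
    by_cases h1 : j ≤ 1
    · have h2 : pb N e c s false u (.tru x j : GH V Q (Kd N Λ B FB)) = .core x := by
        simp [pb, GH.dp, h1]
      rw [h2]
      refine ⟨trivial, ?_⟩
      simp only [lev, GH.own, GH.ht]
      omega
    · have h2 : pb N e c s false u (.tru x j : GH V Q (Kd N Λ B FB)) = .tru x (j - 1) := by
        simp [pb, GH.dp, h1]
      rw [h2]
      refine ⟨⟨by omega, by omega⟩, ?_⟩
      simp only [lev, GH.own, GH.ht]
      omega
  | fan x l =>
    have h2 : pb N e c s false u (.fan x l : GH V Q (Kd N Λ B FB)) = .tru x (2 * N - 1) := by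
      simp [pb, GH.dp]
    rw [h2]
    refine ⟨⟨by omega, by omega⟩, ?_⟩
    simp only [lev, GH.own, GH.ht]
    omega

theorem tpar_iter {K : Type} (b : Bool) (u : V) : ∀ (q : ℕ) (h : GH V Q K),
    (tpar N e c s)^[q] (.nat b u h) = .nat b u ((pb N e c s b u)^[q] h) := by
  intro q
  induction q with
  | zero => intro h; rfl
  | succ q ih =>
    intro h
    rw [Function.iterate_succ_apply, Function.iterate_succ_apply]
    exact ih _

theorem okT_iter (hTok : StTok) (hP : Par N e) (hc : CoreAx N e c) (hs : ChAx N c s) :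
    ∀ (q : ℕ) (x : TH V Q (Kd N Λ B FB)), okT N e c s x → q ≤ tlev N c x →
    okT N e c s ((tpar N e c s)^[q] x) ∧ tlev N c ((tpar N e c s)^[q] x) + q = tlev N c x ∧
      pc ((tpar N e c s)^[q] x) = pc x := by
  intro q
  induction q with
  | zero => intro x hx _; exact ⟨hx, rfl, rfl⟩
  | succ q ih =>
    intro x hx hq
    obtain ⟨h1, h2, h3⟩ := hTok.ok N e c s hP hc hs x hx (by omega)
    obtain ⟨h4, h5, h6⟩ := ih _ h1 (by omega)
    rw [Function.iterate_succ_apply]
    exact ⟨h4, by omega, h6.trans h3⟩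

theorem pb_iter (hPb : StPb) (hP : Par N e) (hc : CoreAx N e c) (hs : ChAx N c s)
    (b : Bool) {u : V} : ∀ (q : ℕ) {h : GH V Q (Kd N Λ B FB)}, okG N e c h →
    q ≤ lev N c u h → lev N c u h ≤ 2 * e → NA e c u h →
    (pb N e c s b u)^[q] h = (pb N e c s false u)^[q] h ∧
      okG N e c ((pb N e c s false u)^[q] h) ∧
      lev N c u ((pb N e c s false u)^[q] h) + q = lev N c u h := by
  intro q
  induction q with
  | zero => intro h hg _ _ _; exact ⟨rfl, hg, rfl⟩
  | succ q ih =>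
    intro h hg hq hl hna
    obtain ⟨h1, h2⟩ := pbf_ok (s := s) hP hs hg (u := u) (by omega)
    rw [Function.iterate_succ_apply, Function.iterate_succ_apply, pb_eq_false b hna]
    obtain ⟨h3, h4, h5⟩ := ih h1 (by omega) (by omega)
      (NA_of_lt hPb hP hc hs (by omega))
    exact ⟨h3, h4, by omega⟩

theorem Mt_iter (hPb : StPb) (hMt : StMt) (hP : Par N e) (hc : CoreAx N e c) (hs : ChAx N c s)
    {x u : V} (hT : TS N c x = TS N c u) : ∀ (q : ℕ) {h h' : GH V Q (Kd N Λ B FB)},
    okG N e c h → Mt N c x u h h' → q ≤ lev N c x h → lev N c x h ≤ 2 * e → NA e c x h →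
    Mt N c x u ((pb N e c s false x)^[q] h) ((pb N e c s false u)^[q] h') := by
  intro q
  induction q with
  | zero => intro h h' _ hm _ _ _; exact hm
  | succ q ih =>
    intro h h' hg hm hq hl hna
    obtain ⟨h1, h2⟩ := pbf_ok (s := s) hP hs hg (u := x) (by omega)
    have h3 := hMt.par N e c s hP hc hs x u hT h h' hm hl (by omega) hna
    rw [Function.iterate_succ_apply, Function.iterate_succ_apply]
    exact ih h1 h3 (by omega) (by omega) (NA_of_lt hPb hP hc hs (by omega))

theorem NA_Mt {K : Type} (hPb : StPb) (hMt : StMt) (hP : Par N e) (hc : CoreAx N e c)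
    (hs : ChAx N c s) {x u : V}
    (hT : TS N c x = TS N c u) {h h' : GH V Q K} (hm : Mt N c x u h h') (hna : NA e c x h) :
    NA e c u h' := by
  intro r hr hh
  subst hh
  cases h with
  | core z =>
    obtain ⟨h1, h2, h3⟩ := hm
    have h4 := ((hPb (K := K) N e c s hP hc hs false u).2.2 r hr).2.2.1
    obtain ⟨r', a1, a2, a3, _⟩ := hMt.anti N e c hP hc u x hT.symm r z hr h1.symm (by omega)
    exact hna r' a1 (by rw [a3])
  | gho q j => exact hm
  | tru x j => exact hm
  | fan x l => exact hm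

/-- Windows from the root of a piece. -/
theorem coreWin (hPb : StPb) (hTok : StTok) (hTd : StTdist) (hTp : StTpos) (hGd : StGdist)
    (hGp : StGpos) (hMt : StMt) (hP : Par N e) (hc : CoreAx N e c)
    (hs : ChAx N c s) {b : Bool} {x u : V} (hT : TS N c x = TS N c u)
    {y y' : TV N e c s} {g g' : GV N e c} (hy : y.1 = .nat b u (.core u)) (hg : g.1 = .core x)
    {h' : GH V Q (Kd N Λ B FB)} (hy' : y'.1 = .nat b u h') (hm : Mt N c x u g'.1 h')
    (hl : lev N c x g'.1 ≤ 2 * e) (hna : NA e c x g'.1) [Fintype Λ] [Fintype B] [Fintype FB]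
    (p : ℕ) (κ : Kd N Λ B FB) :
    Win e (TG N e c s) (tL N e c s) y y' p κ ↔ Win e (GG N e c) (gL N e c) g g' p κ := by
  have hlev := hMt.lev N c x u _ _ hm
  have hna' : NA e c u h' := NA_Mt hPb hMt hP hc hs hT hm hna
  have hd1 : (TG N e c s).edist y y' = ((lev N c x g'.1 : ℕ) : ℕ∞) := by
    rw [hTd.root N e c s hP hc hs y y' b u hy (by rw [hy']; rfl), hy', hlev]
    rfl
  have hd2 : (GG N e c).edist g g' = ((lev N c x g'.1 : ℕ) : ℕ∞) :=
    hGd.core N e c hP hc g g' x hg
  have hok' : okG N e c h' := by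
    have := y'.2
    rw [hy'] at this
    exact this.2.1
  rw [win_iff hd1, win_iff hd2]
  constructor
  · rintro ⟨q, h1, h2, h3, z, h4, h5, h6⟩
    refine ⟨q, h1, h2, h3, ?_⟩
    have hz := (hTp N e c s hP hc hs y y' z b u p q hy (by rw [hy']; rfl)
      (by rw [hy']; show lev N c u h' = p + q; omega)).1 ⟨h4, h5⟩
    obtain ⟨i1, i2, i3⟩ := pb_iter hPb hP hc hs b (u := u) q hok' (by omega) (by omega) hna'
    rw [hy', tpar_iter, i1] at hz
    obtain ⟨j1, j2, j3⟩ := pb_iter hPb hP hc hs b (u := x) q g'.2 (by omega) (by omega) hna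
    have hmi := Mt_iter hPb hMt hP hc hs hT q g'.2 hm (by omega) (by omega) hna
    have hlab := hMt.lab N e c hP hc x u hT _ _ hmi (by have := hP.1; omega)
    refine ⟨⟨_, j2⟩, ?_, ?_, ?_⟩
    · exact ((hGp.pos N e c s hP hc hs g g' ⟨_, j2⟩ x p q hg (by omega) (by omega) hna).2 rfl).1
    · exact ((hGp.pos N e c s hP hc hs g g' ⟨_, j2⟩ x p q hg (by omega) (by omega) hna).2 rfl).2
    · show κ ∈ gl N e c _
      rw [hlab]
      have : tL N e c s z = gl N e c ((pb N e c s false u)^[q] h') := by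
        unfold tL
        rw [hz]
        rfl
      rw [← this]
      exact h6
  · rintro ⟨q, h1, h2, h3, z, h4, h5, h6⟩
    refine ⟨q, h1, h2, h3, ?_⟩
    have hz := (hGp.pos N e c s hP hc hs g g' z x p q hg (by omega) (by omega) hna).1 ⟨h4, h5⟩
    obtain ⟨i1, i2, i3⟩ := pb_iter hPb hP hc hs b (u := u) q hok' (by omega) (by omega) hna'
    obtain ⟨j1, j2, j3⟩ := pb_iter hPb hP hc hs b (u := x) q g'.2 (by omega) (by omega) hna
    have hmi := Mt_iter hPb hMt hP hc hs hT q g'.2 hm (by omega) (by omega) hna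
    have hlab := hMt.lab N e c hP hc x u hT _ _ hmi (by have := hP.1; omega)
    have hokT := okT_iter hTok hP hc hs q y'.1 y'.2 (by rw [hy']; show q ≤ lev N c u h'; omega)
    refine ⟨⟨_, hokT.1⟩, ?_, ?_, ?_⟩
    · exact ((hTp N e c s hP hc hs y y' ⟨_, hokT.1⟩ b u p q hy (by rw [hy']; rfl)
        (by rw [hy']; show lev N c u h' = p + q; omega)).2 rfl).1
    · exact ((hTp N e c s hP hc hs y y' ⟨_, hokT.1⟩ b u p q hy (by rw [hy']; rfl)
        (by rw [hy']; show lev N c u h' = p + q; omega)).2 rfl).2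
    · show κ ∈ tl N e c s ((tpar N e c s)^[q] y'.1)
      rw [hy', tpar_iter, i1]
      show κ ∈ gl N e c _
      rw [← hlab, ← hz]
      exact h6

end core

end Pool.Agent.Helper48.LD
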