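import Pool.Agent.Helper48.LD.NT
import Pool.Agent.Helper48.LD.P_Ncore

/-!
# LD project, part B1: the sticks of `T` and of `G'`
-/

set_option autoImplicit false

namespace Pool.Agent.Helper48.LD

open Pool.Agent.Helper2.LD

section inst

variable {V Q Λ B FB : Type} {N e : ℕ} {c : Core V Q Λ B FB} {s : Ch V Q}

/-- The trunk with one fan. -/
def trS {K : Type} (N : ℕ) (u : V) (l : Finset K) (j : ℕ) : GH V Q K :=
  if j = 0 then .core u else if j = 2 * N then .fan u l else .tru u j

/-- The ghost path. -/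
def ghS {K : Type} (c : Core V Q Λ B FB) (q : Q) (j : ℕ) : GH V Q K :=
  if j = 0 then .core (c.ow q) else .gho q j

/-- Own trunk and fans. -/
def trP {K : Type} (u : V) (h : GH V Q K) : Prop := (∃ j, h = .tru u j) ∨ ∃ l, h = .fan u l

/-- Own ghost. -/
def ghP {K : Type} (q : Q) (h : GH V Q K) : Prop := ∃ j, h = .gho q j

theorem trS_ok {u : V} {l : Finset (Kd N Λ B FB)}
    (hl : okG N e c (.fan u l)) {j : ℕ} (hj : j ≤ 2 * N) : okG N e c (trS N u l j) := by
  unfold trS
  split_ifs with h1 h2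
  · trivial
  · exact hl
  · exact ⟨by omega, by omega⟩

theorem ghS_ok {q : Q} {j : ℕ} (hj : j ≤ 2 * N) : okG N e c (ghS c q j) := by
  unfold ghS
  split_ifs with h1
  · trivial
  · exact ⟨by omega, by omega⟩

theorem trS_lev {K : Type} (u : V) (l : Finset K) (j : ℕ) : lev N c u (trS N u l j) = j := by
  unfold trS
  split_ifs with h1 h2
  · subst h1
    simp [lev, GH.own, GH.ht]
  · simp [lev, GH.own, GH.ht, h2]
  · simp [lev, GH.own, GH.ht]

theorem ghS_lev {K : Type} (q : Q) (j : ℕ) : lev N c (c.ow q) (ghS (K := K) c q j) = j := by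
  unfold ghS
  split_ifs with h1
  · subst h1
    simp [lev, GH.own, GH.ht]
  · simp [lev, GH.own, GH.ht]

theorem pb_core_ne {K : Type} (b : Bool) (u z : V) :
    (∃ w, pb (K := K) N e c s b u (.core z) = .core w) ∨
      ∃ q j, pb (K := K) N e c s b u (.core z) = .gho q j := by
  unfold pb
  dsimp only
  split_ifs with h
  · exact Or.inr ⟨_, _, rfl⟩
  · exact Or.inl ⟨_, rfl⟩

theorem tr_stk (hP : Par N e) (u : V) (l : Finset (Kd N Λ B FB)) :
    TStk N e c s true u (trS N u l) (2 * N) (trP u) := by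
  have he : 20 ≤ e := hP.2
  have hN : e + 4 = N := hP.1
  refine ⟨rfl, ?_, fun j _ => trS_lev u l j, ?_, ?_⟩
  · intro j hj
    unfold trS
    rw [if_neg (by omega : ¬ j + 1 = 0)]
    by_cases h1 : j + 1 = 2 * N
    · rw [if_pos h1, if_neg (by omega), if_neg (by omega)]
      show GH.tru u (2 * N - 1) = _
      rw [show 2 * N - 1 = j by omega]
    · rw [if_neg h1]
      show (if j + 1 ≤ 1 then GH.core u else GH.tru u (j + 1 - 1)) = _
      by_cases h2 : j = 0
      · rw [if_pos (by omega), if_pos h2]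
      · rw [if_neg (by omega), if_neg h2, if_neg (by omega)]
        rfl
  · intro j h1 h2
    unfold trS
    rw [if_neg (by omega)]
    split_ifs
    · exact Or.inr ⟨_, rfl⟩
    · exact Or.inl ⟨_, rfl⟩
  · intro h hn
    cases h with
    | core z =>
      rcases pb_core_ne (K := Kd N Λ B FB) (s := s) (N := N) (e := e) (c := c) true u z with
        ⟨w, hw⟩ | ⟨q, j, hw⟩
      · rw [hw]
        rintro (⟨_, h⟩ | ⟨_, h⟩) <;> simp at h
      · rw [hw]
        rintro (⟨_, h⟩ | ⟨_, h⟩) <;> simp at h
    | gho q j =>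
      show ¬ trP u (if j ≤ 1 then GH.core (c.ow q) else GH.gho q (j - 1))
      split_ifs
      · rintro (⟨_, h⟩ | ⟨_, h⟩) <;> simp at h
      · rintro (⟨_, h⟩ | ⟨_, h⟩) <;> simp at h
    | tru z j =>
      have hz : z ≠ u := by
        rintro rfl
        exact hn (Or.inl ⟨_, rfl⟩)
      show ¬ trP u (if j ≤ 1 then GH.core z else GH.tru z (j - 1))
      split_ifs
      · rintro (⟨_, h⟩ | ⟨_, h⟩) <;> simp at h
      · rintro (⟨_, h⟩ | ⟨_, h⟩)
        · simp only [GH.tru.injEq] at h
          exact hz h.1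
        · simp at h
    | fan z l' =>
      have hz : z ≠ u := by
        rintro rfl
        exact hn (Or.inr ⟨_, rfl⟩)
      show ¬ trP u (GH.tru z (2 * N - 1))
      rintro (⟨_, h⟩ | ⟨_, h⟩)
      · simp only [GH.tru.injEq] at h
        exact hz h.1
      · simp at h

theorem gh_stk (q : Q) :
    TStk (K := Kd N Λ B FB) N e c s false (c.ow q) (ghS c q) (2 * N) (ghP q) := by
  refine ⟨rfl, ?_, fun j _ => ghS_lev q j, ?_, ?_⟩
  · intro j hj
    unfold ghS
    rw [if_neg (by omega : ¬ j + 1 = 0)]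
    show (if j + 1 ≤ 1 then GH.core (c.ow q) else GH.gho q (j + 1 - 1)) = _
    by_cases h2 : j = 0
    · rw [if_pos (by omega), if_pos h2]
    · rw [if_neg (by omega), if_neg h2]
      rfl
  · intro j h1 h2
    unfold ghS
    rw [if_neg (by omega)]
    exact ⟨_, rfl⟩
  · intro h hn
    cases h with
    | core z =>
      rw [pbf_core]
      rintro ⟨_, h⟩
      simp at h
    | gho q' j =>
      show ¬ ghP q (if j ≤ 1 then GH.core (c.ow q') else GH.gho q' (j - 1))
      split_ifs
      · rintro ⟨_, h⟩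
        simp at h
      · rintro ⟨_, h⟩
        simp only [GH.gho.injEq] at h
        exact hn ⟨j, by rw [h.1]⟩
    | tru z j =>
      show ¬ ghP q (if j ≤ 1 then GH.core z else GH.tru z (j - 1))
      split_ifs
      · rintro ⟨_, h⟩
        simp at h
      · rintro ⟨_, h⟩
        simp at h
    | fan z l' =>
      show ¬ ghP q (GH.tru z (2 * N - 1))
      rintro ⟨_, h⟩
      simp at h

/-- A stick as a function to the hubs of `T`. -/
noncomputable def tS (N e : ℕ) (c : Core V Q Λ B FB) (s : Ch V Q) (b : Bool) (u : V)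
    (st : ℕ → GH V Q (Kd N Λ B FB)) (m : ℕ)
    (ok : ∀ j, j ≤ m → okT N e c s (.nat b u (st j))) (j : ℕ) : TV N e c s :=
  if h : j ≤ m then ⟨.nat b u (st j), ok j h⟩ else ⟨.nat b u (st 0), ok 0 (Nat.zero_le _)⟩

theorem tS_val {b : Bool} {u : V} {st : ℕ → GH V Q (Kd N Λ B FB)} {m : ℕ}
    {ok : ∀ j, j ≤ m → okT N e c s (.nat b u (st j))} {j : ℕ} (hj : j ≤ m) :
    (tS N e c s b u st m ok j).1 = .nat b u (st j) := by
  unfold tS
  rw [dif_pos hj]

/-- A stick as a function to the hubs of `G'`. -/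
noncomputable def gS (N e : ℕ) (c : Core V Q Λ B FB)
    (st : ℕ → GH V Q (Kd N Λ B FB)) (m : ℕ)
    (ok : ∀ j, j ≤ m → okG N e c (st j)) (j : ℕ) : GV N e c :=
  if h : j ≤ m then ⟨st j, ok j h⟩ else ⟨st 0, ok 0 (Nat.zero_le _)⟩

theorem gS_val {st : ℕ → GH V Q (Kd N Λ B FB)} {m : ℕ}
    {ok : ∀ j, j ≤ m → okG N e c (st j)} {j : ℕ} (hj : j ≤ m) :
    (gS N e c st m ok j).1 = st j := by
  unfold gS
  rw [dif_pos hj]

theorem fan_eq {l l' : Finset (Kd N Λ B FB)} {u : V} {x : TV N e c s}
    (h : x.1 = .nat true u (.fan u l)) (h' : x.1 = .nat true u (.fan u l')) : l = l' := by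
  rw [h] at h'
  simpa using h'

/-- Two different fans. -/
theorem T_ff (hTd : StTdist) (hP : Par N e) (hc : CoreAx N e c) (hs : ChAx N c s)
    {u : V} {l l' : Finset (Kd N Λ B FB)} (hll : l ≠ l') {y y' : TV N e c s}
    (hy : y.1 = .nat true u (.fan u l)) (hy' : y'.1 = .nat true u (.fan u l')) :
    (TG N e c s).edist y y' = ((2 : ℕ) : ℕ∞) := by
  have he : 20 ≤ e := hP.2
  have hN : e + 4 = N := hP.1
  have A := tr_stk (c := c) (s := s) hP u l
  have A' := tr_stk (c := c) (s := s) hP u l'
  have e1 : (trS N u l (2 * N) : GH V Q (Kd N Λ B FB)) = .fan u l := by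
    unfold trS
    rw [if_neg (by omega), if_pos rfl]
  have e2 : (trS N u l' (2 * N) : GH V Q (Kd N Λ B FB)) = .fan u l' := by
    unfold trS
    rw [if_neg (by omega), if_pos rfl]
  have l1 : tlev N c (.nat true u (.fan u l) : TH V Q (Kd N Λ B FB)) = 2 * N := by
    show lev N c u (.fan u l) = _
    simp [lev, GH.own, GH.ht]
  have l2 : tlev N c (.nat true u (.fan u l') : TH V Q (Kd N Λ B FB)) = 2 * N := by
    show lev N c u (.fan u l') = _
    simp [lev, GH.own, GH.ht]
  apply enat_eq
  intro d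
  rw [hTd.inn N e c s hP hc hs y y' (by rw [hy, hy']; rfl), hy, hy', l1, l2, ← e1, ← e2]
  have nf : ∀ (a : Finset (Kd N Λ B FB)) (k : ℕ), k < 2 * N → ∀ a' : Finset (Kd N Λ B FB),
      (trS N u a k : GH V Q (Kd N Λ B FB)) ≠ .fan u a' := by
    intro a k hk a'
    unfold trS
    split_ifs with h1 h2
    · simp
    · omega
    · simp
  constructor
  · rintro ⟨i, j, h1, h2, h3, h4⟩
    rw [A.iter i _ h1 le_rfl, A'.iter j _ h2 le_rfl] at h4
    have h5 : (trS N u l (2 * N - i) : GH V Q (Kd N Λ B FB)) = trS N u l' (2 * N - j) := by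
      injection h4
    by_contra hd
    have hij : i = 0 ∨ j = 0 := by omega
    rcases hij with rfl | rfl
    · rw [Nat.sub_zero, e1] at h5
      by_cases hj : j = 0
      · subst hj
        rw [Nat.sub_zero, e2] at h5
        apply hll
        simpa using h5
      · exact nf l' (2 * N - j) (by omega) l h5.symm
    · rw [Nat.sub_zero, e2] at h5
      by_cases hi : i = 0
      · subst hi
        rw [Nat.sub_zero, e1] at h5
        apply hll
        simpa using h5
      · exact nf l (2 * N - i) (by omega) l' h5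
  · intro h
    refine ⟨1, 1, by omega, by omega, h, ?_⟩
    rw [A.iter 1 _ (by omega) le_rfl, A'.iter 1 _ (by omega) le_rfl]
    unfold trS
    rw [if_neg (by omega), if_neg (by omega), if_neg (by omega), if_neg (by omega)]

theorem tr_okT (hP : Par N e) {u : V} (hu : s.rp u = u) {l : Finset (Kd N Λ B FB)}
    (hl : okG N e c (.fan u l)) (j : ℕ) (hj : j ≤ 2 * N) :
    okT N e c s (.nat true u (trS N u l j)) :=
  ⟨hu, trS_ok hl hj, Or.inl (by rw [trS_lev]; simpa [dep] using hj)⟩

theorem gh_okT (hP : Par N e) {q : Q} (hu : s.rp (c.ow q) = c.ow q) (j : ℕ) (hj : j ≤ 2 * N) :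
    okT N e c s (.nat false (c.ow q) (ghS c q j)) := by
  refine ⟨hu, ghS_ok hj, ?_⟩
  by_cases h : j = 2 * N
  · right
    refine ⟨rfl, q, rfl, ?_⟩
    unfold ghS
    rw [if_neg (by have := hP.1; have := hP.2; omega), h]
  · left
    rw [ghS_lev]
    show j ≤ 2 * N - 1
    omega

/-- The trunk with a fan as a stick of `T`. -/
theorem tr_astk (hTok : StTok) (hTd : StTdist) (hP : Par N e) (hc : CoreAx N e c)
    (hs : ChAx N c s) {u : V} (hu : s.rp u = u) {l : Finset (Kd N Λ B FB)}
    (hl : okG N e c (.fan u l)) :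
    AStk (TG N e c s) N (tS N e c s true u (trS N u l) (2 * N) (tr_okT hP hu hl)) (2 * N)
      (fun z => pc z.1 = some (true, u) ∧ ¬ PT (trP u) z.1)
      (fun z => ∃ l', l' ≠ l ∧ z.1 = .nat true u (.fan u l')) := by
  have he : 20 ≤ e := hP.2
  have hN : e + 4 = N := hP.1
  have A := tr_stk (c := c) (s := s) hP u l
  have e1 : ∀ a : Finset (Kd N Λ B FB), (trS N u a (2 * N) : GH V Q (Kd N Λ B FB)) =
      .fan u a := by
    intro a
    unfold trS
    rw [if_neg (by omega), if_pos rfl]
  have e2 : ∀ (a a' : Finset (Kd N Λ B FB)) (i : ℕ), i < 2 * N →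
      (trS N u a i : GH V Q (Kd N Λ B FB)) = trS N u a' i := by
    intro a a' i hi
    unfold trS
    rw [if_neg (by omega : ¬ i = 2 * N), if_neg (by omega : ¬ i = 2 * N)]
  have hso : ∀ i ≤ 2 * N, ∀ z : TV N e c s, pc z.1 = some (true, u) ∧ ¬ PT (trP u) z.1 →
      (TG N e c s).edist (tS N e c s true u (trS N u l) (2 * N) (tr_okT hP hu hl) i) z =
        ((i + tlev N c z.1 : ℕ) : ℕ∞) :=
    fun i hi z hz => T_so hTok hTd hP hc hs A hi (tS_val hi) hz.1 hz.2
  have hFd : ∀ z : TV N e c s, (∃ l', l' ≠ l ∧ z.1 = .nat true u (.fan u l')) → ∀ i ≤ 2 * N,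
      (TG N e c s).edist (tS N e c s true u (trS N u l) (2 * N) (tr_okT hP hu hl) i) z =
        ((if i = 2 * N then 2 else 2 * N - i : ℕ) : ℕ∞) := by
    rintro z ⟨l', hne, hz⟩ i hi
    by_cases h : i = 2 * N
    · rw [if_pos h]
      subst h
      exact T_ff hTd hP hc hs hne.symm (by rw [tS_val hi, e1]) hz
    · rw [if_neg h]
      have := T_ss hTd hP hc hs (tr_stk (c := c) (s := s) hP u l') hi (le_refl (2 * N))
        (y := tS N e c s true u (trS N u l) (2 * N) (tr_okT hP hu hl) i) (y' := z)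
        (by rw [tS_val hi, e2 l l' i (by omega)]) (by rw [hz, e1])
      rw [this]
      congr 1
      omega
  refine ⟨?_, ?_, ?_, ?_, ?_⟩
  · intro i j hi hj
    exact T_ss hTd hP hc hs A hi hj (tS_val hi) (tS_val hj)
  · intro z hz
    exact ⟨tlev N c z.1, fun i hi => hso i hi z hz⟩
  · intro i hi z p hp hd
    have hpc : pc z.1 = some (true, u) := by
      refine T_near hTok hTd hP hc hs hu A ?_ hi
        (y := tS N e c s true u (trS N u l) (2 * N) (tr_okT hP hu hl) i) (tS_val hi) (y' := z) ?_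
      · rintro (⟨_, h⟩ | ⟨_, h⟩) <;> simp [cc] at h
      · rw [hd]
        exact_mod_cast hp
    by_cases hPT : PT (trP u) z.1
    · right
      have hok := z.2
      obtain ⟨v, hv⟩ := z
      cases v with
      | nat b' u' h =>
        have hb : b' = true ∧ u' = u := by simpa [pc] using hpc
        obtain ⟨rfl, rfl⟩ := hb
        rcases hPT with ⟨j, rfl⟩ | ⟨l', rfl⟩
        · left
          have hj : 1 ≤ j ∧ j < 2 * N := hok.2.1
          refine ⟨j, by omega, ?_⟩
          apply Subtype.ext
          rw [tS_val (by omega)]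
          unfold trS
          rw [if_neg (by omega), if_neg (by omega)]
        · by_cases h : l' = l
          · left
            subst h
            refine ⟨2 * N, le_rfl, ?_⟩
            apply Subtype.ext
            rw [tS_val le_rfl, e1]
          · right
            exact ⟨l', h, rfl⟩
      | cap b' u' h =>
        exfalso
        have hb : b' = true ∧ u' = u := by simpa [pc] using hpc
        obtain ⟨rfl, rfl⟩ := hb
        rcases hPT with ⟨j, rfl⟩ | ⟨l', rfl⟩
        · have h1 : lev N c u' (.tru u' j : GH V Q (Kd N Λ B FB)) = 2 * N := by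
            have := hok.2.2.1
            simpa [dep] using this
          have h2 : 1 ≤ j ∧ j < 2 * N := hok.2.1
          simp only [lev, GH.own, GH.ht, SimpleGraph.dist_self] at h1
          omega
        · exact hok.2.2.2.1 rfl l' rfl
      | pth b' u' j => simp [pc] at hpc
      | rt => simp [pc] at hpc
    · exact Or.inl ⟨hpc, hPT⟩
  · intro z hz i j hi hj p q h1 h2
    have h3 := enat_cast_inj ((hFd z hz i hi).symm.trans h1)
    have h4 := enat_cast_inj ((hFd z hz j hj).symm.trans (SimpleGraph.edist_comm.trans h2))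
    split_ifs at h3 h4 <;> omega
  · intro z hz o ho L hL i hi p q h1 h2
    have h3 := enat_cast_inj ((hFd z hz i hi).symm.trans h1)
    have h4 := enat_cast_inj ((hso 0 (by omega) o ho).symm.trans hL)
    obtain ⟨l', hne, hz'⟩ := hz
    have h5 := T_so hTok hTd hP hc hs (tr_stk (c := c) (s := s) hP u l') (le_refl (2 * N))
      (y := z) (y' := o) (by rw [hz', e1]) ho.1 ho.2
    have h6 := enat_cast_inj (h5.symm.trans h2)
    split_ifs at h3 <;> omega

/-- An own ghost as a stick of `T`. -/
theorem gh_astk (hTok : StTok) (hTd : StTdist) (hP : Par N e) (hc : CoreAx N e c)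
    (hs : ChAx N c s) {q : Q} (hu : s.rp (c.ow q) = c.ow q) :
    AStk (TG N e c s) N (tS N e c s false (c.ow q) (ghS c q) (2 * N) (gh_okT hP hu)) (2 * N)
      (fun z => pc z.1 = some (false, c.ow q) ∧ ¬ PT (ghP q) z.1)
      (fun _ => False) := by
  have he : 20 ≤ e := hP.2
  have hN : e + 4 = N := hP.1
  have A := gh_stk (N := N) (e := e) (c := c) (s := s) q
  refine ⟨?_, ?_, ?_, fun _ h => h.elim, fun _ h => h.elim⟩
  · intro i j hi hj
    exact T_ss hTd hP hc hs A hi hj (tS_val hi) (tS_val hj)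
  · intro z hz
    exact ⟨tlev N c z.1, fun i hi => T_so hTok hTd hP hc hs A hi (tS_val hi) hz.1 hz.2⟩
  · intro i hi z p hp hd
    have hpc : pc z.1 = some (false, c.ow q) := by
      refine T_near hTok hTd hP hc hs hu A ?_ hi
        (y := tS N e c s false (c.ow q) (ghS c q) (2 * N) (gh_okT hP hu) i) (tS_val hi)
        (y' := z) ?_
      · rintro ⟨_, h⟩
        simp [cc] at h
      · rw [hd]
        exact_mod_cast hp
    by_cases hPT : PT (ghP q) z.1
    · right
      left
      have hok := z.2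
      obtain ⟨v, hv⟩ := z
      cases v with
      | nat b' u' h =>
        have hb : b' = false ∧ u' = c.ow q := by simpa [pc] using hpc
        obtain ⟨rfl, rfl⟩ := hb
        obtain ⟨j, rfl⟩ := hPT
        have hj : 1 ≤ j ∧ j ≤ 2 * N := hok.2.1
        refine ⟨j, by omega, ?_⟩
        apply Subtype.ext
        rw [tS_val (by omega)]
        unfold ghS
        rw [if_neg (by omega)]
      | cap b' u' h =>
        exfalso
        have hb : b' = false ∧ u' = c.ow q := by simpa [pc] using hpc
        obtain ⟨rfl, rfl⟩ := hb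
        obtain ⟨j, rfl⟩ := hPT
        exact hok.2.2.2.2 rfl q j rfl rfl
      | pth b' u' j => simp [pc] at hpc
      | rt => simp [pc] at hpc
    · exact Or.inl ⟨hpc, hPT⟩

/-- The trunk with a fan as a stick of `G'`. -/
theorem tr_astkG (hGd : StGdist) (hP : Par N e) (hc : CoreAx N e c)
    {x : V} {l : Finset (Kd N Λ B FB)} (hl : okG N e c (.fan x l)) :
    AStk (GG N e c) N (gS N e c (trS N x l) (2 * N) (fun _ hj => trS_ok hl hj)) (2 * N)
      (fun z => ¬ trP x z.1) (fun z => ∃ l', l' ≠ l ∧ z.1 = .fan x l') := by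
  have he : 20 ≤ e := hP.2
  have hN : e + 4 = N := hP.1
  have e0 : (trS N x l 0 : GH V Q (Kd N Λ B FB)) = .core x := rfl
  have e1 : (trS N x l (2 * N) : GH V Q (Kd N Λ B FB)) = .fan x l := by
    unfold trS
    rw [if_neg (by omega), if_pos rfl]
  have e2 : ∀ i, 1 ≤ i → i < 2 * N → (trS N x l i : GH V Q (Kd N Λ B FB)) = .tru x i := by
    intro i h1 h2
    unfold trS
    rw [if_neg (by omega), if_neg (by omega)]
  have hso : ∀ i ≤ 2 * N, ∀ z : GV N e c, ¬ trP x z.1 →
      (GG N e c).edist (gS N e c (trS N x l) (2 * N) (fun _ hj => trS_ok hl hj) i) z =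
        ((i + lev N c x z.1 : ℕ) : ℕ∞) := by
    intro i hi z hz
    have hz1 : ∀ j, z.1 ≠ .tru x j := fun j h => hz (Or.inl ⟨j, h⟩)
    have hz2 : ∀ a, z.1 ≠ .fan x a := fun a h => hz (Or.inr ⟨a, h⟩)
    rcases Nat.eq_zero_or_pos i with rfl | h0
    · rw [hGd.core N e c hP hc _ z x (gS_val hi), Nat.zero_add]
    · rcases Nat.lt_or_eq_of_le hi with h | rfl
      · exact (hGd.tru N e c hP hc _ z x i ((gS_val hi).trans (e2 i h0 h))).2.2 hz1 hz2
      · exact (hGd.fan N e c hP hc _ z x l ((gS_val hi).trans e1)).2.2 hz1 hz2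
  have hFd : ∀ z : GV N e c, (∃ l', l' ≠ l ∧ z.1 = .fan x l') → ∀ i ≤ 2 * N,
      (GG N e c).edist (gS N e c (trS N x l) (2 * N) (fun _ hj => trS_ok hl hj) i) z =
        ((if i = 2 * N then 2 else 2 * N - i : ℕ) : ℕ∞) := by
    rintro z ⟨l', hne, hz⟩ i hi
    rcases Nat.eq_zero_or_pos i with rfl | h0
    · rw [hGd.core N e c hP hc _ z x (gS_val hi), hz, if_neg (by omega)]
      simp [lev, GH.own, GH.ht]
    · rcases Nat.lt_or_eq_of_le hi with h | rfl
      · rw [if_neg (by omega)]
        exact (hGd.tru N e c hP hc _ z x i ((gS_val hi).trans (e2 i h0 h))).2.1 l' hz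
      · rw [if_pos rfl]
        exact_mod_cast (hGd.fan N e c hP hc _ z x l ((gS_val hi).trans e1)).2.1 l' hne hz
  refine ⟨?_, ?_, ?_, ?_, ?_⟩
  · intro i j hi hj
    rcases Nat.eq_zero_or_pos i with rfl | h0
    · rw [hGd.core N e c hP hc _ _ x (gS_val hi), gS_val hj, trS_lev]
      congr 1
      omega
    · rcases Nat.lt_or_eq_of_le hi with h | rfl
      · obtain ⟨a1, a2, a3⟩ := hGd.tru N e c hP hc _
          (gS N e c (trS N x l) (2 * N) (fun _ hj => trS_ok hl hj) j) x i
          ((gS_val hi).trans (e2 i h0 h))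
        rcases Nat.eq_zero_or_pos j with rfl | h0'
        · rw [a3 (by rw [gS_val hj, e0]; simp) (by rw [gS_val hj, e0]; simp), gS_val hj, trS_lev]
          congr 1
          omega
        · rcases Nat.lt_or_eq_of_le hj with h' | rfl
          · exact a1 j ((gS_val hj).trans (e2 j h0' h'))
          · rw [a2 l ((gS_val hj).trans e1)]
            congr 1
            omega
      · obtain ⟨a1, a2, a3⟩ := hGd.fan N e c hP hc _
          (gS N e c (trS N x l) (2 * N) (fun _ hj => trS_ok hl hj) j) x l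
          ((gS_val hi).trans e1)
        rcases Nat.eq_zero_or_pos j with rfl | h0'
        · rw [a3 (by rw [gS_val hj, e0]; simp) (by rw [gS_val hj, e0]; simp), gS_val hj, trS_lev]
          congr 1
          omega
        · rcases Nat.lt_or_eq_of_le hj with h' | rfl
          · rw [a1 j ((gS_val hj).trans (e2 j h0' h'))]
            congr 1
            omega
          · rw [SimpleGraph.edist_self]
            simp
  · intro z hz
    exact ⟨lev N c x z.1, fun i hi => hso i hi z hz⟩
  · intro i hi z p hp hd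
    by_cases hPT : trP x z.1
    · right
      rcases hPT with ⟨j, hj⟩ | ⟨l', hl'⟩
      · left
        have hj' : 1 ≤ j ∧ j < 2 * N := by
          have := z.2
          rw [hj] at this
          exact this
        refine ⟨j, by omega, ?_⟩
        apply Subtype.ext
        rw [gS_val (by omega), e2 j hj'.1 hj'.2, hj]
      · by_cases h : l' = l
        · left
          subst h
          refine ⟨2 * N, le_rfl, ?_⟩
          apply Subtype.ext
          rw [gS_val le_rfl, e1, hl']
        · right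
          exact ⟨l', h, hl'⟩
    · exact Or.inl hPT
  · intro z hz i j hi hj p q h1 h2
    have h3 := enat_cast_inj ((hFd z hz i hi).symm.trans h1)
    have h4 := enat_cast_inj ((hFd z hz j hj).symm.trans (SimpleGraph.edist_comm.trans h2))
    split_ifs at h3 h4 <;> omega
  · intro z hz o ho L hL i hi p q h1 h2
    have h3 := enat_cast_inj ((hFd z hz i hi).symm.trans h1)
    have h4 := enat_cast_inj ((hso 0 (by omega) o ho).symm.trans hL)
    obtain ⟨l', hne, hz'⟩ := hz
    have h5 := (hGd.fan N e c hP hc z o x l' hz').2.2 (fun j h => ho (Or.inl ⟨j, h⟩))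
      (fun a h => ho (Or.inr ⟨a, h⟩))
    have h6 := enat_cast_inj (h5.symm.trans h2)
    split_ifs at h3 <;> omega

/-- A ghost as a stick of `G'`. -/
theorem gh_astkG (hGd : StGdist) (hP : Par N e) (hc : CoreAx N e c) (q : Q) :
    AStk (GG N e c) N (gS N e c (ghS c q) (2 * N) (fun _ hj => ghS_ok hj)) (2 * N)
      (fun z => ¬ ghP q z.1) (fun _ => False) := by
  have he : 20 ≤ e := hP.2
  have hN : e + 4 = N := hP.1
  have e0 : (ghS c q 0 : GH V Q (Kd N Λ B FB)) = .core (c.ow q) := rfl
  have e2 : ∀ i, 1 ≤ i → (ghS c q i : GH V Q (Kd N Λ B FB)) = .gho q i := by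
    intro i h1
    unfold ghS
    rw [if_neg (by omega)]
  refine ⟨?_, ?_, ?_, fun _ h => h.elim, fun _ h => h.elim⟩
  · intro i j hi hj
    rcases Nat.eq_zero_or_pos i with rfl | h0
    · rw [hGd.core N e c hP hc _ _ (c.ow q) (gS_val hi), gS_val hj, ghS_lev]
      congr 1
      omega
    · obtain ⟨a1, a2⟩ := hGd.gho N e c hP hc _
        (gS N e c (ghS c q) (2 * N) (fun _ hj => ghS_ok hj) j) q i ((gS_val hi).trans (e2 i h0))
      rcases Nat.eq_zero_or_pos j with rfl | h0'
      · rw [a2 (by rw [gS_val hj, e0]; simp), gS_val hj, ghS_lev]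
        congr 1
        omega
      · exact a1 j ((gS_val hj).trans (e2 j h0'))
  · intro z hz
    refine ⟨lev N c (c.ow q) z.1, fun i hi => ?_⟩
    rcases Nat.eq_zero_or_pos i with rfl | h0
    · rw [hGd.core N e c hP hc _ z (c.ow q) (gS_val hi), Nat.zero_add]
    · exact (hGd.gho N e c hP hc _ z q i ((gS_val hi).trans (e2 i h0))).2
        (fun j h => hz ⟨j, h⟩)
  · intro i hi z p hp hd
    by_cases hPT : ghP q z.1
    · right
      left
      obtain ⟨j, hj⟩ := hPT
      have hj' : 1 ≤ j ∧ j ≤ 2 * N := by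
        have := z.2
        rw [hj] at this
        exact this
      refine ⟨j, by omega, ?_⟩
      apply Subtype.ext
      rw [gS_val (by omega), e2 j hj'.1, hj]
    · exact Or.inl hPT

end inst

end Pool.Agent.Helper48.LD
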