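import Pool.Agent.Helper48.LD.NBase

/-!
# LD project, part B1: sticks (pendant paths), abstractly
-/

set_option autoImplicit false

namespace Pool.Agent.Helper48.LD

open Pool.Agent.Helper2.LD

/-- A pendant path `st 0, ..., st m` of a graph; `O` is the rest (including `st 0`), `F` are other
hubs which are never on a geodesic starting on the path. -/
structure AStk {X : Type} (G : SimpleGraph X) (N : ℕ) (st : ℕ → X) (m : ℕ) (O F : X → Prop) :
    Prop where
  ss : ∀ i j, i ≤ m → j ≤ m → G.edist (st i) (st j) = ((i - j + (j - i) : ℕ) : ℕ∞)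
  so : ∀ z, O z → ∃ L : ℕ, ∀ i ≤ m, G.edist (st i) z = ((i + L : ℕ) : ℕ∞)
  cov : ∀ i ≤ m, ∀ z, ∀ p ≤ 2 * N, G.edist (st i) z = (p : ℕ∞) → O z ∨ (∃ j ≤ m, z = st j) ∨ F z
  fs : ∀ z, F z → ∀ i j, i ≤ m → j ≤ m → ∀ p q : ℕ, G.edist (st i) z = (p : ℕ∞) →
    G.edist z (st j) = (q : ℕ∞) → i - j + (j - i) < p + q
  fo : ∀ z, F z → ∀ o, O o → ∀ L : ℕ, G.edist (st 0) o = (L : ℕ∞) → ∀ i ≤ m, ∀ p q : ℕ,
    G.edist (st i) z = (p : ℕ∞) → G.edist z o = (q : ℕ∞) → i + L < p + q

section abs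

variable {X X' K : Type} {G : SimpleGraph X} {G' : SimpleGraph X'} {N e m : ℕ} {st : ℕ → X}
  {st' : ℕ → X'} {O F : X → Prop} {O' F' : X' → Prop} {lab : X → Finset K} {lab' : X' → Finset K}

theorem enat_cast_inj {a b : ℕ} (h : (a : ℕ∞) = (b : ℕ∞)) : a = b := by exact_mod_cast h

theorem AStk.pts_ss (A : AStk G N st m O F) {i j p q : ℕ} (hi : i ≤ m) (hj : j ≤ m)
    (hpq : i - j + (j - i) = p + q) (hp : p ≤ 2 * N) (z : X) :
    (G.edist (st i) z = (p : ℕ∞) ∧ G.edist z (st j) = (q : ℕ∞)) ↔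
      z = st (if i ≤ j then i + p else i - p) := by
  constructor
  · rintro ⟨h1, h2⟩
    rcases A.cov i hi z p hp h1 with h3 | ⟨k, hk, rfl⟩ | h3
    · obtain ⟨L, hL⟩ := A.so z h3
      have h4 := enat_cast_inj ((hL i hi).symm.trans h1)
      have h5 := enat_cast_inj ((hL j hj).symm.trans ((SimpleGraph.edist_comm).trans h2))
      have h6 : L = 0 := by omega
      have h7 := hL 0 (by omega)
      rw [h6] at h7
      have h8 : st 0 = z := (SimpleGraph.edist_eq_zero_iff (G := G)).1 (by simpa using h7)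
      rw [← h8]
      congr 1
      split_ifs <;> omega
    · have h4 := enat_cast_inj ((A.ss i k hi hk).symm.trans h1)
      have h5 := enat_cast_inj ((A.ss k j hk hj).symm.trans h2)
      congr 1
      split_ifs <;> omega
    · have := A.fs z h3 i j hi hj p q h1 h2
      omega
  · intro h
    subst h
    have hk : (if i ≤ j then i + p else i - p) ≤ m := by split_ifs <;> omega
    rw [A.ss i _ hi hk, A.ss _ j hk hj]
    constructor
    · congr 1
      split_ifs <;> omega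
    · congr 1
      split_ifs <;> omega

theorem AStk.pts_so (A : AStk G N st m O F) {i p q L : ℕ} (hi : i ≤ m) {o : X} (ho : O o)
    (hL : G.edist (st 0) o = (L : ℕ∞))
    (hpq : i + L = p + q) (hp : p ≤ 2 * N) (z : X) :
    (G.edist (st i) z = (p : ℕ∞) ∧ G.edist z o = (q : ℕ∞)) ↔
      ((p < i ∧ z = st (i - p)) ∨ (i ≤ p ∧ G.edist (st 0) z = ((p - i : ℕ) : ℕ∞) ∧
        G.edist z o = (q : ℕ∞))) := by
  obtain ⟨L', hL'⟩ := A.so o ho
  have hLL : L' = L := by
    have := enat_cast_inj ((hL' 0 (by omega)).symm.trans hL)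
    omega
  subst hLL
  constructor
  · rintro ⟨h1, h2⟩
    rcases A.cov i hi z p hp h1 with h3 | ⟨k, hk, rfl⟩ | h3
    · obtain ⟨M, hM⟩ := A.so z h3
      have h4 := enat_cast_inj ((hM i hi).symm.trans h1)
      right
      refine ⟨by omega, ?_, h2⟩
      rw [hM 0 (by omega)]
      congr 1
      omega
    · have h4 := enat_cast_inj ((A.ss i k hi hk).symm.trans h1)
      have h5 := enat_cast_inj ((hL' k hk).symm.trans h2)
      by_cases hpi : p < i
      · left
        refine ⟨hpi, ?_⟩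
        congr 1
        omega
      · right
        have hk0 : k = 0 := by omega
        subst hk0
        refine ⟨by omega, ?_, h2⟩
        rw [A.ss 0 0 (by omega) (by omega)]
        congr 1
        omega
    · have := A.fo z h3 o ho L' hL i hi p q h1 h2
      omega
  · rintro (⟨h1, rfl⟩ | ⟨h1, h2, h3⟩)
    · rw [A.ss i _ hi (by omega), hL' (i - p) (by omega)]
      constructor
      · congr 1
        omega
      · congr 1
        omega
    · refine ⟨?_, h3⟩
      rcases A.cov 0 (by omega) z (p - i) (by omega) h2 with h4 | ⟨k, hk, rfl⟩ | h4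
      · obtain ⟨M, hM⟩ := A.so z h4
        have h5 := enat_cast_inj ((hM 0 (by omega)).symm.trans h2)
        rw [hM i hi]
        congr 1
        omega
      · have h4 := enat_cast_inj ((A.ss 0 k (by omega) hk).symm.trans h2)
        have h5 := enat_cast_inj ((hL' k hk).symm.trans h3)
        rw [A.ss i k hi hk]
        congr 1
        omega
      · have := A.fo z h4 o ho L' hL 0 (by omega) (p - i) q h2 h3
        omega

theorem cmp_ss (A : AStk G N st m O F) (A' : AStk G' N st' m O' F') (he : e ≤ 2 * N)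
    (hlab : ∀ j ≤ m, lab (st j) = lab' (st' j)) {i j : ℕ} (hi : i ≤ m) (hj : j ≤ m) :
    PairEq N e G lab G' lab' (st i) (st j) (st' i) (st' j) := by
  refine pairEq_mk (hlab j hj) (A.ss i j hi hj) (A'.ss i j hi hj) ?_
  intro _ p κ
  rw [win_iff (A.ss i j hi hj), win_iff (A'.ss i j hi hj)]
  have key : ∀ q, p ≤ e → i - j + (j - i) = p + q →
      ((∃ z, G.edist (st i) z = (p : ℕ∞) ∧ G.edist z (st j) = (q : ℕ∞) ∧ κ ∈ lab z) ↔
        ∃ z, G'.edist (st' i) z = (p : ℕ∞) ∧ G'.edist z (st' j) = (q : ℕ∞) ∧ κ ∈ lab' z) := by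
    intro q hp hpq
    have hk : (if i ≤ j then i + p else i - p) ≤ m := by split_ifs <;> omega
    constructor
    · rintro ⟨z, h1, h2, h3⟩
      have h4 := (A.pts_ss hi hj hpq (by omega) z).1 ⟨h1, h2⟩
      rw [h4, hlab _ hk] at h3
      have h5 := (A'.pts_ss hi hj hpq (by omega) _).2 rfl
      exact ⟨_, h5.1, h5.2, h3⟩
    · rintro ⟨z, h1, h2, h3⟩
      have h4 := (A'.pts_ss hi hj hpq (by omega) z).1 ⟨h1, h2⟩
      rw [h4, ← hlab _ hk] at h3
      have h5 := (A.pts_ss hi hj hpq (by omega) _).2 rfl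
      exact ⟨_, h5.1, h5.2, h3⟩
  constructor
  · rintro ⟨q, h1, h2, h3, h4⟩
    exact ⟨q, h1, h2, h3, (key q h1 h3).1 h4⟩
  · rintro ⟨q, h1, h2, h3, h4⟩
    exact ⟨q, h1, h2, h3, (key q h1 h3).2 h4⟩

theorem cmp_so (A : AStk G N st m O F) (A' : AStk G' N st' m O' F') (he : e ≤ 2 * N)
    (hlab : ∀ j ≤ m, lab (st j) = lab' (st' j)) {i L : ℕ} (hi : i ≤ m) {o : X} {o' : X'}
    (ho : O o) (ho' : O' o') (hll : lab o = lab' o') (hL : G.edist (st 0) o = (L : ℕ∞))
    (hL' : G'.edist (st' 0) o' = (L : ℕ∞))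
    (hw : i + L ≤ 2 * e → ∀ p κ, Win e G lab (st 0) o p κ ↔ Win e G' lab' (st' 0) o' p κ) :
    PairEq N e G lab G' lab' (st i) o (st' i) o' := by
  have hd : G.edist (st i) o = ((i + L : ℕ) : ℕ∞) := by
    obtain ⟨L1, h1⟩ := A.so o ho
    have := enat_cast_inj ((h1 0 (by omega)).symm.trans hL)
    rw [h1 i hi]
    congr 1
    omega
  have hd' : G'.edist (st' i) o' = ((i + L : ℕ) : ℕ∞) := by
    obtain ⟨L1, h1⟩ := A'.so o' ho'
    have := enat_cast_inj ((h1 0 (by omega)).symm.trans hL')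
    rw [h1 i hi]
    congr 1
    omega
  refine pairEq_mk hll hd hd' ?_
  intro hD p κ
  have key : ∀ {Y : Type} {H : SimpleGraph Y} {t : ℕ → Y} {P R : Y → Prop} {lb : Y → Finset K}
      (_ : AStk H N t m P R) {o : Y} (_ : P o) (_ : H.edist (t 0) o = (L : ℕ∞))
      (_ : H.edist (t i) o = ((i + L : ℕ) : ℕ∞)),
      (Win e H lb (t i) o p κ ↔ ((p < i ∧ p ≤ e ∧ i + L ≤ p + e ∧ κ ∈ lb (t (i - p))) ∨
        (i ≤ p ∧ p ≤ e ∧ Win e H lb (t 0) o (p - i) κ))) := by
    intro Y H t P R lb B o hP h0 h1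
    rw [win_iff h1, win_iff h0]
    constructor
    · rintro ⟨q, a1, a2, a3, z, a4, a5, a6⟩
      rcases (B.pts_so hi hP h0 a3 (by omega) z).1 ⟨a4, a5⟩ with ⟨b1, b2⟩ | ⟨b1, b2, b3⟩
      · left
        rw [b2] at a6
        exact ⟨b1, a1, by omega, a6⟩
      · right
        exact ⟨b1, a1, q, by omega, a2, by omega, z, b2, b3, a6⟩
    · rintro (⟨a1, a2, a3, a4⟩ | ⟨a1, a2, q, a3, a4, a5, z, a6, a7, a8⟩)
      · refine ⟨i + L - p, a2, by omega, by omega, t (i - p), ?_⟩
        have := (B.pts_so hi hP h0 (p := p) (q := i + L - p) (by omega) (by omega) (t (i - p))).2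
          (Or.inl ⟨a1, rfl⟩)
        exact ⟨this.1, this.2, a4⟩
      · refine ⟨q, a2, a4, by omega, z, ?_⟩
        have := (B.pts_so hi hP h0 (p := p) (q := q) (by omega) (by omega) z).2
          (Or.inr ⟨a1, a6, a7⟩)
        exact ⟨this.1, this.2, a8⟩
  rw [key A ho hL hd, key A' ho' hL' hd', hw hD]
  constructor
  · rintro (⟨a1, a2, a3, a4⟩ | h)
    · rw [hlab _ (by omega)] at a4
      exact Or.inl ⟨a1, a2, a3, a4⟩
    · exact Or.inr h
  · rintro (⟨a1, a2, a3, a4⟩ | h)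
    · rw [← hlab _ (by omega)] at a4
      exact Or.inl ⟨a1, a2, a3, a4⟩
    · exact Or.inr h

end abs

end Pool.Agent.Helper48.LD
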