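import Pool.Agent.Helper48.LD.NStk

/-!
# LD project, part B1: sticks in the pieces of the tree skeleton
-/

set_option autoImplicit false

namespace Pool.Agent.Helper48.LD

open Pool.Agent.Helper2.LD

section T

variable {V Q Λ B FB : Type} {N e : ℕ} {c : Core V Q Λ B FB} {s : Ch V Q}

/-- The hub belongs to the part `P`. -/
def PT {K : Type} (P : GH V Q K → Prop) : TH V Q K → Prop
  | .nat _ _ h => P h
  | .cap _ _ h => P h
  | _ => False

/-- A stick in the piece `(b, u)`, with a part `P` which is closed upwards. -/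
structure TStk {K : Type} (N e : ℕ) (c : Core V Q Λ B FB) (s : Ch V Q) (b : Bool) (u : V)
    (st : ℕ → GH V Q K) (m : ℕ) (P : GH V Q K → Prop) : Prop where
  z : st 0 = .core u
  p : ∀ j, j < m → pb N e c s b u (st (j + 1)) = st j
  l : ∀ j ≤ m, lev N c u (st j) = j
  P1 : ∀ j, 1 ≤ j → j ≤ m → P (st j)
  cl : ∀ h, ¬ P h → ¬ P (pb N e c s b u h)

variable {b : Bool} {u : V} {st : ℕ → GH V Q (Kd N Λ B FB)} {m : ℕ}
  {P : GH V Q (Kd N Λ B FB) → Prop}

theorem TStk.iter (A : TStk N e c s b u st m P) : ∀ (i j : ℕ), i ≤ j → j ≤ m →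
    (tpar N e c s)^[i] (.nat b u (st j)) = .nat b u (st (j - i)) := by
  intro i
  induction i with
  | zero => intro j _ _; rfl
  | succ i ih =>
    intro j hij hj
    rw [Function.iterate_succ_apply]
    have h1 : tpar N e c s (.nat b u (st j)) = .nat b u (st (j - 1)) := by
      show TH.nat b u (pb N e c s b u (st j)) = _
      have := A.p (j - 1) (by omega)
      rw [show j - 1 + 1 = j by omega] at this
      rw [this]
    rw [h1, ih (j - 1) (by omega) (by omega)]
    congr 2
    omega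

theorem TStk.cl' (A : TStk N e c s b u st m P) : ∀ (i : ℕ) (x : TH V Q (Kd N Λ B FB)),
    pc x = some (b, u) → ¬ PT P x →
    ¬ PT P ((tpar N e c s)^[i] x) ∧ pc ((tpar N e c s)^[i] x) = some (b, u) := by
  intro i
  induction i with
  | zero => intro x h1 h2; exact ⟨h2, h1⟩
  | succ i ih =>
    intro x h1 h2
    rw [Function.iterate_succ_apply]
    cases x with
    | nat b' u' h =>
      have hb : b' = b ∧ u' = u := by simpa [pc] using h1
      obtain ⟨rfl, rfl⟩ := hb
      exact ih _ rfl (A.cl h h2)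
    | cap b' u' h =>
      have hb : b' = b ∧ u' = u := by simpa [pc] using h1
      obtain ⟨rfl, rfl⟩ := hb
      exact ih _ rfl h2
    | pth b' u' j => simp [pc] at h1
    | rt => simp [pc] at h1

theorem enat_eq {a : ℕ∞} {D : ℕ} (h : ∀ d : ℕ, a ≤ (d : ℕ∞) ↔ D ≤ d) : a = (D : ℕ∞) := by
  apply le_antisymm
  · exact (h D).2 le_rfl
  · by_contra hlt
    have h1 : a < (D : ℕ∞) := not_le.1 hlt
    obtain ⟨n, hn⟩ := ENat.ne_top_iff_exists.1 (ne_top_of_lt h1)
    have h2 := (h n).1 (by rw [← hn])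
    rw [← hn] at h1
    have h3 : n < D := by exact_mod_cast h1
    omega

theorem T_ss (hTd : StTdist) (hP : Par N e) (hc : CoreAx N e c) (hs : ChAx N c s)
    (A : TStk N e c s b u st m P) {i j : ℕ} (hi : i ≤ m) (hj : j ≤ m) {y y' : TV N e c s}
    (hy : y.1 = .nat b u (st i)) (hy' : y'.1 = .nat b u (st j)) :
    (TG N e c s).edist y y' = ((i - j + (j - i) : ℕ) : ℕ∞) := by
  apply enat_eq
  intro d
  rw [hTd.inn N e c s hP hc hs y y' (by rw [hy, hy']; rfl), hy, hy']
  have l1 : tlev N c (.nat b u (st i) : TH V Q (Kd N Λ B FB)) = i := A.l i hi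
  have l2 : tlev N c (.nat b u (st j) : TH V Q (Kd N Λ B FB)) = j := A.l j hj
  rw [l1, l2]
  constructor
  · rintro ⟨i', j', h1, h2, h3, h4⟩
    rw [A.iter i' i h1 hi, A.iter j' j h2 hj] at h4
    have h5 : st (i - i') = st (j - j') := by injection h4
    have h6 : i - i' = j - j' := by rw [← A.l (i - i') (by omega), h5, A.l (j - j') (by omega)]
    omega
  · intro h
    refine ⟨i - j, j - i, by omega, by omega, h, ?_⟩
    rw [A.iter _ i (by omega) hi, A.iter _ j (by omega) hj]
    congr 2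
    omega

theorem T_so (hTok : StTok) (hTd : StTdist) (hP : Par N e) (hc : CoreAx N e c) (hs : ChAx N c s)
    (A : TStk N e c s b u st m P) {i : ℕ} (hi : i ≤ m) {y y' : TV N e c s}
    (hy : y.1 = .nat b u (st i)) (hpc : pc y'.1 = some (b, u)) (hn : ¬ PT P y'.1) :
    (TG N e c s).edist y y' = ((i + tlev N c y'.1 : ℕ) : ℕ∞) := by
  apply enat_eq
  intro d
  rw [hTd.inn N e c s hP hc hs y y' (by rw [hy, hpc]; rfl), hy]
  have l1 : tlev N c (.nat b u (st i) : TH V Q (Kd N Λ B FB)) = i := A.l i hi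
  rw [l1]
  constructor
  · rintro ⟨i', j', h1, h2, h3, h4⟩
    rw [A.iter i' i h1 hi] at h4
    have h5 := A.cl' j' y'.1 hpc hn
    rw [← h4] at h5
    have h6 : i = i' := by
      by_contra hne
      exact h5.1 (A.P1 (i - i') (by omega) (by omega))
    have h7 := okT_iter hTok hP hc hs j' y'.1 y'.2 h2
    rw [← h4] at h7
    have h8 : tlev N c (.nat b u (st (i - i')) : TH V Q (Kd N Λ B FB)) = 0 := by
      rw [h6, Nat.sub_self]
      exact A.l 0 (by omega)
    have h9 := h7.2.1
    rw [h8] at h9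
    omega
  · intro h
    refine ⟨i, tlev N c y'.1, le_rfl, le_rfl, h, ?_⟩
    rw [A.iter i i le_rfl hi, Nat.sub_self, A.z]
    obtain ⟨h1, h2, h3⟩ := okT_iter hTok hP hc hs (tlev N c y'.1) y'.1 y'.2 le_rfl
    rcases hTok.zero N e c s hP hc hs _ h1 (by omega) with h4 | ⟨b', u', h4, h5⟩
    · rw [h4, hpc] at h3
      simp [pc] at h3
    · rw [h5, hpc] at h3
      simp only [pc, Option.some.injEq, Prod.mk.injEq] at h3
      rw [h5, h3.1, h3.2]

/-- Everything near a hub of a stick lies in the piece. -/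
theorem T_near (hTok : StTok) (hTd : StTdist) (hP : Par N e) (hc : CoreAx N e c) (hs : ChAx N c s)
    (hu : s.rp u = u)
    (A : TStk N e c s b u st m P) (hcc : ¬ P (cc N s b u)) {i : ℕ} (hi : i ≤ m)
    {y y' : TV N e c s} (hy : y.1 = .nat b u (st i))
    (hd : (TG N e c s).edist y y' ≤ ((2 * N : ℕ) : ℕ∞)) : pc y'.1 = some (b, u) := by
  rcases hTd.near N e c s hP hc hs y y' b u (by rw [hy]; rfl) hd with h | ⟨j, h⟩
  · exact h
  · exfalso
    have hN : 0 < N := by have := hP.1; have := hP.2; omega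
    have hcc1 := hTok.okc N e c s hP hc hs b u hu
    have hp1 : okT N e c s (.pth b u 1) := ⟨hu, le_refl _, by omega⟩
    have h1 := hTd.out N e c s hP hc hs y y' ⟨_, hcc1⟩ ⟨_, hp1⟩ b u (by rw [hy]; rfl)
      (by rw [h]; simp [pc]) rfl rfl
    have h2 := T_so hTok hTd hP hc hs A hi (y' := ⟨_, hcc1⟩) hy rfl hcc
    rw [h1, h2] at hd
    have h3 : 2 * N ≤ tlev N c (.cap b u (cc N s b u) : TH V Q (Kd N Λ B FB)) := by
      have h4 := hcc1.2.2.1
      show 2 * N ≤ lev N c u (cc N s b u) + 1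
      unfold dep at h4
      split_ifs at h4 <;> omega
    have h4 : ((2 * N + 1 : ℕ) : ℕ∞) ≤ ((2 * N : ℕ) : ℕ∞) := by
      refine le_trans ?_ (le_trans le_self_add hd)
      have : ((i + tlev N c (.cap b u (cc N s b u) : TH V Q (Kd N Λ B FB)) : ℕ) : ℕ∞) + 1 =
          ((i + tlev N c (.cap b u (cc N s b u) : TH V Q (Kd N Λ B FB)) + 1 : ℕ) : ℕ∞) := by
        push_cast; rfl
      rw [this]
      exact_mod_cast (by omega : 2 * N + 1 ≤ i + tlev N c (.cap b u (cc N s b u) :
        TH V Q (Kd N Λ B FB)) + 1)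
    have h5 : 2 * N + 1 ≤ 2 * N := by exact_mod_cast h4
    omega

end T

end Pool.Agent.Helper48.LD
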