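import Pool.Agent.Helper48.LD.P_Ntru

/-!
# LD project, part B1: near hubs of a fan
-/

set_option autoImplicit false

namespace Pool.Agent.Helper48.LD

open Pool.Agent.Helper2.LD

theorem cmp_ff {X X' K : Type} {G : SimpleGraph X} {G' : SimpleGraph X'} {N e : ℕ}
    {lab : X → Finset K} {lab' : X' → Finset K} {a b t : X} {a' b' t' : X'}
    (h : G.edist a b = ((2 : ℕ) : ℕ∞)) (h1 : G.edist a t = ((1 : ℕ) : ℕ∞))
    (h2 : G.edist t b = ((1 : ℕ) : ℕ∞))
    (hu : ∀ z, G.edist a z = ((1 : ℕ) : ℕ∞) → z = t)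
    (h' : G'.edist a' b' = ((2 : ℕ) : ℕ∞)) (h1' : G'.edist a' t' = ((1 : ℕ) : ℕ∞))
    (h2' : G'.edist t' b' = ((1 : ℕ) : ℕ∞))
    (hu' : ∀ z, G'.edist a' z = ((1 : ℕ) : ℕ∞) → z = t')
    (ha : lab a = lab' a') (hb : lab b = lab' b') (ht : lab t = lab' t') (he : 2 ≤ e) :
    PairEq N e G lab G' lab' a b a' b' := by
  refine pairEq_mk hb h h' ?_
  intro _ p κ
  have key : ∀ {Y : Type} {H : SimpleGraph Y} {lb : Y → Finset K} {a b t : Y}
    (_ : H.edist a b = ((2 : ℕ) : ℕ∞)) (_ : H.edist a t = ((1 : ℕ) : ℕ∞))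
    (_ : H.edist t b = ((1 : ℕ) : ℕ∞))
    (_ : ∀ z, H.edist a z = ((1 : ℕ) : ℕ∞) → z = t),
    (Win e H lb a b p κ ↔ (p = 0 ∧ κ ∈ lb a) ∨ (p = 1 ∧ κ ∈ lb t) ∨ (p = 2 ∧ κ ∈ lb b)) := by
    intro Y H lb a b t k0 k1 k2 k3
    rw [win_iff k0]
    constructor
    · rintro ⟨q, _, _, b3, z, b4, b5, b6⟩
      have hp : p = 0 ∨ p = 1 ∨ p = 2 := by omega
      rcases hp with rfl | rfl | rfl
      · left
        have : a = z := (SimpleGraph.edist_eq_zero_iff (G := H)).1 (by simpa using b4)
        rw [this]
        exact ⟨rfl, b6⟩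
      · right; left
        rw [← k3 z b4]
        exact ⟨rfl, b6⟩
      · right; right
        have hq : q = 0 := by omega
        subst hq
        have : z = b := (SimpleGraph.edist_eq_zero_iff (G := H)).1 (by simpa using b5)
        rw [← this]
        exact ⟨rfl, b6⟩
    · rintro (⟨rfl, h⟩ | ⟨rfl, h⟩ | ⟨rfl, h⟩)
      · exact ⟨2, by omega, by omega, rfl, a, by simp, k0, h⟩
      · exact ⟨1, by omega, by omega, rfl, t, k1, k2, h⟩
      · exact ⟨0, by omega, by omega, rfl, b, k0, by simp, h⟩
  rw [key h h1 h2 hu, key h' h1' h2' hu', ha, hb, ht]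

theorem pNfan (hPb : StPb) (hTok : StTok) (hTd : StTdist) (hTp : StTpos) (hGd : StGdist)
    (hGp : StGpos) (hMt : StMt) : StNfan := by
  intro V Q Λ B FB _ _ _ N e c s hP hc hs x l y g hg hy
  have hu : s.rp (s.rp x) = s.rp x := rp_idem hs x
  have hT : TS N c x = TS N c (s.rp x) := (hs.rp1 x).symm
  generalize s.rp x = u at hy hu hT
  have hlb : c.lb x = c.lb u := lb_eq hP hc hT
  have he : 20 ≤ e := hP.2
  have hN : e + 4 = N := hP.1
  have hl' : okG N e c (.fan x l) := by
    have := g.2
    rw [hg] at this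
    exact this
  have hl : okG N e c (.fan u l) := fan_tr hlb.symm hl'
  have e1 : ∀ (a : Finset (Kd N Λ B FB)) (w : V),
      (trS N w a (2 * N) : GH V Q (Kd N Λ B FB)) = .fan w a := by
    intro a w
    unfold trS
    rw [if_neg (by omega), if_pos rfl]
  have e2 : ∀ (a : Finset (Kd N Λ B FB)) (w : V),
      (trS N w a (2 * N - 1) : GH V Q (Kd N Λ B FB)) = .tru w (2 * N - 1) := by
    intro a w
    unfold trS
    rw [if_neg (by omega), if_neg (by omega)]
  have A := tr_astk hTok hTd hP hc hs hu hl
  have A' := tr_astkG hGd hP hc hl'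
  have hyS : tS N e c s true u (trS N u l) (2 * N) (tr_okT hP hu hl) (2 * N) = y := by
    apply Subtype.ext
    rw [tS_val le_rfl, e1, hy]
  have hgS : gS N e c (trS N x l) (2 * N) (fun _ hj => trS_ok hl' hj) (2 * N) = g := by
    apply Subtype.ext
    rw [gS_val le_rfl, e1, hg]
  have hlab : ∀ k ≤ 2 * N,
      tL N e c s (tS N e c s true u (trS N u l) (2 * N) (tr_okT hP hu hl) k) =
        gL N e c (gS N e c (trS N x l) (2 * N) (fun _ hj => trS_ok hl' hj) k) := by
    intro k hk
    unfold tL gL
    rw [tS_val hk, gS_val hk]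
    exact trS_lab hlb l k
  have hss : ∀ k ≤ 2 * N,
      PairEq N e (TG N e c s) (tL N e c s) (GG N e c) (gL N e c) y
        (tS N e c s true u (trS N u l) (2 * N) (tr_okT hP hu hl) k) g
        (gS N e c (trS N x l) (2 * N) (fun _ hj => trS_ok hl' hj) k) := by
    intro k hk
    have := cmp_ss A A' (e := e) (by omega) hlab (i := 2 * N) (j := k) le_rfl hk
    rw [hyS, hgS] at this
    exact this
  have hff : ∀ l2, l2 ≠ l → ∀ (y' : TV N e c s) (g' : GV N e c),
      y'.1 = .nat true u (.fan u l2) → g'.1 = .fan x l2 →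
      PairEq N e (TG N e c s) (tL N e c s) (GG N e c) (gL N e c) y y' g g' := by
    intro l2 hne y' g' h1 h2
    have hl2 : okG N e c (.fan u l2) := by
      have := y'.2
      rw [h1] at this
      exact this.2.1
    have hl2' : okG N e c (.fan x l2) := by
      have := g'.2
      rw [h2] at this
      exact this
    refine cmp_ff (t := tS N e c s true u (trS N u l) (2 * N) (tr_okT hP hu hl) (2 * N - 1))
      (t' := gS N e c (trS N x l) (2 * N) (fun _ hj => trS_ok hl' hj) (2 * N - 1))
      (T_ff hTd hP hc hs hne.symm hy h1) ?_ ?_ ?_ ?_ ?_ ?_ ?_ ?_ ?_ (hlab _ (by omega)) (by omega)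
    · rw [← hyS, A.ss _ _ le_rfl (by omega)]
      congr 1
      omega
    · have h3 := T_ss hTd hP hc hs (tr_stk (c := c) (s := s) hP u l2) (i := 2 * N - 1)
        (j := 2 * N) (by omega) le_rfl
        (y := tS N e c s true u (trS N u l) (2 * N) (tr_okT hP hu hl) (2 * N - 1)) (y' := y')
        (by rw [tS_val (by omega), e2, e2]) (by rw [h1, e1])
      rw [h3]
      congr 1
      omega
    · intro z hz
      rcases A.cov (2 * N) le_rfl z 1 (by omega) (by rw [hyS]; exact hz) with hO | ⟨k, hk, rfl⟩ |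
        ⟨l3, hne3, hl3⟩
      · obtain ⟨L, hL⟩ := A.so z hO
        have h4 := hL (2 * N) le_rfl
        rw [hyS] at h4
        have := enat_cast_inj (h4.symm.trans hz)
        omega
      · have h4 := A.ss (2 * N) k le_rfl hk
        rw [hyS] at h4
        have := enat_cast_inj (h4.symm.trans hz)
        congr 1
        omega
      · have h4 := T_ff hTd hP hc hs hne3.symm hy hl3
        have := enat_cast_inj (h4.symm.trans hz)
        omega
    · exact_mod_cast (hGd.fan N e c hP hc g g' x l hg).2.1 l2 hne h2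
    · rw [← hgS, A'.ss _ _ le_rfl (by omega)]
      congr 1
      omega
    · have h3 := (hGd.tru N e c hP hc
        (gS N e c (trS N x l) (2 * N) (fun _ hj => trS_ok hl' hj) (2 * N - 1)) g' x (2 * N - 1)
        (by rw [gS_val (by omega), e2])).2.1 l2 h2
      rw [h3]
      congr 1
      omega
    · intro z hz
      rcases A'.cov (2 * N) le_rfl z 1 (by omega) (by rw [hgS]; exact hz) with hO | ⟨k, hk, rfl⟩ |
        ⟨l3, hne3, hl3⟩
      · obtain ⟨L, hL⟩ := A'.so z hO
        have h4 := hL (2 * N) le_rfl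
        rw [hgS] at h4
        have := enat_cast_inj (h4.symm.trans hz)
        omega
      · have h4 := A'.ss (2 * N) k le_rfl hk
        rw [hgS] at h4
        have := enat_cast_inj (h4.symm.trans hz)
        congr 1
        omega
      · have h4 := (hGd.fan N e c hP hc g z x l hg).2.1 l3 hne3 hl3
        have h5 : ((2 : ℕ) : ℕ∞) = ((1 : ℕ) : ℕ∞) := by
          rw [← hz, h4]
          rfl
        have := enat_cast_inj h5
        omega
    · unfold tL gL
      rw [hy, hg]
      rfl
    · unfold tL gL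
      rw [h1, h2]
      rfl
  constructor
  · intro y' hd
    obtain ⟨p, hp, hdp⟩ := enat_le hd
    rcases A.cov (2 * N) le_rfl y' p hp (by rw [hyS]; exact hdp) with hO | ⟨k, hk, hk'⟩ |
      ⟨l2, hne, hl2⟩
    · have hso := T_so hTok hTd hP hc hs (tr_stk (c := c) (s := s) hP u l)
        (i := 2 * N) le_rfl (y := y) (y' := y') (by rw [e1, hy]) hO.1 hO.2
      have h1 := enat_cast_inj (hso.symm.trans hdp)
      have h2 : y' = tS N e c s true u (trS N u l) (2 * N) (tr_okT hP hu hl) 0 := by
        rcases hTok.zero N e c s hP hc hs y'.1 y'.2 (by omega) with h3 | ⟨b', u', h3, h4⟩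
        · have := hO.1
          rw [h3] at this
          simp [pc] at this
        · have := hO.1
          rw [h4] at this
          simp only [pc, Option.some.injEq, Prod.mk.injEq] at this
          apply Subtype.ext
          rw [tS_val (by omega), h4, this.1, this.2]
          rfl
      rw [h2]
      exact ⟨_, hss 0 (by omega)⟩
    · rw [hk']
      exact ⟨_, hss k hk⟩
    · have hok : okG N e c (.fan u l2) := by
        have := y'.2
        rw [hl2] at this
        exact this.2.1
      exact ⟨⟨.fan x l2, fan_tr hlb hok⟩, hff l2 hne y' _ hl2 rfl⟩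
  · intro g' hd
    obtain ⟨p, hp, hdp⟩ := enat_le hd
    rcases A'.cov (2 * N) le_rfl g' p hp (by rw [hgS]; exact hdp) with hO | ⟨k, hk, hk'⟩ |
      ⟨l2, hne, hl2⟩
    · have hso := (hGd.fan N e c hP hc g g' x l hg).2.2 (fun i h => hO (Or.inl ⟨i, h⟩))
        (fun a h => hO (Or.inr ⟨a, h⟩))
      have h1 := enat_cast_inj (hso.symm.trans hdp)
      have h2 : g' = gS N e c (trS N x l) (2 * N) (fun _ hj => trS_ok hl' hj) 0 := by
        apply Subtype.ext
        rw [gS_val (by omega)]
        show g'.1 = .core x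
        have h3 : lev N c x g'.1 = 0 := by omega
        have hgo := g'.2
        revert h3 hgo
        generalize g'.1 = v
        intro h3 hgo
        cases v with
        | core z =>
          have : c.G.dist x z + 0 = 0 := h3
          rw [(hc.conn.dist_eq_zero_iff).1 (by omega : c.G.dist x z = 0)]
        | gho q j =>
          have h4 : c.G.dist x (c.ow q) + j = 0 := h3
          have h5 : 1 ≤ j ∧ j ≤ 2 * N := hgo
          omega
        | tru z j =>
          have h4 : c.G.dist x z + j = 0 := h3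
          have h5 : 1 ≤ j ∧ j < 2 * N := hgo
          omega
        | fan z a =>
          have h4 : c.G.dist x z + 2 * N = 0 := h3
          omega
      rw [h2]
      exact ⟨_, hss 0 (by omega)⟩
    · rw [hk']
      exact ⟨_, hss k hk⟩
    · have hok : okG N e c (.fan x l2) := by
        have := g'.2
        rw [hl2] at this
        exact this
      have hok2 : okG N e c (.fan u l2) := fan_tr hlb.symm hok
      have hokT : okT N e c s (.nat true u (.fan u l2)) := by
        have := tr_okT (s := s) hP hu hok2 (2 * N) le_rfl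
        rw [e1] at this
        exact this
      exact ⟨⟨_, hokT⟩, hff l2 hne _ g' rfl hl2⟩

end Pool.Agent.Helper48.LD
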