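import Pool.Agent.Helper48.LD.Upper

/-!
The disjoint union of two nonempty posets: it is disconnected, and every component embeds in one
of the two summands.
-/

namespace Pool.Agent.Helper48.LD

variable {α β : Type} [PartialOrder α] [PartialOrder β]

theorem isLeft_of_reachable {x y : α ⊕ β} (h : (comparabilityGraph (α ⊕ β)).Reachable x y) :
    x.isLeft = y.isLeft := by
  obtain ⟨w⟩ := h
  induction w with
  | nil => rfl
  | @cons u v w hadj p ih =>
    refine Eq.trans ?_ ih
    rcases (hadj : u < v ∨ v < u) with h | h
    · rcases u with a | b <;> rcases v with a' | b'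
      · rfl
      · exact absurd h.le Sum.not_inl_le_inr
      · exact absurd h.le Sum.not_inr_le_inl
      · rfl
    · rcases u with a | b <;> rcases v with a' | b'
      · rfl
      · exact absurd h.le Sum.not_inr_le_inl
      · exact absurd h.le Sum.not_inl_le_inr
      · rfl

theorem disconnected_sum [Nonempty α] [Nonempty β] : Disconnected (α ⊕ β) := by
  obtain ⟨a⟩ := (inferInstance : Nonempty α)
  obtain ⟨b⟩ := (inferInstance : Nonempty β)
  refine ⟨(comparabilityGraph (α ⊕ β)).connectedComponentMk (Sum.inl a),
    (comparabilityGraph (α ⊕ β)).connectedComponentMk (Sum.inr b), fun h => ?_⟩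
  have := isLeft_of_reachable (SimpleGraph.ConnectedComponent.exact h)
  simp at this

theorem component_sum {k : ℕ} (hα : HasLocalRealizer α k) (hβ : HasLocalRealizer β k)
    (C : (comparabilityGraph (α ⊕ β)).ConnectedComponent) : HasLocalRealizer C.supp k := by
  induction C using SimpleGraph.ConnectedComponent.ind with
  | h x =>
    rcases x with a | b
    · have hl : ∀ y : ((comparabilityGraph (α ⊕ β)).connectedComponentMk (Sum.inl a)).supp,
          ∃ a', y.1 = Sum.inl a' := by
        rintro ⟨y, hy⟩
        rw [SimpleGraph.ConnectedComponent.mem_supp_iff] at hy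
        have := isLeft_of_reachable (SimpleGraph.ConnectedComponent.exact hy)
        rcases y with a' | b'
        · exact ⟨a', rfl⟩
        · simp at this
      choose f hf using hl
      refine HasLocalRealizer.of_embedding (OrderEmbedding.ofMapLEIff f ?_) hα
      intro y y'
      rw [← Sum.inl_le_inl_iff (β := β), ← hf, ← hf]
      rfl
    · have hl : ∀ y : ((comparabilityGraph (α ⊕ β)).connectedComponentMk (Sum.inr b)).supp,
          ∃ b', y.1 = Sum.inr b' := by
        rintro ⟨y, hy⟩
        rw [SimpleGraph.ConnectedComponent.mem_supp_iff] at hy
        have := isLeft_of_reachable (SimpleGraph.ConnectedComponent.exact hy)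
        rcases y with a' | b'
        · simp at this
        · exact ⟨b', rfl⟩
      choose f hf using hl
      refine HasLocalRealizer.of_embedding (OrderEmbedding.ofMapLEIff f ?_) hβ
      intro y y'
      rw [← Sum.inr_le_inr_iff (α := α), ← hf, ← hf]
      rfl

/-- The disjoint union of two nonempty finite posets of local dimension at most `d` belongs to the
class of posets in the definition of `attained d`. -/
theorem attained_sum {d : ℕ} [Finite α] [Finite β] [Nonempty α] [Nonempty β]
    (hα : HasLocalRealizer α d) (hβ : HasLocalRealizer β d) :
    ldim (α ⊕ β) ∈ attained d :=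
  ⟨α ⊕ β, Fintype.ofFinite _, inferInstance, disconnected_sum,
    fun C => ldim_le_iff.2 (component_sum hα hβ C), rfl⟩

end Pool.Agent.Helper48.LD
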