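import Pool.Agent.Helper48.LD.Basic

/-!
Upper bound: if every component of a finite poset has local dimension at most `d`, then the poset
has local dimension at most `d + 2`.
-/

namespace Pool.Agent.Helper48.LD

variable {α : Type} [PartialOrder α]

theorem hasLocalRealizer_add_two [Finite α] {d : ℕ}
    (h : ∀ C : (comparabilityGraph α).ConnectedComponent, HasLocalRealizer C.supp d) :
    HasLocalRealizer α (d + 2) := by
  classical
  choose ι hι L hL hf using h
  obtain ⟨m, ⟨g⟩⟩ := Finite.exists_equiv_fin (comparabilityGraph α).ConnectedComponent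
  let cc : α → (comparabilityGraph α).ConnectedComponent :=
    (comparabilityGraph α).connectedComponentMk
  have hcc : ∀ x y : α, x < y → cc x = cc y := by
    intro x y hxy
    apply SimpleGraph.ConnectedComponent.sound
    exact SimpleGraph.Adj.reachable (Or.inl hxy)
  let e : ∀ C : (comparabilityGraph α).ConnectedComponent, C.supp ↪o α :=
    fun C => OrderEmbedding.subtype (fun x => x ∈ C.supp)
  let κ : Type := (Σ C : (comparabilityGraph α).ConnectedComponent, ι C) ⊕ Bool
  let key : Bool → α → ℤ := fun b x => if b then ((g (cc x) : ℕ) : ℤ) else -((g (cc x) : ℕ) : ℤ)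
  have hkey : ∀ b : Bool, ∀ x ∈ (Set.univ : Set α), ∀ y ∈ (Set.univ : Set α), x < y →
      key b x ≤ key b y := by
    intro b x _ y _ hxy
    simp only [key, hcc x y hxy, le_refl]
  let M : κ → PLE α := Sum.elim (fun p => (L p.1 p.2).map (e p.1))
    (fun b => PLE.ofKey Set.univ (key b) (hkey b))
  have hM : ∀ b x y, key b x < key b y → (M (Sum.inr b)).Before x y := fun b x y h =>
    PLE.ofKey_before (hf := hkey b) (Set.mem_univ _) (Set.mem_univ _) h
  refine ⟨κ, inferInstance, M, ⟨?_, ?_⟩, ?_⟩
  · intro x y hxy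
    have hx : x ∈ (cc y).supp := by
      rw [SimpleGraph.ConnectedComponent.mem_supp_iff]; exact hcc x y hxy
    have hy : y ∈ (cc y).supp := by
      rw [SimpleGraph.ConnectedComponent.mem_supp_iff]
    obtain ⟨i, hi⟩ := (hL (cc y)).comp ⟨x, hx⟩ ⟨y, hy⟩ hxy
    exact ⟨Sum.inl ⟨cc y, i⟩, PLE.map_before (e := e (cc y)) hi⟩
  · intro x y hxy hyx
    by_cases hc : cc x = cc y
    · have hx : x ∈ (cc y).supp := by
        rw [SimpleGraph.ConnectedComponent.mem_supp_iff]; exact hc
      have hy : y ∈ (cc y).supp := by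
        rw [SimpleGraph.ConnectedComponent.mem_supp_iff]
      obtain ⟨⟨i, hi⟩, ⟨j, hj⟩⟩ := (hL (cc y)).incomp ⟨x, hx⟩ ⟨y, hy⟩ hxy hyx
      exact ⟨⟨Sum.inl ⟨cc y, i⟩, PLE.map_before (e := e (cc y)) hi⟩,
        ⟨Sum.inl ⟨cc y, j⟩, PLE.map_before (e := e (cc y)) hj⟩⟩
    · have hne : ((g (cc x) : ℕ) : ℤ) ≠ ((g (cc y) : ℕ) : ℤ) := by
        intro h
        exact hc (g.injective (Fin.ext (by exact_mod_cast h)))
      rcases lt_or_gt_of_ne hne with h | h
      · exact ⟨⟨Sum.inr true, hM true x y (by simpa [key] using h)⟩,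
          ⟨Sum.inr false, hM false y x (by simpa [key] using h)⟩⟩
      · exact ⟨⟨Sum.inr false, hM false x y (by simpa [key] using h)⟩,
          ⟨Sum.inr true, hM true y x (by simpa [key] using h)⟩⟩
  · intro x
    have hx : x ∈ (cc x).supp := by
      rw [SimpleGraph.ConnectedComponent.mem_supp_iff]
    have hsub : {k : κ | x ∈ (M k).carrier} ⊆
        (fun i => (Sum.inl ⟨cc x, i⟩ : κ)) '' {i | (⟨x, hx⟩ : (cc x).supp) ∈ (L (cc x) i).carrier} ∪
        {Sum.inr true, Sum.inr false} := by
      rintro (⟨C, i⟩ | b) hk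
      · left
        obtain ⟨⟨a, ha⟩, haL, hax⟩ := (hk : x ∈ (e C) '' (L C i).carrier)
        have hax' : a = x := hax
        subst hax'
        have hC : cc a = C := by
          rw [SimpleGraph.ConnectedComponent.mem_supp_iff] at ha; exact ha
        subst hC
        exact ⟨i, haL, rfl⟩
      · right
        cases b <;> simp
    calc freq M x ≤ _ := Set.ncard_le_ncard hsub
      _ ≤ _ + _ := Set.ncard_union_le _ _
      _ ≤ d + 2 := by
        refine Nat.add_le_add ?_ ?_
        · exact (Set.ncard_image_le (Set.toFinite _)).trans (hf (cc x) ⟨x, hx⟩)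
        · exact Set.ncard_insert_le _ _ |>.trans (by simp)

/-- Upper bound: `d + 2` bounds all attained values. -/
theorem attained_le {d k : ℕ} (h : k ∈ attained d) : k ≤ d + 2 := by
  obtain ⟨α, _, _, _, hC, rfl⟩ := h
  rw [ldim_le_iff]
  exact hasLocalRealizer_add_two (fun C => ldim_le_iff.1 (hC C))

end Pool.Agent.Helper48.LD
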