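import Pool.Agent.Helper48.LD.Basic

/-!
Zone posets. A zone poset is given by a labelling `lab : I → Fin d → Λ` (zone `i` has the labels
`lab i 0, ..., lab i (d-1)`). Its lower elements are the grid points `lo i z` with
`z : Fin d → Fin N`, its upper elements are `up i k θ` with `k : Fin d` and `θ : Fin N`.
-/

namespace Pool.Agent.Helper48.LD

/-- Points of a zone poset. -/
inductive ZPt (I : Type) (d N : ℕ) : Type
  | lo (i : I) (z : Fin d → Fin N) : ZPt I d N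
  | up (i : I) (k : Fin d) (θ : Fin N) : ZPt I d N

instance {I : Type} {d N : ℕ} [Finite I] : Finite (ZPt I d N) := by
  have : Finite ((I × (Fin d → Fin N)) ⊕ (I × Fin d × Fin N)) := inferInstance
  let f : ZPt I d N → (I × (Fin d → Fin N)) ⊕ (I × Fin d × Fin N) := fun x =>
    match x with
    | .lo i z => Sum.inl (i, z)
    | .up i k θ => Sum.inr (i, k, θ)
  apply Finite.of_injective f
  rintro (⟨i, z⟩ | ⟨i, k, θ⟩) (⟨i', z'⟩ | ⟨i', k', θ'⟩) h
  · simp only [f, Sum.inl.injEq, Prod.mk.injEq] at h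
    rw [h.1, h.2]
  · simp [f] at h
  · simp [f] at h
  · simp only [f, Sum.inr.injEq, Prod.mk.injEq] at h
    rw [h.1, h.2.1, h.2.2]

/-- The order relation of a zone poset. -/
def ZLe {I Λ : Type} {d N : ℕ} (lab : I → Fin d → Λ) : ZPt I d N → ZPt I d N → Prop
  | .lo i z, .lo i' z' => i = i' ∧ z ≤ z'
  | .lo i z, .up i' k' θ => ∀ k, lab i k = lab i' k' → (k < k' ∨ (k = k' ∧ i = i' ∧ z k < θ))
  | .up _ _ _, .lo _ _ => False
  | .up i k θ, .up i' k' θ' => lab i k = lab i' k' ∧ (k < k' ∨ (k = k' ∧ i = i' ∧ θ ≤ θ'))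

/-- The zone poset of a labelling. -/
def Zone {I Λ : Type} {d : ℕ} (_lab : I → Fin d → Λ) (N : ℕ) : Type := ZPt I d N

namespace Zone

variable {I Λ : Type} {d : ℕ} {lab : I → Fin d → Λ} {N : ℕ}

/-- Lower points. -/
def lo (lab : I → Fin d → Λ) {N : ℕ} (i : I) (z : Fin d → Fin N) : Zone lab N := ZPt.lo i z
/-- Upper points. -/
def up (lab : I → Fin d → Λ) {N : ℕ} (i : I) (k : Fin d) (θ : Fin N) : Zone lab N := ZPt.up i k θ

theorem cases {P : Zone lab N → Prop} (h1 : ∀ i z, P (lo lab i z))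
    (h2 : ∀ i k θ, P (up lab i k θ)) (x : Zone lab N) : P x := by
  rcases x with ⟨i, z⟩ | ⟨i, k, θ⟩
  · exact h1 i z
  · exact h2 i k θ

theorem form (x : Zone lab N) : (∃ i z, x = lo lab i z) ∨ ∃ i k θ, x = up lab i k θ := by
  rcases x with ⟨i, z⟩ | ⟨i, k, θ⟩
  · exact Or.inl ⟨i, z, rfl⟩
  · exact Or.inr ⟨i, k, θ, rfl⟩

instance : PartialOrder (Zone lab N) where
  le := ZLe lab
  le_refl := by
    rintro (⟨i, z⟩ | ⟨i, k, θ⟩)
    · exact ⟨rfl, le_refl _⟩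
    · exact ⟨rfl, Or.inr ⟨rfl, rfl, le_refl _⟩⟩
  le_trans := by
    rintro (⟨i, z⟩ | ⟨i, k, θ⟩) (⟨i', z'⟩ | ⟨i', k', θ'⟩) (⟨i'', z''⟩ | ⟨i'', k'', θ''⟩) h h'
    · exact ⟨h.1.trans h'.1, h.2.trans h'.2⟩
    · obtain ⟨rfl, hz⟩ := h
      intro k hk
      rcases h' k hk with h1 | ⟨h1, h2, h3⟩
      · exact Or.inl h1
      · exact Or.inr ⟨h1, h2, lt_of_le_of_lt (hz k) h3⟩
    · exact h'.elim
    · obtain ⟨hl, h'⟩ := h'
      intro k hk
      rcases h k (hk.trans hl.symm) with h1 | ⟨h1, h2, h3⟩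
      · rcases h' with h4 | ⟨h4, h5, h6⟩
        · exact Or.inl (h1.trans h4)
        · exact Or.inl (h4 ▸ h1)
      · rcases h' with h4 | ⟨h4, h5, h6⟩
        · exact Or.inl (h1 ▸ h4)
        · exact Or.inr ⟨h1.trans h4, h2.trans h5, lt_of_lt_of_le h3 h6⟩
    · exact h.elim
    · exact h.elim
    · exact h'.elim
    · obtain ⟨hl, h⟩ := h
      obtain ⟨hl', h'⟩ := h'
      refine ⟨hl.trans hl', ?_⟩
      rcases h with h1 | ⟨h1, h2, h3⟩
      · rcases h' with h4 | ⟨h4, h5, h6⟩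
        · exact Or.inl (h1.trans h4)
        · exact Or.inl (h4 ▸ h1)
      · rcases h' with h4 | ⟨h4, h5, h6⟩
        · exact Or.inl (h1 ▸ h4)
        · exact Or.inr ⟨h1.trans h4, h2.trans h5, h3.trans h6⟩
  le_antisymm := by
    rintro (⟨i, z⟩ | ⟨i, k, θ⟩) (⟨i', z'⟩ | ⟨i', k', θ'⟩) h h'
    · obtain ⟨rfl, hz⟩ := h
      rw [le_antisymm hz h'.2]
    · exact h'.elim
    · exact h.elim
    · obtain ⟨hl, h⟩ := h
      obtain ⟨hl', h'⟩ := h'
      rcases h with h1 | ⟨h1, h2, h3⟩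
      · rcases h' with h4 | ⟨h4, h5, h6⟩
        · exact absurd h1 h4.asymm
        · exact absurd h1 (h4 ▸ lt_irrefl _)
      · rcases h' with h4 | ⟨h4, h5, h6⟩
        · exact absurd h4 (h1 ▸ lt_irrefl _)
        · rw [h1, h2, le_antisymm h3 h6]

theorem lo_le_lo {i i' : I} {z z' : Fin d → Fin N} :
    lo lab i z ≤ lo lab i' z' ↔ i = i' ∧ z ≤ z' := Iff.rfl

theorem lo_le_up {i i' : I} {z : Fin d → Fin N} {k' : Fin d} {θ : Fin N} :
    lo lab i z ≤ up lab i' k' θ ↔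
      ∀ k, lab i k = lab i' k' → (k < k' ∨ (k = k' ∧ i = i' ∧ z k < θ)) := Iff.rfl

theorem not_up_le_lo {i i' : I} {z : Fin d → Fin N} {k' : Fin d} {θ : Fin N} :
    ¬ up lab i' k' θ ≤ lo lab i z := fun h => h

theorem up_le_up {i i' : I} {k k' : Fin d} {θ θ' : Fin N} :
    up lab i k θ ≤ up lab i' k' θ' ↔
      lab i k = lab i' k' ∧ (k < k' ∨ (k = k' ∧ i = i' ∧ θ ≤ θ')) := Iff.rfl

theorem lo_ne_up {i i' : I} {z : Fin d → Fin N} {k' : Fin d} {θ : Fin N} :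
    lo lab i z ≠ up lab i' k' θ := by
  intro h
  have h' : (ZPt.lo i z : ZPt I d N) = ZPt.up i' k' θ := h
  cases h'

theorem lo_lt_up {i i' : I} {z : Fin d → Fin N} {k' : Fin d} {θ : Fin N}
    (h : ∀ k, lab i k = lab i' k' → (k < k' ∨ (k = k' ∧ i = i' ∧ z k < θ))) :
    lo lab i z < up lab i' k' θ :=
  lt_of_le_of_ne (lo_le_up.2 h) lo_ne_up

instance [Finite I] : Finite (Zone lab N) := inferInstanceAs (Finite (ZPt I d N))

end Zone

end Pool.Agent.Helper48.LD
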